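import Pool.Agent.W_eea520_c.Mes1
import Pool.Agent.W_eea520_G.S4

/-!
# Finitely supported probability measures with given moments, `n = 1` (MP_eea520_nt)
-/

set_option autoImplicit false

namespace Pool.Agent.EEAN

open Filter Topology Pool.Agent.EEA520 Pool.Agent.EEAG1

/-- Finitely many values of a sequence of the list are values of a finite type. -/
theorem Mes2_fin {c : ℤ → ℤ} (h : c = stSeq ∨ c = cmSeq ∨ FinType c) (K : Finset ℤ) :
    ∃ c' : ℤ → ℤ, FinType c' ∧ ∀ k ∈ K, c' k = c k := by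
  obtain ⟨N, hN, hNK⟩ : ∃ N : ℕ, 3 ≤ N ∧ ∀ k ∈ K, k.natAbs + 2 ≤ N := by
    refine ⟨(∑ k ∈ K, k.natAbs) + 3, by omega, fun k hk => ?_⟩
    have := Finset.single_le_sum (f := fun k : ℤ => k.natAbs) (fun i _ => Nat.zero_le _) hk
    omega
  have hdvd : ∀ a : ℤ, a.natAbs < N → ((N : ℤ) ∣ a ↔ a = 0) := by
    intro a ha
    constructor
    · intro h
      by_contra h0
      have h1 := Int.natAbs_dvd_natAbs.2 h
      rw [Int.natAbs_natCast] at h1
      have := Nat.le_of_dvd (Int.natAbs_pos.2 h0) h1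
      omega
    · rintro rfl
      exact dvd_zero _
  have hcomb : ∀ a : ℤ, a.natAbs < N → comb N 1 a = if a = 0 then 1 else 0 := by
    intro a ha
    unfold comb
    simp only [hdvd a ha, one_pow]
  rcases h with rfl | rfl | h
  · refine ⟨famA N 1, Or.inl ⟨N, 1, hN, Or.inl rfl, rfl⟩, fun k hk => ?_⟩
    have h1 := hNK k hk
    unfold famA stSeq
    rw [hcomb k (by omega), hcomb (k - 1) (by omega), hcomb (k + 1) (by omega)]
    by_cases h0 : k = 0
    · subst h0
      simp
    · rw [if_neg h0, if_neg h0]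
      by_cases h2 : k = 1
      · subst h2
        simp
      · by_cases h3 : k = -1
        · subst h3
          simp
        · rw [if_neg (by omega), if_neg (by omega), if_neg (by omega)]
          norm_num
  · refine ⟨famD N 1, Or.inr (Or.inl ⟨N, 1, by omega, Or.inl rfl, rfl⟩), fun k hk => ?_⟩
    have h1 := hNK k hk
    unfold famD cmSeq
    rw [hcomb k (by omega)]
    by_cases h0 : k = 0
    · subst h0
      simp
    · rw [if_neg h0, if_neg h0, add_zero]
  · exact ⟨c, h, fun _ _ => rfl⟩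

theorem Mes2_evp (θ : ℝ) (k : ℤ) :
    (evp (fun _ : Fin 1 => Complex.exp ((θ : ℝ) * Complex.I)) (fun _ => k)).re =
      Real.cos (k * θ) := by
  unfold evp
  rw [Fin.prod_univ_one, ← Complex.exp_int_mul]
  have : (k : ℂ) * ((θ : ℝ) * Complex.I) = ((k * θ : ℝ) : ℂ) * Complex.I := by
    push_cast
    ring
  rw [this, Complex.exp_ofReal_mul_I_re]

/-- The measures of the laws of the list for `n = 1`. -/
theorem Mes_one {c : ℤ → ℤ} (h : c = stSeq ∨ c = cmSeq ∨ FinType c) (F : Finset (Wt 1)) :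
    ∃ ν : Torus 1 →₀ ℝ, (∀ q, 0 ≤ ν q) ∧ (ν.sum fun _ z => z) = 1 ∧ (∀ q ∈ ν.support, IsPt q) ∧
      ∀ w ∈ F, (ν.sum fun q z => z * wre q w) =
        ((if Even w.1 then c (w.1 / 2 - w.2 0) else 0 : ℤ) : ℝ) := by
  classical
  obtain ⟨c', hc', hcc⟩ := Mes2_fin h (F.image fun w => w.1 / 2 - w.2 0)
  obtain ⟨r, hr, hper⟩ := finType_per hc'
  obtain ⟨w, hw0, hw⟩ := exists_weights (finType_posDef hc') hr
    (fun k => by exact_mod_cast hper k)
  have hsum : ∑ j, w j = 1 := by
    have h1 := hw 0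
    simp only [Int.cast_zero, zero_mul, Real.cos_zero, mul_one] at h1
    rw [← Finset.sum_mul, finType_zero hc'] at h1
    push_cast at h1
    linarith
  have hpt : ∀ j : Fin r, ∃ P Q : Torus 1, CT P ∧ CT Q ∧ ∀ v : Wt 1,
      (P.ev v : ℂ) + (Q.ev v : ℂ) = 2 * if Even v.1 then
        evp (fun _ : Fin 1 => Complex.exp (((2 * Real.pi * j / r : ℝ)) * Complex.I))
          (fun i => v.2 i - v.1 / 2) else 0 := fun j =>
    R1c_point fun _ => Complex.norm_exp_ofReal_mul_I _
  choose P Q hP hQ hPQ using hpt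
  have hre : ∀ (j : Fin r) (v : Wt 1), (P j |>.ev v : ℂ).re + (Q j |>.ev v : ℂ).re =
      if Even v.1 then 2 * Real.cos (((v.2 0 - v.1 / 2 : ℤ) : ℝ) * (2 * Real.pi * j / r))
        else 0 := by
    intro j v
    rw [← Complex.add_re, hPQ]
    split_ifs with hv
    · have e1 : (fun i => v.2 i - v.1 / 2) = fun _ : Fin 1 => v.2 0 - v.1 / 2 := by
        funext i
        rw [Subsingleton.elim i 0]
      rw [e1, ← Mes2_evp]
      simp
    · simp
  obtain ⟨ν, h1, h2, h3, h4⟩ := Mes_finsupp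
    (fun j : Fin r × Bool => if j.2 then P j.1 else Q j.1) (fun j => w j.1 / 2)
    (fun j => div_nonneg (hw0 _) (by norm_num)) (by
      rw [Fintype.sum_prod_type]
      have e1 : ∀ j : Fin r, ∑ _b : Bool, w j / 2 = w j := by
        intro j
        rw [Fintype.sum_bool]
        ring
      rw [Finset.sum_congr rfl fun j _ => e1 j, hsum])
  refine ⟨ν, h1, h2, fun q hq => ?_, fun v hv => ?_⟩
  · obtain ⟨j, rfl⟩ := h3 q hq
    show IsPt (if j.2 then P j.1 else Q j.1)
    split_ifs
    · exact (hP _).isPt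
    · exact (hQ _).isPt
  · have hv1 : v = w1 v.1 (v.2 0) := by
      refine Prod.ext rfl ?_
      funext i
      have hi : i = 0 := Subsingleton.elim _ _
      subst hi
      rfl
    have hwre : ∀ q : Torus 1, wre q v = (q.ev (w1 v.1 (v.2 0)) : ℂ).re +
        (q.ev (w1 v.1 (v.1 - v.2 0)) : ℂ).re := by
      intro q
      unfold wre
      rw [hv1]
      exact orb_sum_one v.1 (v.2 0) fun u => (q.ev u : ℂ).re
    rw [h4 fun q => wre q v, Fintype.sum_prod_type]
    have e1 : ∀ j : Fin r, ∑ b : Bool, w j / 2 * wre (if b then P j else Q j) v =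
        w j * (if Even v.1 then
          2 * Real.cos (((v.1 / 2 - v.2 0 : ℤ) : ℝ) * (2 * Real.pi * j / r)) else 0) := by
      intro j
      rw [Fintype.sum_bool]
      simp only [if_true, Bool.false_eq_true, if_false]
      rw [hwre, hwre]
      have a1 := hre j (w1 v.1 (v.2 0))
      have a2 := hre j (w1 v.1 (v.1 - v.2 0))
      have f1 : (w1 v.1 (v.2 0)).1 = v.1 := rfl
      have f2 : (w1 v.1 (v.1 - v.2 0)).1 = v.1 := rfl
      have f3 : (w1 v.1 (v.2 0)).2 0 = v.2 0 := rfl
      have f4 : (w1 v.1 (v.1 - v.2 0)).2 0 = v.1 - v.2 0 := rfl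
      rw [f1, f3] at a1
      rw [f2, f4] at a2
      by_cases hev : Even v.1
      · rw [if_pos hev] at a1 a2 ⊢
        have b1 : Real.cos (((v.2 0 - v.1 / 2 : ℤ) : ℝ) * (2 * Real.pi * j / r)) =
            Real.cos (((v.1 / 2 - v.2 0 : ℤ) : ℝ) * (2 * Real.pi * j / r)) := by
          rw [← Real.cos_neg]
          congr 1
          push_cast
          ring
        have b2 : (v.1 - v.2 0 - v.1 / 2 : ℤ) = v.1 / 2 - v.2 0 := by
          obtain ⟨l, hl⟩ := hev
          omega
        rw [b1] at a1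
        rw [b2] at a2
        linear_combination (w j / 2) * a1 + (w j / 2) * a2
      · rw [if_neg hev] at a1 a2 ⊢
        linear_combination (w j / 2) * a1 + (w j / 2) * a2
    rw [Finset.sum_congr rfl fun j _ => e1 j]
    by_cases hev : Even v.1
    · simp only [if_pos hev]
      rw [hw, hcc _ (Finset.mem_image_of_mem _ hv)]
    · simp only [if_neg hev]
      simp

end Pool.Agent.EEAN
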