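import Pool.Agent.W_eea520_c.RealC
import Pool.Agent.W_eea520_c.Mes2
import Pool.Agent.W_eea520_G.S4

/-!
# Every law of the list for `n = 1` occurs with the conclusion of Q1 (MP_eea520_nt)
-/

set_option autoImplicit false

namespace Pool.Agent.EEAC

open Filter Topology Pool.Agent.EEA520 Pool.Agent.EEAN Pool.Agent.EEAG1 LSeries

/-- Every sequence of the list is the sequence of the moments of a tempered system with trivial central
character, for which the conclusion of Q1 holds for all characters. -/
theorem occursC {c : ℤ → ℤ} (h : c = stSeq ∨ c = cmSeq ∨ FinType c) :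
    ∃ π : GSys 1, Tempered π ∧ (∀ p, (π p).nu = 1) ∧ PoleOrder π (symdet 2 (-1)) 1 0 ∧
      Moments π c ∧ NatMoments π c ∧ ∀ m : Wt 1 →₀ ℤ, IsCharacter m → Continues π m := by
  classical
  obtain ⟨ν0, hν0, hνc⟩ := exists_prob h
  have hceven : ∀ k : ℤ, c (-k) = c k := by
    intro k
    have h1 := hνc (-k)
    have h2 : ∀ x : ℝ, Real.cos (((-k : ℤ) : ℝ) * x) = Real.cos (k * x) := by
      intro x
      push_cast
      rw [neg_mul, Real.cos_neg]
    simp only [h2] at h1
    rw [hνc k] at h1
    exact_mod_cast h1.symm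
  have hc0 : c 0 = 2 := by
    have h1 := hνc 0
    simp only [Int.cast_zero, zero_mul, Real.cos_zero, mul_one, MeasureTheory.integral_const,
      MeasureTheory.probReal_univ, one_smul] at h1
    exact_mod_cast h1.symm
  have hCj : ∀ w : Wt 1, (if Even w.1 then c (w.1 / 2 - w.2 0) else 0) =
      (if Even (jw w) then c (jw w / 2) else 0) := by
    intro w
    have e1 : Even (jw w) ↔ Even w.1 := by
      unfold jw
      rw [Int.even_sub]
      simp
    by_cases he : Even w.1
    · rw [if_pos he, if_pos (e1.2 he)]
      obtain ⟨r, hr⟩ := he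
      congr 1
      unfold jw
      omega
    · rw [if_neg he, if_neg fun h => he (e1.1 h)]
  obtain ⟨π, hπ, hnu, hform0⟩ := realize_all (n := 1)
    (C := fun w => if Even w.1 then c (w.1 / 2 - w.2 0) else 0)
    (fun F => to_XT (Mes_one h F)) (fun m hm => by
      obtain ⟨a, ha⟩ := exists_half (c := fun k => if Even k then c (k / 2) else 0) hm (fun k => by
        simp only [even_neg]
        by_cases he : Even k
        · rw [if_pos he, if_pos he]
          obtain ⟨r, rfl⟩ := he
          have e1 : -(r + r) / 2 = -r := by omega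
          have e2 : (r + r) / 2 = r := by omega
          rw [e1, e2, hceven]
        · rw [if_neg he, if_neg he]) (by simpa using hc0)
      refine ⟨a, ?_⟩
      simp only [hCj]
      rw [← ha]
      norm_num)
  have hform : ∀ m : Wt 1 →₀ ℤ, IsCharacter m → ∃ (a b : ℤ) (H : ℂ → ℂ), Differentiable ℂ H ∧
      ∀ s : ℂ, 1 < s.re → HasProd (fun p : Pr => (π p).factor m (((p : ℕ) : ℂ) ^ (-s)))
        (riemannZeta s ^ a * riemannZeta (s + 1 / 4) ^ b * Complex.exp (H s)) := by
    intro m hm
    obtain ⟨a, b, H, -, hH, hp⟩ := hform0 m hm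
    exact ⟨a, b, H, hH, hp⟩
  have hord : IsOrd π ⊤ (fun w => if w.2 = 0 ∧ Even w.1.1 then c (w.1.1 / 2 - w.1.2 0) else 0) := by
    intro w t
    obtain ⟨a, b, H, ha, hH, hp⟩ := hform0 (orb w) (orb_isCharacter w)
    have h4 := poleOrder_of_formC hH hp (t : ℝ)
    have h5 : a = if Even w.1 then c (w.1 / 2 - w.2 0) else 0 := by
      have h6 : ((orb w).sum fun u e => e *
          (if Even u.1 then c (u.1 / 2 - u.2 0) else 0)) =
          ∑ g : WG 1, (if Even (jw (act g w)) then c ((jw (act g w)) / 2) else 0) := by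
        simp only [hCj]
        unfold orb
        rw [← Finsupp.sum_finsetSum_index (by intro a; simp) (by intro a b c; ring)]
        refine Finset.sum_congr rfl fun g _ => ?_
        rw [Finsupp.sum_single_index (by simp), one_mul]
      rw [h6] at ha
      have hw : w = w1 w.1 (w.2 0) := by
        refine Prod.ext rfl ?_
        funext i
        have hi : i = 0 := Subsingleton.elim _ _
        subst hi
        rfl
      have h7 := orb_sum_one w.1 (w.2 0)
        fun u => (((if Even (jw u) then c ((jw u) / 2) else 0 : ℤ)) : ℝ)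
      rw [← hw] at h7
      have h8 : ∑ g : WG 1, (if Even (jw (act g w)) then c ((jw (act g w)) / 2) else 0) =
          (if Even (jw w) then c ((jw w) / 2) else 0) +
          (if Even (jw (w1 w.1 (w.1 - w.2 0))) then c ((jw (w1 w.1 (w.1 - w.2 0))) / 2)
            else 0) := by
        exact_mod_cast h7
      rw [h8] at ha
      have hcard : (Fintype.card (WG 1) : ℤ) = 2 := by norm_num
      rw [hcard] at ha
      have e1 : Even (jw w) ↔ Even w.1 := by
        unfold jw
        rw [Int.even_sub]
        simp
      have e2 : jw (w1 w.1 (w.1 - w.2 0)) = -jw w := by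
        unfold jw w1
        ring
      rw [e2] at ha
      simp only [even_neg] at ha
      by_cases he : Even w.1
      · rw [if_pos he]
        rw [if_pos (e1.2 he), if_pos (e1.2 he)] at ha
        obtain ⟨r, hr⟩ := he
        have e3 : jw w / 2 = w.1 / 2 - w.2 0 := by
          unfold jw
          omega
        have e4 : -jw w / 2 = -(w.1 / 2 - w.2 0) := by
          unfold jw
          omega
        rw [e3, e4, hceven] at ha
        linarith
      · rw [if_neg he]
        rw [if_neg (fun h => he (e1.1 h)), if_neg (fun h => he (e1.1 h))] at ha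
        linarith
    have h6 : (if ((t : ℝ)) = 0 then a else 0) =
        if t = 0 ∧ Even w.1 then c (w.1 / 2 - w.2 0) else 0 := by
      by_cases ht : t = 0
      · have ht' : ((t : ℝ)) = 0 := by rw [ht]; rfl
        rw [if_pos ht', h5]
        by_cases he : Even w.1
        · rw [if_pos he, if_pos ⟨ht, he⟩]
        · rw [if_neg he, if_neg fun h => he h.2]
      · have ht' : ¬ ((t : ℝ)) = 0 := fun h => ht (Subtype.ext h)
        rw [if_neg ht', if_neg fun h => ht h.1]
    show PoleOrder π (orb w) (pt t) (if t = 0 ∧ Even w.1 then c (w.1 / 2 - w.2 0) else 0)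
    rw [← h6]
    exact h4
  have hmero : ∀ m : Wt 1 →₀ ℤ, IsCharacter m → ∀ t : ℝ, MeroAt π m (pt t) := by
    intro m hm t
    obtain ⟨a, b, H, hH, hp⟩ := hform m hm
    obtain ⟨g, h1, -, h2⟩ := poleOrder_of_formC hH hp t
    exact ⟨g, h1, h2⟩
  have hmean : ∀ k : ℤ, Mean (fun p => ((π p).x 0 : ℂ)) (fun z => 2 * (z ^ k).re) (c k) := by
    intro k
    have h1 := mean_x hπ hord k
    rw [if_pos ⟨rfl, Even.zero⟩] at h1
    have h2 : c ((w1 0 k).1 / 2 - (w1 0 k).2 0) = c k := by
      show c (0 / 2 - k) = c k
      rw [Int.zero_ediv, zero_sub, hceven]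
    rw [h2] at h1
    exact h1
  have had : PoleOrder π (symdet 2 (-1)) 1 0 := by
    obtain ⟨o, ho⟩ := exists_poleOrder (t := 0) hπ (hmero (symdet (2 * 1) (-((1 : ℕ) : ℤ)))
      (symdet_isCharacter _ _) 0)
    have h1 := order_of_moments hπ hmean ho
    have h2 : adOrder c 1 = 0 := by
      unfold adOrder
      rw [Finset.sum_range_one, Nat.cast_zero, zero_add, seq_one h]
      norm_num
    rw [h1, h2, pt_zeroF] at ho
    exact ho
  refine ⟨π, hπ, fun p => ?_, had, hmean, ?_, fun m hm => ?_⟩
  · exact hnu p
  · obtain ⟨c', -, -, h1, h2, -⟩ := lineB hπ had (E := ⊤)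
      (fun k j t _ => hmero _ (symdet_isCharacter k j) t)
    have h3 : c' = c := by
      funext k
      have h4 : Mean (fun p => ((π p).x 0 : ℂ)) (fun z => 2 * (z ^ k).re) (c' k) := h1 k
      have h5 := tendsto_nhds_unique h4 (hmean k)
      exact_mod_cast h5
    rw [← h3]
    exact h2 rfl
  · obtain ⟨a, b, H, hH, hp⟩ := hform m hm
    exact continues_of_form hH hp

end Pool.Agent.EEAC
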