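import Pool.Agent.W_eea520_h25.Defs

/-!
# Tempered systems with meromorphic continuation to `ℂ`: abstract part (MP_eea520_nt)

Paper proof: proofs id 373. `Q` is the set of the points (classes), `f k`, `k ∈ ℕ`, are test functions.
-/

set_option autoImplicit false

namespace Pool.Agent.EEAC

open Filter Topology Pool.Agent.EEA520

/-- A finitely supported probability measure. -/
def IsProb {Q : Type} (ν : Q →₀ ℝ) : Prop := (∀ q, 0 ≤ ν q) ∧ (ν.sum fun _ a => a) = 1

/-- The coefficients of the Dirichlet series: `f k (q p) - C k - p ^ (-1/4) (B k - C k)` at the primes `p`, and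
`G k N (q p)` at the other prime powers `N = p ^ j`. -/
noncomputable def av {Q : Type} (f : ℕ → Q → ℝ) (C B : ℕ → ℝ) (G : ℕ → ℕ → Q → ℝ) (q : Pr → Q)
    (k N : ℕ) : ℝ :=
  if h : N.Prime then f k (q ⟨N, h⟩) - C k - ((N : ℝ) ^ (-(1 / 4) : ℝ)) * (B k - C k)
  else if h : IsPrimePow N then G k N (q ⟨N.minFac, Nat.minFac_prime h.ne_one⟩) else 0

/-- The block of the `N` with `u ≤ log N < u'`. -/
noncomputable def bl (u u' : ℝ) : Finset ℕ := Finset.Ico ⌈Real.exp u⌉₊ ⌈Real.exp u'⌉₊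

theorem mem_bl {u u' : ℝ} {N : ℕ} : N ∈ bl u u' ↔ 0 < N ∧ u ≤ Real.log N ∧ Real.log N < u' := by
  unfold bl
  rw [Finset.mem_Ico, Nat.ceil_le, Nat.lt_ceil]
  constructor
  · rintro ⟨h1, h2⟩
    have h3 : (0 : ℝ) < N := (Real.exp_pos u).trans_le h1
    refine ⟨by exact_mod_cast h3, ?_, ?_⟩
    · rwa [Real.le_log_iff_exp_le h3]
    · rwa [Real.log_lt_iff_lt_exp h3]
  · rintro ⟨h1, h2, h3⟩
    have h4 : (0 : ℝ) < N := by exact_mod_cast h1
    exact ⟨(Real.le_log_iff_exp_le h4).1 h2, (Real.log_lt_iff_lt_exp h4).1 h3⟩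

/-- The parameters of the stage `m`. -/
noncomputable def hh (m : ℕ) : ℝ := Real.exp (-((m : ℝ) ^ 2 / 100)) / 100

/-- The number of the moments. -/
noncomputable def Jf (m : ℕ) (u : ℝ) : ℕ := ⌈u / m⌉₊

/-- The length of the block which starts at `u`. -/
noncomputable def dl (m : ℕ) (u : ℝ) : ℝ := 2 * hh m * Jf m u

end Pool.Agent.EEAC
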