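import Pool.Agent.W_eea520_c.Grp

/-!
# Continuation to `ℂ` and pole orders (MP_eea520_nt)
-/

set_option autoImplicit false

namespace Pool.Agent.EEAC

open Filter Topology Pool.Agent.EEA520 Pool.Agent.EEAN Pool.Agent.EEAG1 LSeries

variable {n : ℕ}

theorem meromorphic_form (a b : ℤ) {H : ℂ → ℂ} (hH : Differentiable ℂ H) :
    Meromorphic fun s : ℂ => riemannZeta s ^ a * riemannZeta (s + 1 / 4) ^ b * Complex.exp (H s) := by
  intro s
  have h1 : MeromorphicAt (fun s : ℂ => riemannZeta (s + 1 / 4)) s :=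
    (zeta_mero (s + 1 / 4)).comp_analyticAt (g := fun s : ℂ => s + 1 / 4) (by fun_prop)
  have h2 : AnalyticAt ℂ (fun s => Complex.exp (H s)) s :=
    (hH.differentiableOn.analyticAt (s := Set.univ) Filter.univ_mem).cexp
  exact (((zeta_mero s).zpow a).mul (h1.zpow b)).mul h2.meromorphicAt

theorem continues_of_form {π : GSys n} {m : Wt n →₀ ℤ} {a b : ℤ} {H : ℂ → ℂ}
    (hH : Differentiable ℂ H)
    (hp : ∀ s : ℂ, 1 < s.re → HasProd (fun p : Pr => (π p).factor m (((p : ℕ) : ℂ) ^ (-s)))
      (riemannZeta s ^ a * riemannZeta (s + 1 / 4) ^ b * Complex.exp (H s))) : Continues π m := by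
  refine ⟨∅, 1, _, meromorphic_form a b hH, fun s hs => ?_⟩
  exact ((Equiv.subtypeUnivEquiv fun p : Pr => Finset.notMem_empty p).hasProd_iff).2 (hp s hs)

/-- The orders on the line. -/
theorem poleOrder_of_formC {π : GSys n} {m : Wt n →₀ ℤ} {a b : ℤ} {H : ℂ → ℂ}
    (hH : Differentiable ℂ H)
    (hp : ∀ s : ℂ, 1 < s.re → HasProd (fun p : Pr => (π p).factor m (((p : ℕ) : ℂ) ^ (-s)))
      (riemannZeta s ^ a * riemannZeta (s + 1 / 4) ^ b * Complex.exp (H s))) (t : ℝ) :
    PoleOrder π m (pt t) (if t = 0 then a else 0) := by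
  have hE : AnalyticAt ℂ (fun s => Complex.exp (H s)) (pt t) :=
    (hH.differentiableOn.analyticAt (s := Set.univ) Filter.univ_mem).cexp
  have hE0 : meromorphicOrderAt (fun s => Complex.exp (H s)) (pt t) = 0 := by
    rw [hE.meromorphicOrderAt_eq, hE.analyticOrderAt_eq_zero.2 (Complex.exp_ne_zero _)]
    rfl
  have hz := zeta_mero (pt t)
  have hzo : meromorphicOrderAt riemannZeta (pt t) = (((if t = 0 then -1 else 0 : ℤ)) : WithTop ℤ) := by
    by_cases ht : t = 0
    · subst ht
      rw [if_pos rfl, pt_zero']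
      exact zeta_pole.2
    · rw [if_neg ht]
      have han : AnalyticAt ℂ riemannZeta (pt t) := by
        refine DifferentiableOn.analyticAt (s := {1}ᶜ) ?_
          (isOpen_compl_singleton.mem_nhds (pt_ne_one ht))
        intro z hz
        exact (differentiableAt_riemannZeta hz).differentiableWithinAt
      have hne : riemannZeta (pt t) ≠ 0 := by
        refine riemannZeta_ne_zero_of_one_le_re ?_
        unfold pt
        simp
      rw [han.meromorphicOrderAt_eq, han.analyticOrderAt_eq_zero.2 hne]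
      rfl
  have hre : (pt t + 1 / 4).re = 5 / 4 := by
    unfold pt
    simp
    norm_num
  have hne1 : pt t + 1 / 4 ≠ 1 := by
    intro h
    rw [h, Complex.one_re] at hre
    norm_num at hre
  have hs1 : AnalyticAt ℂ (fun s : ℂ => riemannZeta (s + 1 / 4)) (pt t) := by
    have han : AnalyticAt ℂ riemannZeta (pt t + 1 / 4) := by
      refine DifferentiableOn.analyticAt (s := {1}ᶜ) ?_ (isOpen_compl_singleton.mem_nhds hne1)
      intro z hz
      exact (differentiableAt_riemannZeta hz).differentiableWithinAt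
    exact han.fun_comp (f := fun s : ℂ => s + 1 / 4) (by fun_prop)
  have hs0 : meromorphicOrderAt (fun s : ℂ => riemannZeta (s + 1 / 4)) (pt t) = 0 := by
    have hne : riemannZeta (pt t + 1 / 4) ≠ 0 := by
      refine riemannZeta_ne_zero_of_one_le_re ?_
      rw [hre]
      norm_num
    rw [hs1.meromorphicOrderAt_eq, hs1.analyticOrderAt_eq_zero.2 hne]
    rfl
  have hsm : MeromorphicAt (fun s : ℂ => riemannZeta (s + 1 / 4)) (pt t) := hs1.meromorphicAt
  refine ⟨fun s => riemannZeta s ^ a * riemannZeta (s + 1 / 4) ^ b * Complex.exp (H s),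
    meromorphic_form a b hH _, ?_, ?_⟩
  · have h1 : meromorphicOrderAt (fun s => riemannZeta s ^ a * riemannZeta (s + 1 / 4) ^ b *
        Complex.exp (H s)) (pt t) =
        meromorphicOrderAt (riemannZeta ^ a) (pt t) +
          meromorphicOrderAt ((fun s : ℂ => riemannZeta (s + 1 / 4)) ^ b) (pt t) +
          meromorphicOrderAt (fun s => Complex.exp (H s)) (pt t) := by
      rw [← meromorphicOrderAt_mul (hz.zpow a) (hsm.zpow b),
        ← meromorphicOrderAt_mul ((hz.zpow a).mul (hsm.zpow b)) hE.meromorphicAt]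
      rfl
    rw [h1, hE0, add_zero, meromorphicOrderAt_zpow hz, meromorphicOrderAt_zpow hsm, hs0, hzo,
      mul_zero, add_zero]
    by_cases ht : t = 0
    · rw [if_pos ht, if_pos ht, ← WithTop.coe_mul]
      congr 1
      simp
    · rw [if_neg ht, if_neg ht, ← WithTop.coe_mul]
      congr 1
      simp
  · unfold IsL
    filter_upwards [self_mem_nhdsWithin] with s hs
    exact hp s hs

end Pool.Agent.EEAC
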