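import Pool.Agent.W_eea520_c.L8a

set_option autoImplicit false

namespace Pool.Agent.EEAC

open Filter Topology

/-- One step of the recursion. -/
noncomputable def L8_step (T : ℕ → ℝ) (x : ℝ × ℕ) : ℝ × ℕ :=
  (x.1 + dl x.2 x.1, if T (x.2 + 1) ≤ x.1 + dl x.2 x.1 then x.2 + 1 else x.2)

/-- The sequence of the parameters. -/
noncomputable def L8_st (T : ℕ → ℝ) : ℕ → ℝ × ℕ
  | 0 => (T 1000, 1000)
  | b + 1 => L8_step T (L8_st T b)

theorem L8_bound (V : ℕ → ℝ) (A : ℝ) (m : ℕ) : ∃ T : ℝ, 1000 ≤ m → ∀ u : ℝ, T ≤ u →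
    V m ≤ u ∧ (1 ≤ u ∧ 1 ≤ dl m u ∧ dl m u ≤ u / m ∧ 4 * A * (m * Jf m u) ≤ Real.exp (u / 100) ∧
    ∀ m' : ℕ, (m' = m ∨ m' = m + 1) →
      (Jf m u : ℝ) ≤ 2 * Jf m' (u + dl m u) ∧ 0 < Jf m' (u + dl m u) ∧
      (4 * Real.exp ((2 * m + 1) / 100)) ^ Jf m' (u + dl m u) ≤
        Real.exp (9 / 100 * (u + dl m u))) ∧
    ∀ m' : ℕ, (m' = m ∨ m' = m + 1) →
      4 * A * (m * Jf m u) *
        (max 1 (2 * dl m u / dl m' (u + dl m u))) ^ Jf m' (u + dl m u) ≤
      Real.exp ((u + dl m u) / 10) := by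
  by_cases hm : 1000 ≤ m
  · obtain ⟨U1, h1⟩ := stage_num hm A
    obtain ⟨U2, h2⟩ := stage_ratio hm A
    refine ⟨max (V m) (max U1 U2), fun _ u hu => ?_⟩
    have h3 := (le_max_left _ _).trans hu
    have h4 := (le_max_right _ _).trans hu
    exact ⟨h3, h1 u ((le_max_left _ _).trans h4), h2 u ((le_max_right _ _).trans h4)⟩
  · exact ⟨0, fun h => absurd h hm⟩

/-- THE PARAMETERS. Let `T m` (`m ≥ 1000`) be the maximum of `V m` and of the bounds `U` of `stage_num` and
`stage_ratio`. Define by recursion `(u 0, m 0) = (T 1000, 1000)` and, with `u (b + 1) = u b + dl (m b) (u b)`,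
`m (b + 1) = m b + 1` if `T (m b + 1) ≤ u (b + 1)` and `m (b + 1) = m b` otherwise. By induction `1000 ≤ m b` and
`T (m b) ≤ u b`. As `u b → ∞`, `m` is not bounded. The last statement: `(u (b + 1) - u b) / u b ≤ 1 / m b`. -/
theorem params (V : ℕ → ℝ) (A : ℝ) : ∃ (u : ℕ → ℝ) (m : ℕ → ℕ), (∀ b, 1000 ≤ m b) ∧
    (∀ b, V (m b) ≤ u b) ∧ (∀ b, 1 ≤ u b) ∧ (∀ b, u (b + 1) = u b + dl (m b) (u b)) ∧
    (∀ b, u b + 1 ≤ u (b + 1)) ∧ Monotone m ∧ Tendsto m atTop atTop ∧
    (∀ b, 4 * A * (m b * Jf (m b) (u b)) *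
      (max 1 (2 * dl (m b) (u b) / dl (m (b + 1)) (u (b + 1)))) ^ Jf (m (b + 1)) (u (b + 1)) ≤
        Real.exp (u (b + 1) / 10)) ∧
    (∀ b, 4 * A * (m b * Jf (m b) (u b)) ≤ Real.exp (u b / 2)) ∧
    (∀ K : ℝ, 0 < K → ∀ᶠ b in atTop, (K * (u (b + 2) - u b)) ^ Jf (m (b + 1)) (u (b + 1)) ≤
      (Jf (m (b + 1)) (u (b + 1))).factorial * Real.exp (-(K * u (b + 2)))) ∧
    Tendsto (fun b => (u (b + 1) - u b) / u b) atTop (𝓝 0) := by
  choose T hT using L8_bound V A
  obtain ⟨u, hu⟩ : ∃ u : ℕ → ℝ, u = fun b => (L8_st T b).1 := ⟨_, rfl⟩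
  obtain ⟨m, hm⟩ : ∃ m : ℕ → ℕ, m = fun b => (L8_st T b).2 := ⟨_, rfl⟩
  have hu0 : u 0 = T 1000 := by rw [hu]; rfl
  have hm0 : m 0 = 1000 := by rw [hm]; rfl
  have hus : ∀ b, u (b + 1) = u b + dl (m b) (u b) := by
    intro b
    rw [hu, hm]
    rfl
  have hms : ∀ b, m (b + 1) = if T (m b + 1) ≤ u (b + 1) then m b + 1 else m b := by
    intro b
    rw [hus, hu, hm]
    rfl
  have hor : ∀ b, m (b + 1) = m b ∨ m (b + 1) = m b + 1 := by
    intro b
    rw [hms]
    split_ifs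
    · exact Or.inr rfl
    · exact Or.inl rfl
  have hinv : ∀ b, 1000 ≤ m b ∧ T (m b) ≤ u b := by
    intro b
    induction b with
    | zero => rw [hm0, hu0]; exact ⟨le_rfl, le_rfl⟩
    | succ b ih =>
      have h1 := (hT (m b) ih.1 (u b) ih.2).2.1.2.1
      by_cases h2 : T (m b + 1) ≤ u (b + 1)
      · rw [hms, if_pos h2]
        exact ⟨by omega, h2⟩
      · rw [hms, if_neg h2]
        refine ⟨ih.1, ?_⟩
        rw [hus]
        linarith [ih.2]
  have hmain := fun b => hT (m b) (hinv b).1 (u b) (hinv b).2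
  have h1u : ∀ b, 1 ≤ u b := fun b => (hmain b).2.1.1
  have hstep : ∀ b, u b + 1 ≤ u (b + 1) := by
    intro b
    rw [hus]
    linarith [(hmain b).2.1.2.1]
  have hmono : Monotone m := monotone_nat_of_le_succ fun b => by
    rcases hor b with h | h <;> omega
  have hlin : ∀ b : ℕ, (b : ℝ) ≤ u b := by
    intro b
    induction b with
    | zero =>
      have := h1u 0
      push_cast
      linarith
    | succ b ih =>
      have := hstep b
      push_cast
      linarith
  have humono : Monotone u := monotone_nat_of_le_succ fun b => by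
    have := hstep b
    linarith
  have hunb : ∀ N : ℕ, ∃ b, N ≤ m b := by
    intro N
    induction N with
    | zero => exact ⟨0, Nat.zero_le _⟩
    | succ N ih =>
      obtain ⟨b, hb⟩ := ih
      obtain ⟨c, hc⟩ := exists_nat_ge (T (N + 1))
      by_cases h1 : N + 1 ≤ m (max b c)
      · exact ⟨_, h1⟩
      · have h2 : m (max b c) = N := by
          have := hmono (le_max_left b c)
          omega
        refine ⟨max b c + 1, ?_⟩
        have h3 : T (N + 1) ≤ u (max b c + 1) := by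
          have h4 := humono ((le_max_right b c).trans (Nat.le_succ _))
          have h5 := hlin c
          linarith
        rw [hms, h2, if_pos h3]
  have htop : Tendsto m atTop atTop := tendsto_atTop_atTop_of_monotone hmono hunb
  refine ⟨u, m, fun b => (hinv b).1, fun b => (hmain b).1, h1u, hus, hstep, hmono, htop, ?_, ?_,
    ?_, ?_⟩
  · intro b
    have h1 := (hmain b).2.2 (m (b + 1)) (hor b)
    rw [← hus] at h1
    exact h1
  · intro b
    refine (hmain b).2.1.2.2.2.1.trans (Real.exp_le_exp.2 ?_)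
    linarith [h1u b]
  · intro K hK
    obtain ⟨M, hM⟩ := stage_fact K hK
    filter_upwards [htop.eventually_ge_atTop M] with b hb
    obtain ⟨-, ⟨-, -, -, -, h5⟩, -⟩ := hmain b
    obtain ⟨h6, h7, -⟩ := h5 (m (b + 1)) (hor b)
    have h8 : dl (m (b + 1)) (u (b + 1)) ≤ u (b + 1) := by
      refine (hmain (b + 1)).2.1.2.2.1.trans ?_
      have h9 : (1 : ℝ) ≤ m (b + 1) := by
        have := (hinv (b + 1)).1
        exact_mod_cast (by omega : 1 ≤ m (b + 1))
      exact div_le_self (by linarith [h1u (b + 1)]) h9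
    have h10 := hM (m b) (m (b + 1)) (u b) hb (hinv b).1 (h1u b) (hor b) h6 h7
      (by rw [← hus]; exact h8)
    have h11 : u (b + 2) - u b = dl (m b) (u b) + dl (m (b + 1)) (u (b + 1)) := by
      rw [hus (b + 1), hus b]
      ring
    have h12 : u (b + 2) = u b + dl (m b) (u b) + dl (m (b + 1)) (u (b + 1)) := by
      rw [hus (b + 1), ← hus b]
    rw [h11, h12]
    rw [← hus] at h10
    rw [← hus]
    exact h10
  · have h1 : Tendsto (fun b => 1 / (m b : ℝ)) atTop (𝓝 0) :=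
      tendsto_one_div_atTop_nhds_zero_nat.comp htop
    refine squeeze_zero (fun b => ?_) (fun b => ?_) h1
    · have h2 := hstep b
      have h3 := h1u b
      exact div_nonneg (by linarith) (by linarith)
    · have h2 := (hmain b).2.1.2.2.1
      have h3 := h1u b
      have h4 : u (b + 1) - u b = dl (m b) (u b) := by
        rw [hus]
        ring
      rw [h4, div_le_iff₀ (by linarith)]
      refine h2.trans (le_of_eq ?_)
      ring

end Pool.Agent.EEAC
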