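import Pool.Agent.W_eea520_c.L9a

set_option autoImplicit false

namespace Pool.Agent.EEAC

open Filter Topology

theorem L9_mono {u : ℕ → ℝ} (hu : ∀ b, u b + 1 ≤ u (b + 1)) (b : ℕ) : u 0 + b ≤ u b := by
  induction b with
  | zero => simp
  | succ b ih =>
    have := hu b
    push_cast
    linarith

theorem L9_top {u : ℕ → ℝ} (hu : ∀ b, u b + 1 ≤ u (b + 1)) : Tendsto u atTop atTop :=
  tendsto_atTop_mono (L9_mono hu)
    (tendsto_atTop_add_const_left _ _ tendsto_natCast_atTop_atTop)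

theorem L9_Psi_le {u' d : ℝ} (hd : 0 ≤ d) {J : ℕ} {E : ℕ → ℝ}
    (hE : ∀ j, |E j| ≤ Real.exp (u' / 2) * d ^ j) (s : ℂ) :
    ‖Psi u' J E s‖ ≤ Real.exp (-(s.re * u') + u' / 2 + ‖s‖ * d) := by
  unfold Psi
  rw [norm_mul, Complex.norm_exp]
  have h1 : (-(s * (u' : ℂ))).re = -(s.re * u') := by simp
  rw [h1, Real.exp_add, Real.exp_add, mul_assoc]
  refine mul_le_mul_of_nonneg_left ?_ (Real.exp_pos _).le
  have h2 : ‖∑ j ∈ Finset.range J, (-s) ^ j / (j.factorial : ℂ) * (E j : ℂ)‖ ≤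
      ∑ j ∈ Finset.range J, Real.exp (u' / 2) * ((‖s‖ * d) ^ j / j.factorial) := by
    refine (norm_sum_le _ _).trans (Finset.sum_le_sum fun j _ => ?_)
    rw [norm_mul, norm_div, norm_pow, norm_neg, Complex.norm_natCast, Complex.norm_real,
      Real.norm_eq_abs]
    have h3 := mul_le_mul_of_nonneg_left (hE j)
      (show 0 ≤ ‖s‖ ^ j / (j.factorial : ℝ) by positivity)
    refine h3.trans (le_of_eq ?_)
    rw [mul_pow]
    ring
  refine h2.trans ?_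
  rw [← Finset.mul_sum]
  exact mul_le_mul_of_nonneg_left (Real.sum_le_exp_of_nonneg (by positivity) J)
    (Real.exp_pos _).le

theorem L9_Psi_diff (u' : ℝ) (J : ℕ) (E : ℕ → ℝ) : Differentiable ℂ (Psi u' J E) := by
  unfold Psi
  fun_prop

theorem L9_blk_diff (a : ℕ → ℝ) {m n : ℕ} (hm : 1 ≤ m) :
    Differentiable ℂ fun s : ℂ => ∑ N ∈ Finset.Ico m n, (a N : ℂ) * (N : ℂ) ^ (-s) := by
  intro s
  refine DifferentiableAt.fun_sum fun N hN => ?_
  have hN0 : (N : ℂ) ≠ 0 := by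
    rw [Finset.mem_Ico] at hN
    exact_mod_cast (by omega : N ≠ 0)
  exact (differentiableAt_const _).mul (differentiableAt_id.neg.const_cpow (Or.inl hN0))

theorem L9_one_le (x : ℝ) : 1 ≤ ⌈Real.exp x⌉₊ := Nat.one_le_iff_ne_zero.2 (by
  rw [Ne, Nat.ceil_eq_zero, not_le]
  exact Real.exp_pos x)

theorem L9_sum {u : ℕ → ℝ} (hu : ∀ b, u b + 1 ≤ u (b + 1)) (T : ℕ → ℂ) (b₀ B : ℕ) :
    ∑ N ∈ Finset.Ico 1 ⌈Real.exp (u (b₀ + 1 + B))⌉₊, T N =
      ∑ N ∈ Finset.Ico 1 ⌈Real.exp (u (b₀ + 1))⌉₊, T N +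
        ∑ i ∈ Finset.range B, ∑ N ∈ bl (u (b₀ + i + 1)) (u (b₀ + i + 2)), T N := by
  induction B with
  | zero => simp
  | succ B ih =>
    have h3 : ∑ N ∈ Finset.Ico 1 ⌈Real.exp (u (b₀ + 1 + (B + 1)))⌉₊, T N =
        ∑ N ∈ Finset.Ico 1 ⌈Real.exp (u (b₀ + 1 + B))⌉₊, T N +
          ∑ N ∈ bl (u (b₀ + B + 1)) (u (b₀ + B + 2)), T N := by
      have h1 : b₀ + 1 + (B + 1) = b₀ + B + 2 := by ring
      have h2 : b₀ + 1 + B = b₀ + B + 1 := by ring
      rw [h1, h2]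
      unfold bl
      rw [Finset.sum_Ico_consecutive _ (L9_one_le _)]
      refine Nat.ceil_le_ceil (Real.exp_le_exp.2 ?_)
      have := hu (b₀ + B + 1)
      linarith
    rw [Finset.sum_range_succ, h3, ih, add_assoc]

theorem L9_term (a : ℕ → ℝ) (s : ℂ) (n : ℕ) :
    ∑ N ∈ Finset.range n, LSeries.term (fun N => (a N : ℂ)) s N =
      ∑ N ∈ Finset.Ico 1 n, (a N : ℂ) * (N : ℂ) ^ (-s) := by
  have h1 : ∑ N ∈ Finset.Ico 1 n, (a N : ℂ) * (N : ℂ) ^ (-s) =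
      ∑ N ∈ Finset.Ico 1 n, LSeries.term (fun N => (a N : ℂ)) s N := by
    refine Finset.sum_congr rfl fun N hN => ?_
    rw [Finset.mem_Ico] at hN
    rw [LSeries.term_of_ne_zero (by omega), Complex.cpow_neg, div_eq_mul_inv]
  rw [h1]
  symm
  refine Finset.sum_subset (fun N hN => ?_) fun N hN hN' => ?_
  · rw [Finset.mem_Ico] at hN
    rw [Finset.mem_range]
    omega
  · rw [Finset.mem_range] at hN
    rw [Finset.mem_Ico] at hN'
    have : N = 0 := by omega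
    rw [this, LSeries.term_zero]

/-- `|Psi| ≤ exp (-σ u) ∑ |s| ^ j / j ! exp (u / 2) δ ^ j ≤ exp ((1 / 2 - σ) u + |s| δ)`, `δ = u (b + 1) - u b = o (u b)`. -/
theorem Psi_tendsto {u : ℕ → ℝ} (hu : ∀ b, u b + 1 ≤ u (b + 1)) {J : ℕ → ℕ} {E : ℕ → ℕ → ℝ} {b₀ : ℕ}
    (hE : ∀ b, b₀ ≤ b → ∀ j, |E b j| ≤ Real.exp (u b / 2) * (u (b + 1) - u b) ^ j)
    (hδ : Tendsto (fun b => (u (b + 1) - u b) / u b) atTop (𝓝 0)) {s : ℂ} (hs : 1 < s.re) :
    Tendsto (fun b => Psi (u b) (J b) (E b) s) atTop (𝓝 0) := by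
  have htop := L9_top hu
  have h1 : Tendsto (fun b => ‖s‖ * ((u (b + 1) - u b) / u b)) atTop (𝓝 0) := by
    have := hδ.const_mul ‖s‖
    rwa [mul_zero] at this
  have h2 : ∀ᶠ b in atTop, ‖s‖ * ((u (b + 1) - u b) / u b) ≤ 1 / 4 :=
    (h1.eventually_lt_const (by norm_num : (0 : ℝ) < 1 / 4)).mono fun b hb => hb.le
  have h3 : Tendsto (fun b => Real.exp (-(u b / 4))) atTop (𝓝 0) := by
    refine Real.tendsto_exp_neg_atTop_nhds_zero.comp ?_
    exact htop.atTop_div_const (by norm_num)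
  refine squeeze_zero_norm' ?_ h3
  filter_upwards [h2, htop.eventually_gt_atTop 0, eventually_ge_atTop b₀] with b hb hb0 hbb
  have hd : 0 ≤ u (b + 1) - u b := by
    have := hu b
    linarith
  refine (L9_Psi_le hd (hE b hbb) s).trans (Real.exp_le_exp.2 ?_)
  have h4 : ‖s‖ * (u (b + 1) - u b) ≤ 1 / 4 * u b := by
    have h5 : ‖s‖ * ((u (b + 1) - u b) / u b) = ‖s‖ * (u (b + 1) - u b) / u b := by ring
    rw [h5, div_le_iff₀ hb0] at hb
    exact hb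
  have h6 : u b ≤ s.re * u b := by nlinarith
  linarith

/-- Let `B b s = ∑_{N ∈ bl (u b) (u (b + 1))} a N * N ^ (-s)` and
`ε b s = B (b + 1) s - Psi (b + 1) s + Psi b s`. By `eps_bound` (with `K` and `K' = 3 K + 2`; `hs`) for every
`K ≥ 1` there is `b₁` with `|ε b s| ≤ (2 A + 1) exp (-u (b + 2))` for `b ≥ b₁`, `|s| ≤ K`; `u b ≥ u 0 + b`. So
`∑_{b ≥ b₀} ε b s` is entire (`differentiableOn_tsum_of_summable_norm` on balls), and
`H s = ∑_{0 < N < exp (u (b₀ + 1))} a N N ^ (-s) - Psi b₀ s + ∑_{b ≥ b₀} ε b s`. For `Re s > 1` the partial sums of the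
Dirichlet series up to `exp (u (B + 1))` are `P + ∑_{b₀ ≤ b < B} B (b + 1) s = P + ∑ ε b s + Psi B s - Psi b₀ s` and
`Psi B s → 0` (`Finset.sum_Ico_consecutive`; `HasSum.tendsto_sum_nat` along `⌈exp (u (B + 1))⌉₊ → ∞`; `N = 0`: the term of
`LSeries` at `0` is `0` by definition). -/
theorem entire_of_blocks {a : ℕ → ℝ} {A : ℝ} (hA : 0 ≤ A) (ha : ∀ N, |a N| ≤ A) {u : ℕ → ℝ}
    (hu0 : 0 ≤ u 0) (hu : ∀ b, u b + 1 ≤ u (b + 1)) {J : ℕ → ℕ} {E : ℕ → ℕ → ℝ} {b₀ : ℕ}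
    (hE : ∀ b, b₀ ≤ b → ∀ j, |E b j| ≤ Real.exp (u b / 2) * (u (b + 1) - u b) ^ j)
    (hz : ∀ b, b₀ ≤ b → ∀ j, J b ≤ j → E b j = 0)
    (hM : ∀ b, b₀ ≤ b → ∀ j < J (b + 1),
      ∑ N ∈ bl (u (b + 1)) (u (b + 2)), a N * (Real.log N - u (b + 1)) ^ j =
        E (b + 1) j - Rec (u (b + 1) - u b) (E b) j)
    (hs : ∀ K : ℝ, 0 < K → ∀ᶠ b in atTop, (K * (u (b + 2) - u b)) ^ J (b + 1) ≤
      (J (b + 1)).factorial * Real.exp (-(K * u (b + 2))))
    (hδ : Tendsto (fun b => (u (b + 1) - u b) / u b) atTop (𝓝 0)) :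
    ∃ H : ℂ → ℂ, Differentiable ℂ H ∧
      ∀ s : ℂ, 1 < s.re → LSeries (fun N => (a N : ℂ)) s = H s := by
  have htop := L9_top hu
  set ε : ℕ → ℂ → ℂ := fun b s =>
    (∑ N ∈ bl (u (b + 1)) (u (b + 2)), (a N : ℂ) * (N : ℂ) ^ (-s)) -
      Psi (u (b + 1)) (J (b + 1)) (E (b + 1)) s + Psi (u b) (J b) (E b) s with hε
  have hεd : ∀ b, Differentiable ℂ (ε b) := by
    intro b
    exact ((L9_blk_diff a (L9_one_le _)).sub (L9_Psi_diff _ _ _)).add (L9_Psi_diff _ _ _)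
  have hub : ∀ b, 0 ≤ u b := by
    intro b
    have := L9_mono hu b
    have h0 : (0 : ℝ) ≤ b := Nat.cast_nonneg b
    linarith
  -- the bound
  have hbound : ∀ K : ℝ, 1 ≤ K → ∃ v : ℕ → ℝ, Summable v ∧
      ∀ i, ∀ s : ℂ, ‖s‖ ≤ K → ‖ε (b₀ + i) s‖ ≤ v i := by
    intro K hK
    obtain ⟨b₁, hb₁⟩ := eventually_atTop.1 (hs (3 * K + 2) (by linarith))
    have h1 : ∀ i, ∃ M : ℝ, ∀ s ∈ Metric.closedBall (0 : ℂ) K, ‖ε (b₀ + i) s‖ ≤ M := by
      intro i
      exact (isCompact_closedBall (0 : ℂ) K).exists_bound_of_continuousOn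
        (hεd (b₀ + i)).continuous.continuousOn
    choose M hM' using h1
    refine ⟨fun i => if i < b₁ then M i else (2 * A + 1) * Real.exp (-u (b₀ + i + 2)), ?_, ?_⟩
    · rw [← summable_nat_add_iff b₁]
      have h2 : (fun i : ℕ => if i + b₁ < b₁ then M (i + b₁) else
          (2 * A + 1) * Real.exp (-u (b₀ + (i + b₁) + 2))) =
          fun i : ℕ => (2 * A + 1) * Real.exp (-u (b₀ + (i + b₁) + 2)) := by
        funext i
        rw [if_neg (by omega)]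
      rw [h2]
      refine Summable.mul_left _ ?_
      have h3 : Summable fun i : ℕ => Real.exp (-(i : ℝ)) := Real.summable_exp_neg_nat
      refine Summable.of_nonneg_of_le (fun i => (Real.exp_pos _).le) (fun i => ?_) h3
      refine Real.exp_le_exp.2 ?_
      have h4 := L9_mono hu (b₀ + (i + b₁) + 2)
      push_cast at h4
      have h5 : (0 : ℝ) ≤ b₀ := Nat.cast_nonneg b₀
      have h6 : (0 : ℝ) ≤ b₁ := Nat.cast_nonneg b₁
      linarith
    · intro i s hsK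
      by_cases hi : i < b₁
      · simp only [hi, if_true]
        exact hM' i s (by rw [mem_closedBall_zero_iff]; exact hsK)
      · simp only [hi, if_false]
        have hb := hb₁ (b₀ + i) (by omega)
        have h7 := hu (b₀ + i)
        have h8 := hu (b₀ + i + 1)
        exact eps_bound hA ha (hub (b₀ + i)) (by linarith) (by linarith)
          (hE (b₀ + i) (by omega)) (hz (b₀ + i) (by omega)) (hM (b₀ + i) (by omega)) hK le_rfl hb hsK
  have hsum : ∀ s : ℂ, Summable fun i => ε (b₀ + i) s := by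
    intro s
    obtain ⟨v, hv, hv'⟩ := hbound (‖s‖ + 1) (by linarith [norm_nonneg s])
    exact Summable.of_norm_bounded hv fun i => hv' i s (by linarith)
  have hdiff : Differentiable ℂ fun s => ∑' i, ε (b₀ + i) s := by
    intro s
    obtain ⟨v, hv, hv'⟩ := hbound (‖s‖ + 1) (by linarith [norm_nonneg s])
    have h1 : DifferentiableOn ℂ (fun s => ∑' i, ε (b₀ + i) s) (Metric.ball 0 (‖s‖ + 1)) := by
      refine Complex.differentiableOn_tsum_of_summable_norm hv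
        (fun i => (hεd (b₀ + i)).differentiableOn) Metric.isOpen_ball fun i w hw => ?_
      rw [mem_ball_zero_iff] at hw
      exact hv' i w hw.le
    refine h1.differentiableAt (Metric.isOpen_ball.mem_nhds ?_)
    rw [mem_ball_zero_iff]
    linarith
  refine ⟨fun s => (∑ N ∈ Finset.Ico 1 ⌈Real.exp (u (b₀ + 1))⌉₊, (a N : ℂ) * (N : ℂ) ^ (-s)) -
    Psi (u b₀) (J b₀) (E b₀) s + ∑' i, ε (b₀ + i) s, ?_, fun s hs1 => ?_⟩
  · exact ((L9_blk_diff a le_rfl).sub (L9_Psi_diff _ _ _)).add hdiff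
  · have hL : LSeriesSummable (fun N => (a N : ℂ)) s := by
      refine LSeriesSummable_of_bounded_of_one_lt_re (m := A) (fun N _ => ?_) hs1
      rw [Complex.norm_real, Real.norm_eq_abs]
      exact ha N
    have h1 : Tendsto (fun n => ∑ N ∈ Finset.range n, LSeries.term (fun N => (a N : ℂ)) s N) atTop
        (𝓝 (LSeries (fun N => (a N : ℂ)) s)) := hL.hasSum.tendsto_sum_nat
    have hc : Tendsto (fun B : ℕ => ⌈Real.exp (u (b₀ + 1 + B))⌉₊) atTop atTop := by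
      refine tendsto_nat_ceil_atTop.comp (Real.tendsto_exp_atTop.comp (htop.comp ?_))
      exact tendsto_atTop_mono (fun B => Nat.le_add_left B (b₀ + 1)) tendsto_id
    have h2 := h1.comp hc
    have h3 : (fun n => ∑ N ∈ Finset.range n, LSeries.term (fun N => (a N : ℂ)) s N) ∘
        (fun B : ℕ => ⌈Real.exp (u (b₀ + 1 + B))⌉₊) = fun B : ℕ =>
        (∑ N ∈ Finset.Ico 1 ⌈Real.exp (u (b₀ + 1))⌉₊, (a N : ℂ) * (N : ℂ) ^ (-s)) -
          Psi (u b₀) (J b₀) (E b₀) s + ∑ i ∈ Finset.range B, ε (b₀ + i) s +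
            Psi (u (B + b₀)) (J (B + b₀)) (E (B + b₀)) s := by
      funext B
      rw [Function.comp_apply, L9_term, L9_sum hu (fun N => (a N : ℂ) * (N : ℂ) ^ (-s))]
      have h4 : ∑ i ∈ Finset.range B, ε (b₀ + i) s =
          ∑ i ∈ Finset.range B, ∑ N ∈ bl (u (b₀ + i + 1)) (u (b₀ + i + 2)),
            (a N : ℂ) * (N : ℂ) ^ (-s) -
          ∑ i ∈ Finset.range B, (Psi (u (b₀ + (i + 1))) (J (b₀ + (i + 1))) (E (b₀ + (i + 1))) s -
            Psi (u (b₀ + i)) (J (b₀ + i)) (E (b₀ + i)) s) := by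
        rw [← Finset.sum_sub_distrib]
        refine Finset.sum_congr rfl fun i _ => ?_
        show (∑ N ∈ bl (u (b₀ + i + 1)) (u (b₀ + i + 2)), (a N : ℂ) * (N : ℂ) ^ (-s)) -
          Psi (u (b₀ + i + 1)) (J (b₀ + i + 1)) (E (b₀ + i + 1)) s +
            Psi (u (b₀ + i)) (J (b₀ + i)) (E (b₀ + i)) s = _
        rw [← add_assoc b₀ i 1]
        ring
      rw [h4, Finset.sum_range_sub (fun i => Psi (u (b₀ + i)) (J (b₀ + i)) (E (b₀ + i)) s),
        add_zero, add_comm B b₀]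
      ring
    rw [h3] at h2
    have h5 := ((hsum s).hasSum.tendsto_sum_nat.const_add
      ((∑ N ∈ Finset.Ico 1 ⌈Real.exp (u (b₀ + 1))⌉₊, (a N : ℂ) * (N : ℂ) ^ (-s)) -
          Psi (u b₀) (J b₀) (E b₀) s)).add
      ((tendsto_add_atTop_iff_nat b₀).2 (Psi_tendsto (J := J) hu hE hδ hs1))
    rw [add_zero] at h5
    exact tendsto_nhds_unique h2 h5

end Pool.Agent.EEAC
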