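import Pool.Agent.W_eea520_c.L7
import Pool.Agent.W_eea520_c.L8
import Pool.Agent.W_eea520_c.L9

set_option autoImplicit false

namespace Pool.Agent.EEAC

open Filter Topology Pool.Agent.EEA520

theorem L10_av_congr {Q : Type} (f : ℕ → Q → ℝ) (C B : ℕ → ℝ) (G : ℕ → ℕ → Q → ℝ)
    {q q' : Pr → Q} {N : ℕ} (h : ∀ p : Pr, (p : ℕ) ≤ N → q p = q' p) (k : ℕ) :
    av f C B G q k N = av f C B G q' k N := by
  unfold av
  by_cases h1 : N.Prime
  · rw [dif_pos h1, dif_pos h1, h ⟨N, h1⟩ le_rfl]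
  · rw [dif_neg h1, dif_neg h1]
    by_cases h2 : IsPrimePow N
    · rw [dif_pos h2, dif_pos h2]
      rw [h ⟨N.minFac, _⟩ (Nat.minFac_le h2.pos)]
    · rw [dif_neg h2, dif_neg h2]

theorem L10_av_le {Q : Type} (f : ℕ → Q → ℝ) {A : ℝ} (hA : 0 ≤ A) (hf : ∀ k q, |f k q| ≤ A)
    (C B : ℕ → ℝ) (hC : ∀ k, |C k| ≤ A) (hB : ∀ k, |B k| ≤ A) (G : ℕ → ℕ → Q → ℝ)
    (hG : ∀ k N q, |G k N q| ≤ A) (q : Pr → Q) (k N : ℕ) : |av f C B G q k N| ≤ 4 * A := by
  unfold av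
  by_cases h1 : N.Prime
  · rw [dif_pos h1]
    have h2 : (1 : ℝ) ≤ N := by exact_mod_cast h1.one_lt.le
    have h3 : (N : ℝ) ^ (-(1 / 4) : ℝ) ≤ 1 := Real.rpow_le_one_of_one_le_of_nonpos h2 (by norm_num)
    have h4 : 0 ≤ (N : ℝ) ^ (-(1 / 4) : ℝ) := Real.rpow_nonneg (by linarith) _
    have h5 : |B k - C k| ≤ 2 * A := by
      have := abs_sub (B k) (C k)
      linarith [hB k, hC k]
    have h6 : |(N : ℝ) ^ (-(1 / 4) : ℝ) * (B k - C k)| ≤ 2 * A := by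
      rw [abs_mul, abs_of_nonneg h4]
      calc (N : ℝ) ^ (-(1 / 4) : ℝ) * |B k - C k| ≤ 1 * (2 * A) :=
            mul_le_mul h3 h5 (abs_nonneg _) zero_le_one
        _ = 2 * A := one_mul _
    have h7 := abs_sub (f k (q ⟨N, h1⟩) - C k) ((N : ℝ) ^ (-(1 / 4) : ℝ) * (B k - C k))
    have h8 := abs_sub (f k (q ⟨N, h1⟩)) (C k)
    linarith [hf k (q ⟨N, h1⟩), hC k]
  · rw [dif_neg h1]
    by_cases h2 : IsPrimePow N
    · rw [dif_pos h2]
      have := hG k N (q ⟨N.minFac, Nat.minFac_prime h2.ne_one⟩)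
      linarith
    · rw [dif_neg h2, abs_zero]
      linarith

theorem L10_u_ge {u : ℕ → ℝ} (hu0 : 0 ≤ u 0) (hu : ∀ b, u b + 1 ≤ u (b + 1)) (b : ℕ) :
    (b : ℝ) ≤ u b := by
  induction b with
  | zero => simpa using hu0
  | succ b ih =>
    have := hu b
    push_cast
    linarith

/-- The recursion. State at `b`: `(q b, E b)`. `q 0` is any function (`Q` is not empty by `hstep`'s first
argument `q₀`), `E 0 = 0`. Step: `hstep` gives `q (b + 1)`, and `E (b + 1) k j` is the expression in the absolute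
value for `k < m (b + 1)`, `j < J (b + 1)` and `0` otherwise. Let `q p = q b p` for `b = ⌈log p⌉₊` (then `log p < u (b + 1)`,
as `u b ≥ b`); by induction `q p = q b p` for all `b` with `log p < u (b + 1)`, so `av … q k N = av … (q (b + 1)) k N` for
`N < exp (u (b + 2))` (`minFac N ≤ N`). -/
theorem recursion {Q : Type} (q₀ : Q) (f : ℕ → Q → ℝ) (C B : ℕ → ℝ) (G : ℕ → ℕ → Q → ℝ)
    (u : ℕ → ℝ) (m J : ℕ → ℕ) (ρ : ℕ → ℝ) (hρ : ∀ b, 0 ≤ ρ b) (hu0 : 0 ≤ u 0)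
    (hu : ∀ b, u b + 1 ≤ u (b + 1))
    (hstep : ∀ (b : ℕ) (q : Pr → Q) (E : ℕ → ℕ → ℝ),
      (∀ k j, |E k j| ≤ ρ b * (u (b + 1) - u b) ^ j) →
      ∃ q' : Pr → Q, (∀ p : Pr, Real.log ((p : ℕ) : ℝ) < u (b + 1) → q' p = q p) ∧
        ∀ k < m (b + 1), ∀ j < J (b + 1),
          |∑ N ∈ bl (u (b + 1)) (u (b + 2)), av f C B G q' k N * (Real.log N - u (b + 1)) ^ j +
            Rec (u (b + 1) - u b) (E k) j| ≤ ρ (b + 1) * (u (b + 2) - u (b + 1)) ^ j) :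
    ∃ (q : Pr → Q) (E : ℕ → ℕ → ℕ → ℝ),
      (∀ b k j, |E b k j| ≤ ρ b * (u (b + 1) - u b) ^ j) ∧ (∀ b k j, J b ≤ j → E b k j = 0) ∧
      ∀ b, ∀ k < m (b + 1), ∀ j < J (b + 1),
        ∑ N ∈ bl (u (b + 1)) (u (b + 2)), av f C B G q k N * (Real.log N - u (b + 1)) ^ j =
          E (b + 1) k j - Rec (u (b + 1) - u b) (E b k) j := by
  let mot : ℕ → Type := fun b => {S : (Pr → Q) × (ℕ → ℕ → ℝ) //
    ∀ k j, |S.2 k j| ≤ ρ b * (u (b + 1) - u b) ^ j}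
  have hd : ∀ b, 0 ≤ u (b + 1) - u b := fun b => by linarith [hu b]
  have key : ∀ (b : ℕ) (S : mot b), ∃ S' : mot (b + 1),
      (∀ p : Pr, Real.log ((p : ℕ) : ℝ) < u (b + 1) → S'.1.1 p = S.1.1 p) ∧
      (∀ k < m (b + 1), ∀ j < J (b + 1),
        ∑ N ∈ bl (u (b + 1)) (u (b + 2)), av f C B G S'.1.1 k N * (Real.log N - u (b + 1)) ^ j =
          S'.1.2 k j - Rec (u (b + 1) - u b) (S.1.2 k) j) ∧
      (∀ k j, J (b + 1) ≤ j → S'.1.2 k j = 0) := by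
    rintro b ⟨⟨q, E⟩, hE⟩
    obtain ⟨q', h1, h2⟩ := hstep b q E hE
    refine ⟨⟨⟨q', fun k j => if k < m (b + 1) ∧ j < J (b + 1) then
      ∑ N ∈ bl (u (b + 1)) (u (b + 2)), av f C B G q' k N * (Real.log N - u (b + 1)) ^ j +
        Rec (u (b + 1) - u b) (E k) j else 0⟩, ?_⟩, h1, ?_, ?_⟩
    · intro k j
      show |(if k < m (b + 1) ∧ j < J (b + 1) then _ else (0 : ℝ))| ≤ _
      split_ifs with h3
      · exact h2 k h3.1 j h3.2
      · rw [abs_zero]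
        exact mul_nonneg (hρ _) (pow_nonneg (hd _) _)
    · intro k hk j hj
      show _ = (if k < m (b + 1) ∧ j < J (b + 1) then _ else (0 : ℝ)) - _
      rw [if_pos ⟨hk, hj⟩, add_sub_cancel_right]
    · intro k j hj
      show (if k < m (b + 1) ∧ j < J (b + 1) then _ else (0 : ℝ)) = 0
      rw [if_neg]
      rintro ⟨-, h3⟩
      exact absurd h3 (not_lt.2 hj)
  choose g hg using key
  let S0 : mot 0 := ⟨⟨fun _ => q₀, fun _ _ => 0⟩, fun k j => by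
    rw [abs_zero]
    exact mul_nonneg (hρ _) (pow_nonneg (hd _) _)⟩
  let F : ∀ b, mot b := fun b => Nat.rec S0 (fun b S => g b S) b
  have hF : ∀ b, F (b + 1) = g b (F b) := fun b => rfl
  have hF1 : ∀ b (p : Pr), Real.log ((p : ℕ) : ℝ) < u (b + 1) →
      (F (b + 1)).1.1 p = (F b).1.1 p := fun b p hp => by
    rw [hF]
    exact (hg b (F b)).1 p hp
  have hmono : Monotone u := monotone_nat_of_le_succ fun b => by linarith [hu b]
  have hF2 : ∀ (b i : ℕ) (p : Pr), Real.log ((p : ℕ) : ℝ) < u (b + 1) →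
      (F (b + i)).1.1 p = (F b).1.1 p := by
    intro b i p hp
    induction i with
    | zero => rfl
    | succ i ih =>
      rw [← ih]
      exact hF1 (b + i) p (lt_of_lt_of_le hp (hmono (by omega)))
  have hF3 : ∀ (b b' : ℕ) (p : Pr), Real.log ((p : ℕ) : ℝ) < u (b + 1) →
      Real.log ((p : ℕ) : ℝ) < u (b' + 1) → (F b').1.1 p = (F b).1.1 p := by
    intro b b' p hp hp'
    rcases le_total b b' with h | h
    · obtain ⟨i, rfl⟩ := Nat.exists_eq_add_of_le h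
      exact hF2 b i p hp
    · obtain ⟨i, rfl⟩ := Nat.exists_eq_add_of_le h
      exact (hF2 b' i p hp').symm
  have hq : ∀ (b : ℕ) (p : Pr), Real.log ((p : ℕ) : ℝ) < u (b + 1) →
      (F ⌈Real.log ((p : ℕ) : ℝ)⌉₊).1.1 p = (F b).1.1 p := by
    intro b p hp
    refine hF3 b _ p hp ?_
    have h1 := Nat.le_ceil (Real.log ((p : ℕ) : ℝ))
    have h2 := L10_u_ge hu0 hu ⌈Real.log ((p : ℕ) : ℝ)⌉₊
    have h3 := hu ⌈Real.log ((p : ℕ) : ℝ)⌉₊
    linarith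
  refine ⟨fun p => (F ⌈Real.log ((p : ℕ) : ℝ)⌉₊).1.1 p, fun b => (F b).1.2, fun b => (F b).2, ?_, ?_⟩
  · intro b k j hj
    cases b with
    | zero => rfl
    | succ b =>
      show (F (b + 1)).1.2 k j = 0
      rw [hF]
      exact (hg b (F b)).2.2 k j hj
  · intro b k hk j hj
    have h1 := (hg b (F b)).2.1 k hk j hj
    rw [← hF] at h1
    rw [← h1]
    refine Finset.sum_congr rfl fun N hN => ?_
    congr 1
    refine L10_av_congr f C B G (fun p hp => ?_) k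
    obtain ⟨h2, -, h4⟩ := mem_bl.1 hN
    refine hq (b + 1) p (lt_of_le_of_lt ?_ h4)
    exact Real.log_le_log (by exact_mod_cast p.2.pos) (by exact_mod_cast hp)

/-- THE CONSTRUCTION. For `m ≥ 1000` let `V m` be the `U` of `step` with the `c` of `hL2 m`, and let `u`, `m` be
the sequences of `params V A`. `step` for `d = dl (m b) (u b) = u (b + 1) - u b`, `ρ b = 4 A (m b * Jf (m b) (u b))` is
the hypothesis `hstep` of `recursion` (`J b = Jf (m b) (u b)`). For given `k` choose `b₀` with `k < m b` for `b ≥ b₀`, and use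
`entire_of_blocks` with the bound `4 A` for the coefficients. -/
theorem construct {Q : Type} (f : ℕ → Q → ℝ) {A : ℝ} (hf : ∀ k q, |f k q| ≤ A)
    (C B : ℕ → ℝ) (hC : ∀ k, |C k| ≤ A) (hB : ∀ k, |B k| ≤ A) (G : ℕ → ℕ → Q → ℝ)
    (hG : ∀ k N q, |G k N q| ≤ A)
    (hL1 : ∀ K : ℕ, ∃ ν : Q →₀ ℝ, IsProb ν ∧ ∀ k < K, (ν.sum fun q a => a * f k q) = C k)
    (hL2 : ∀ K : ℕ, ∃ c : ℝ, 0 < c ∧ ∀ y : ℕ → ℝ, (∀ k, |y k| ≤ c) →
      ∃ μ : Q →₀ ℝ, IsProb μ ∧ ∀ k < K, (μ.sum fun q a => a * f k q) = B k + y k) :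
    ∃ q : Pr → Q, ∀ k, ∃ H : ℂ → ℂ, Differentiable ℂ H ∧
      ∀ s : ℂ, 1 < s.re → LSeries (fun N => (av f C B G q k N : ℂ)) s = H s := by
  classical
  set A' : ℝ := max A 1 with hA'
  have hA1 : 1 ≤ A' := le_max_right _ _
  have hAA : A ≤ A' := le_max_left _ _
  have hf' : ∀ k q, |f k q| ≤ A' := fun k q => (hf k q).trans hAA
  have hC' : ∀ k, |C k| ≤ A' := fun k => (hC k).trans hAA
  have hB' : ∀ k, |B k| ≤ A' := fun k => (hB k).trans hAA
  have hG' : ∀ k N q, |G k N q| ≤ A' := fun k N q => (hG k N q).trans hAA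
  obtain ⟨q₀⟩ : Nonempty Q := by
    obtain ⟨ν, ⟨-, hν⟩, -⟩ := hL1 0
    by_contra hne
    have he : IsEmpty Q := not_nonempty_iff.1 hne
    have h0 : ν = 0 := Finsupp.ext fun q => (he.false q).elim
    rw [h0, Finsupp.sum_zero_index] at hν
    exact zero_ne_one hν
  have hV : ∀ m : ℕ, ∃ U : ℝ, 1000 ≤ m → ∀ u : ℝ, U ≤ u →
      ∀ (q : Pr → Q) (d ρ : ℝ) (E : ℕ → ℕ → ℝ), 0 ≤ d → 0 ≤ ρ →
      (∀ k j, |E k j| ≤ ρ * d ^ j) →
      ρ * (max 1 (2 * d / dl m u)) ^ Jf m u ≤ Real.exp (u / 10) →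
      ∃ q' : Pr → Q, (∀ p : Pr, Real.log ((p : ℕ) : ℝ) < u → q' p = q p) ∧
        ∀ k < m, ∀ j < Jf m u,
          |∑ N ∈ bl u (u + dl m u), av f C B G q' k N * (Real.log N - u) ^ j +
            ∑ i ∈ Finset.range (j + 1), (j.choose i : ℝ) * (-d) ^ (j - i) * E k i| ≤
          4 * A' * (m * Jf m u) * dl m u ^ j := by
    intro m
    by_cases hm : 1000 ≤ m
    · obtain ⟨c, hc, h2⟩ := hL2 m
      obtain ⟨U, hU⟩ := step f hA1 hf' C B hC' hB' G hG' hm hc (hL1 m) h2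
      exact ⟨U, fun _ => hU⟩
    · exact ⟨0, fun h => absurd h hm⟩
  choose V hV' using hV
  obtain ⟨u, m, hm, hVm, hu1, hud, hu, hmono, hmt, hc1, hc2, hfac, hδ⟩ := params V A'
  have hu0 : 0 ≤ u 0 := by linarith [hu1 0]
  have hρ : ∀ b, 0 ≤ 4 * A' * ((m b : ℝ) * Jf (m b) (u b)) := fun b => by positivity
  have hdl : ∀ b, u (b + 1) - u b = dl (m b) (u b) := fun b => by
    rw [hud b, add_sub_cancel_left]
  obtain ⟨q, E, hE, hz, hM⟩ := recursion q₀ f C B G u m (fun b => Jf (m b) (u b))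
    (fun b => 4 * A' * ((m b : ℝ) * Jf (m b) (u b))) hρ hu0 hu (by
      intro b q E hE
      have hud' : u (b + 2) = u (b + 1) + dl (m (b + 1)) (u (b + 1)) := hud (b + 1)
      obtain ⟨q', h1, h2⟩ := hV' (m (b + 1)) (hm (b + 1)) (u (b + 1)) (hVm (b + 1)) q
        (u (b + 1) - u b) (4 * A' * ((m b : ℝ) * Jf (m b) (u b))) E (by linarith [hu b]) (hρ b) hE
        (by
          rw [hdl b]
          exact hc1 b)
      refine ⟨q', h1, fun k hk j hj => ?_⟩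
      have h3 := h2 k hk j hj
      rw [← hud'] at h3
      refine h3.trans (le_of_eq ?_)
      show _ = 4 * A' * ((m (b + 1) : ℝ) * Jf (m (b + 1)) (u (b + 1))) *
        (u (b + 2) - u (b + 1)) ^ j
      rw [hud', add_sub_cancel_left])
  refine ⟨q, fun k => ?_⟩
  obtain ⟨b₀, hb₀⟩ := Filter.eventually_atTop.1 (hmt.eventually_gt_atTop k)
  refine entire_of_blocks (a := fun N => av f C B G q k N) (A := 4 * A') (by positivity)
    (fun N => L10_av_le f (by linarith) hf' C B hC' hB' G hG' q k N) hu0 hu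
    (J := fun b => Jf (m b) (u b)) (E := fun b j => E b k j) (b₀ := b₀) ?_ ?_ ?_ hfac hδ
  · intro b _ j
    refine (hE b k j).trans (mul_le_mul_of_nonneg_right (hc2 b) ?_)
    exact pow_nonneg (by linarith [hu b]) _
  · intro b _ j hj
    exact hz b k j hj
  · intro b hb j hj
    exact hM b k (hb₀ (b + 1) (by omega)) j hj

end Pool.Agent.EEAC
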