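import Pool.Agent.W_eea520_c.Core1
import Pool.Agent.W_eea520_c.L10

set_option autoImplicit false

namespace Pool.Agent.EEAC

open Filter Topology Pool.Agent.EEA520

/-- The coefficients `(F i (x_p ^ k) - (1 - N ^ (-1/4)) a i) / k`, `N = p ^ k`. -/
noncomputable def rr {X ι : Type} (pw : ℕ → X → X) (F : ι → X → ℝ) (a : ι → ℝ) (x : Pr → X) (i : ι)
    (N : ℕ) : ℝ :=
  if h : IsPrimePow N then
    (F i (pw (N.factorization N.minFac) (x ⟨N.minFac, Nat.minFac_prime h.ne_one⟩)) -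
      (1 - (N : ℝ) ^ (-(1 / 4) : ℝ)) * a i) / (N.factorization N.minFac : ℝ)
  else 0

theorem Core_abs_le {X : Type} {F : X → ℝ} (hF : ∀ x, |F x| ≤ 1) {ν : X →₀ ℝ} (hν : IsProb ν) {a : ℝ}
    (h : (ν.sum fun x w => w * F x) = a) : |a| ≤ 1 := by
  obtain ⟨h1, h2⟩ := hν
  rw [← h, ← h2]
  unfold Finsupp.sum
  refine (Finset.abs_sum_le_sum_abs _ _).trans (Finset.sum_le_sum fun x _ => ?_)
  rw [abs_mul, abs_of_nonneg (h1 x)]
  calc ν x * |F x| ≤ ν x * 1 := mul_le_mul_of_nonneg_left (hF x) (h1 x)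
    _ = ν x := mul_one _

theorem Core_factor (x : ℝ) {a : ℝ} (ha : |a| ≤ 1) (hx : |x| ≤ 1) (N : ℕ) :
    |(x - (1 - (N : ℝ) ^ (-(1 / 4) : ℝ)) * a) / (N.factorization N.minFac : ℝ)| ≤ 2 := by
  rcases Nat.eq_zero_or_pos (N.factorization N.minFac) with h | h
  · rw [h]
    simp
  · have hN : 0 < N := by
      rcases Nat.eq_zero_or_pos N with h0 | h0
      · rw [h0] at h
        simp at h
      · exact h0
    have hj : (1 : ℝ) ≤ (N.factorization N.minFac : ℝ) := by exact_mod_cast h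
    have h2 : (1 : ℝ) ≤ N := by exact_mod_cast hN
    have h3 : (N : ℝ) ^ (-(1 / 4) : ℝ) ≤ 1 := Real.rpow_le_one_of_one_le_of_nonpos h2 (by norm_num)
    have h4 : 0 ≤ (N : ℝ) ^ (-(1 / 4) : ℝ) := Real.rpow_nonneg (by linarith) _
    have h5 : |(1 - (N : ℝ) ^ (-(1 / 4) : ℝ)) * a| ≤ 1 := by
      rw [abs_mul, abs_of_nonneg (by linarith)]
      calc (1 - (N : ℝ) ^ (-(1 / 4) : ℝ)) * |a| ≤ 1 * 1 :=
            mul_le_mul (by linarith) ha (abs_nonneg _) zero_le_one
        _ = 1 := one_mul _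
    rw [abs_div, abs_of_nonneg (by linarith : (0 : ℝ) ≤ (N.factorization N.minFac : ℝ)),
      div_le_iff₀ (by linarith)]
    have h6 := abs_sub x ((1 - (N : ℝ) ^ (-(1 / 4) : ℝ)) * a)
    linarith

/-- Let `e : ℕ ≃ ι` (`nonempty_denumerable`), `f k = F (e k)`, `C k = a (e k)`, `B = 0`, `A = 2`,
`G k N x = (F (e k) (pw j x) - (1 - N ^ (-1/4)) a (e k)) / j`, `j = N.factorization N.minFac`. `|a i| ≤ 1` by `hC`
for `M = {i}`. `hL1` is `hC` for the image of `range K`, `hL2` is `hull` for `Fin K` (`c = η / 2`). `construct`; at a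
prime `N` the coefficient `av` is `F (x_N) - a - N ^ (-1/4) (0 - a)`, `N.factorization N.minFac = 1`. -/
theorem core_inf {X : Type} (pw : ℕ → X → X) (hpw : ∀ x, pw 1 x = x) {ι : Type} [Countable ι]
    [Infinite ι] (F : ι → X → ℝ) (hF : ∀ i x, |F i x| ≤ 1) (a : ι → ℝ)
    (hC : ∀ M : Finset ι, ∃ ν : X →₀ ℝ, IsProb ν ∧ ∀ i ∈ M, (ν.sum fun x w => w * F i x) = a i)
    (hgap : ∀ M : Finset ι, ∃ η : ℝ, 0 < η ∧ ∀ b : ι → ℝ, ∃ x,
      ∑ i ∈ M, b i * F i x ≤ -η * ∑ i ∈ M, |b i|) :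
    ∃ x : Pr → X, ∀ i, ∃ H : ℂ → ℂ, Differentiable ℂ H ∧
      ∀ s : ℂ, 1 < s.re → LSeries (fun N => (rr pw F a x i N : ℂ)) s = H s := by
  classical
  obtain ⟨hden⟩ := nonempty_denumerable ι
  let e : ℕ ≃ ι := (Denumerable.eqv ι).symm
  have ha : ∀ i, |a i| ≤ 1 := by
    intro i
    obtain ⟨ν, hν, h⟩ := hC {i}
    exact Core_abs_le (hF i) hν (h i (Finset.mem_singleton_self i))
  let G : ℕ → ℕ → X → ℝ := fun k N x =>
    (F (e k) (pw (N.factorization N.minFac) x) - (1 - (N : ℝ) ^ (-(1 / 4) : ℝ)) * a (e k)) /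
      (N.factorization N.minFac : ℝ)
  obtain ⟨q, hq⟩ := construct (A := 2) (fun k => F (e k)) (fun k x => (hF (e k) x).trans (by norm_num))
    (fun k => a (e k)) (fun _ => 0) (fun k => (ha (e k)).trans (by norm_num))
    (fun _ => by norm_num) G (fun k N x => Core_factor _ (ha (e k)) (hF _ _) N)
    (by
      intro K
      obtain ⟨ν, hν, h⟩ := hC ((Finset.range K).image e)
      exact ⟨ν, hν, fun k hk => h (e k) (Finset.mem_image_of_mem e (Finset.mem_range.2 hk))⟩)
    (by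
      intro K
      obtain ⟨η, hη, h⟩ := hgap ((Finset.range K).image e)
      refine ⟨η / 2, by positivity, fun y hy => ?_⟩
      obtain ⟨μ, hμ, h'⟩ := hull (K := K) (fun i x => F (e i) x) hη (by
        intro b
        let b' : ι → ℝ := fun i => if h : e.symm i < K then b ⟨e.symm i, h⟩ else 0
        have hb' : ∀ i : Fin K, b' (e i) = b i := by
          intro i
          show (if h : e.symm (e i) < K then b ⟨e.symm (e i), h⟩ else 0) = b i
          rw [dif_pos (by rw [Equiv.symm_apply_apply]; exact i.2)]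
          congr 1
          apply Fin.ext
          exact Equiv.symm_apply_apply e i
        obtain ⟨x, hx⟩ := h b'
        refine ⟨x, ?_⟩
        rw [Finset.sum_image (fun _ _ _ _ h => e.injective h),
          Finset.sum_image (fun _ _ _ _ h => e.injective h)] at hx
        rw [← Fin.sum_univ_eq_sum_range (fun k => b' (e k) * F (e k) x) K,
          ← Fin.sum_univ_eq_sum_range (fun k => |b' (e k)|) K] at hx
        simp only [hb'] at hx
        exact hx) (fun i => y i) (fun i => hy i)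
      refine ⟨μ, hμ, fun k hk => ?_⟩
      rw [zero_add]
      exact h' ⟨k, hk⟩)
  refine ⟨q, fun i => ?_⟩
  obtain ⟨H, hH, hH'⟩ := hq (e.symm i)
  refine ⟨H, hH, fun s hs => ?_⟩
  rw [← hH' s hs]
  congr 1
  funext N
  congr 1
  unfold rr av
  have hei : e (e.symm i) = i := Equiv.apply_symm_apply e i
  by_cases h1 : N.Prime
  · rw [dif_pos h1.isPrimePow, dif_pos h1]
    have hm : N.minFac = N := h1.minFac_eq
    have hfa : N.factorization N.minFac = 1 := by rw [hm]; exact h1.factorization_self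
    have hqq : q ⟨N.minFac, Nat.minFac_prime h1.isPrimePow.ne_one⟩ = q ⟨N, h1⟩ := by
      congr 1
      exact Subtype.ext hm
    rw [hfa, hqq, hpw]
    simp only [Nat.cast_one, div_one, hei]
    ring
  · rw [dif_neg h1]
    by_cases h2 : IsPrimePow N
    · rw [dif_pos h2, dif_pos h2]
      show _ = (F (e (e.symm i)) _ - _ * a (e (e.symm i))) / _
      rw [hei]
    · rw [dif_neg h2, dif_neg h2]

/-- THE CORE. `core_inf` for `X' = X × (ℕ → Bool)`, `ι' = ι ⊕ ℕ`, `pw' k (x, ε) = (pw k x, ε)`,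
`F' (inl i) (x, ε) = F i x`, `F' (inr j) (x, ε) = 1` if `ε j` and `-1` otherwise, `a' (inl i) = a i`, `a' (inr j) = 1`.
`hC`: the image of `ν` under `x ↦ (x, true)`. `hgap`: `min η 1`, with `ε j = (b (inr j) < 0)` and the `x` of
`hgap`. -/
theorem core {X : Type} (pw : ℕ → X → X) (hpw : ∀ x, pw 1 x = x) {ι : Type} [Countable ι]
    (F : ι → X → ℝ) (hF : ∀ i x, |F i x| ≤ 1) (a : ι → ℝ)
    (hC : ∀ M : Finset ι, ∃ ν : X →₀ ℝ, IsProb ν ∧ ∀ i ∈ M, (ν.sum fun x w => w * F i x) = a i)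
    (hgap : ∀ M : Finset ι, ∃ η : ℝ, 0 < η ∧ ∀ b : ι → ℝ, ∃ x,
      ∑ i ∈ M, b i * F i x ≤ -η * ∑ i ∈ M, |b i|) :
    ∃ x : Pr → X, ∀ i, ∃ H : ℂ → ℂ, Differentiable ℂ H ∧
      ∀ s : ℂ, 1 < s.re → LSeries (fun N => (rr pw F a x i N : ℂ)) s = H s := by
  classical
  let F' : ι ⊕ ℕ → X × (ℕ → Bool) → ℝ := fun i x =>
    Sum.elim (fun i => F i x.1) (fun j => if x.2 j = true then (1 : ℝ) else -1) i
  let a' : ι ⊕ ℕ → ℝ := Sum.elim a fun _ => 1
  let pw' : ℕ → X × (ℕ → Bool) → X × (ℕ → Bool) := fun k x => (pw k x.1, x.2)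
  have hF' : ∀ i x, |F' i x| ≤ 1 := by
    rintro (i | j) x
    · exact hF i x.1
    · show |(if x.2 j = true then (1 : ℝ) else -1)| ≤ 1
      split_ifs <;> norm_num
  obtain ⟨x, hx⟩ := core_inf pw' (fun x => by
      show (pw 1 x.1, x.2) = x
      rw [hpw]) F' hF' a' (by
      intro M
      obtain ⟨ν, ⟨hν1, hν2⟩, h⟩ := hC M.toLeft
      let g : X → X × (ℕ → Bool) := fun x => (x, fun _ => true)
      have hg : Function.Injective g := fun x y h => congrArg Prod.fst h
      have hsum : ∀ φ : X × (ℕ → Bool) → ℝ,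
          ((ν.mapDomain g).sum fun x w => w * φ x) = ν.sum fun x w => w * φ (g x) := fun φ =>
        Finsupp.sum_mapDomain_index (fun _ => zero_mul _) fun _ _ _ => add_mul _ _ _
      refine ⟨ν.mapDomain g, ⟨fun y => ?_, ?_⟩, ?_⟩
      · by_cases hy : y ∈ Set.range g
        · obtain ⟨x, rfl⟩ := hy
          rw [Finsupp.mapDomain_apply hg]
          exact hν1 x
        · rw [Finsupp.mapDomain_of_notMem_range _ _ hy]
      · rw [← hν2]
        exact Finsupp.sum_mapDomain_index (fun _ => rfl) fun _ _ _ => rfl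
      · rintro (i | j) hi
        · rw [hsum]
          exact h i (Finset.mem_toLeft.2 hi)
        · rw [hsum]
          have h7 : (ν.sum fun x w => w * F' (Sum.inr j) (g x)) = ν.sum fun _ w => w := by
            refine Finsupp.sum_congr fun x _ => ?_
            show ν x * (if true = true then (1 : ℝ) else -1) = ν x
            simp
          rw [h7, hν2]
          rfl)
    (by
      intro M
      obtain ⟨η, hη, h⟩ := hgap M.toLeft
      refine ⟨min η 1, lt_min hη one_pos, fun b => ?_⟩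
      obtain ⟨x, hx⟩ := h fun i => b (Sum.inl i)
      refine ⟨(x, fun j => decide (b (Sum.inr j) < 0)), ?_⟩
      rw [← Finset.toLeft_disjSum_toRight (u := M), Finset.sum_disjSum, Finset.sum_disjSum]
      have h1 : ∑ j ∈ M.toRight, b (Sum.inr j) *
          F' (Sum.inr j) (x, fun j => decide (b (Sum.inr j) < 0)) =
            -∑ j ∈ M.toRight, |b (Sum.inr j)| := by
        rw [← Finset.sum_neg_distrib]
        refine Finset.sum_congr rfl fun j _ => ?_
        show b (Sum.inr j) * (if decide (b (Sum.inr j) < 0) = true then (1 : ℝ) else -1) = _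
        by_cases hb : b (Sum.inr j) < 0
        · rw [if_pos (by simpa using hb), abs_of_neg hb]
          ring
        · rw [if_neg (by simpa using hb), abs_of_nonneg (not_lt.1 hb)]
          ring
      rw [h1]
      have h2 : 0 ≤ ∑ j ∈ M.toRight, |b (Sum.inr j)| := Finset.sum_nonneg fun _ _ => abs_nonneg _
      have h3 : 0 ≤ ∑ i ∈ M.toLeft, |b (Sum.inl i)| := Finset.sum_nonneg fun _ _ => abs_nonneg _
      have h4 : min η 1 * ∑ i ∈ M.toLeft, |b (Sum.inl i)| ≤ η * ∑ i ∈ M.toLeft, |b (Sum.inl i)| :=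
        mul_le_mul_of_nonneg_right (min_le_left _ _) h3
      have h5 : min η 1 * ∑ j ∈ M.toRight, |b (Sum.inr j)| ≤ 1 * ∑ j ∈ M.toRight, |b (Sum.inr j)| :=
        mul_le_mul_of_nonneg_right (min_le_right _ _) h2
      have h6 : ∑ i ∈ M.toLeft, b (Sum.inl i) *
          F' (Sum.inl i) (x, fun j => decide (b (Sum.inr j) < 0)) ≤
            -η * ∑ i ∈ M.toLeft, |b (Sum.inl i)| := hx
      linarith)
  refine ⟨fun p => (x p).1, fun i => ?_⟩
  exact hx (Sum.inl i)

end Pool.Agent.EEAC
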