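import Pool.Agent.W_eea520_c.C0

set_option autoImplicit false

namespace Pool.Agent.EEAC

open Filter Topology Pool.Agent.EEA520

/-- a functional on `Fin K → ℝ` is given by its coordinates -/
theorem Core1_coord {K : ℕ} (f : (Fin K → ℝ) →ₗ[ℝ] ℝ) (z : Fin K → ℝ) :
    f z = ∑ i, f (Pi.single i 1) * z i := by
  have h1 : z = ∑ i, z i • (Pi.single i (1 : ℝ) : Fin K → ℝ) := by
    funext j
    rw [Finset.sum_apply]
    simp [Pi.single_apply]
  conv_lhs => rw [h1]
  rw [map_sum]
  refine Finset.sum_congr rfl fun i _ => ?_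
  rw [map_smul, smul_eq_mul, mul_comm]

/-- the key estimate -/
theorem Core1_zero {X : Type} {K : ℕ} (F : Fin K → X → ℝ) {η : ℝ} (hη : 0 < η)
    (h : ∀ b : Fin K → ℝ, ∃ x, ∑ i, b i * F i x ≤ -η * ∑ i, |b i|) (b : Fin K → ℝ) (c : ℝ)
    (hc : c ≤ η / 2 * ∑ i, |b i|) (hb : ∀ x, ∑ i, b i * F i x ≤ c) : ∀ i, b i = 0 := by
  obtain ⟨x, hx⟩ := h fun i => -b i
  have h1 : ∑ i, -b i * F i x = -∑ i, b i * F i x := by
    rw [← Finset.sum_neg_distrib]
    exact Finset.sum_congr rfl fun i _ => by ring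
  have h2 : ∑ i, |(-b i)| = ∑ i, |b i| := Finset.sum_congr rfl fun i _ => abs_neg _
  rw [h1, h2] at hx
  have h3 := hb x
  have h4 : 0 ≤ ∑ i, |b i| := Finset.sum_nonneg fun i _ => abs_nonneg _
  have h5 : ∑ i, |b i| = 0 := by
    by_contra hne
    have h6 : 0 < ∑ i, |b i| := lt_of_le_of_ne h4 (Ne.symm hne)
    have h7 : 0 < η * ∑ i, |b i| := mul_pos hη h6
    linarith
  intro i
  have h6 := (Finset.sum_eq_zero_iff_of_nonneg fun i _ => abs_nonneg (b i)).1 h5 i
    (Finset.mem_univ i)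
  exact abs_eq_zero.1 h6

/-- Let `S` be the convex hull of the points `(F i x)_i` in `Fin K → ℝ`. Every `z` with `|z i| ≤ η` is in
`closure S`: otherwise (`geometric_hahn_banach_closed_point`) there are `b` and `r` with
`∑ b i F i x < r < ∑ b i z i` for all `x`, but `h` for `-b` gives an `x` with
`∑ b i F i x ≥ η ∑ |b i| ≥ ∑ b i z i`. So `closure S` has an interior point and the affine span of `S` (closed) is
everything, and `interior (closure S) = interior S` (`Convex.interior_closure_eq_interior_of_nonempty_interior`,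
`interior_convexHull_nonempty_iff_affineSpan_eq_top`). So `y ∈ S`, and this gives the measure
(`mem_convexHull_iff_exists_fintype` or so). -/
theorem hull {X : Type} {K : ℕ} (F : Fin K → X → ℝ) {η : ℝ} (hη : 0 < η)
    (h : ∀ b : Fin K → ℝ, ∃ x, ∑ i, b i * F i x ≤ -η * ∑ i, |b i|) (y : Fin K → ℝ)
    (hy : ∀ i, |y i| ≤ η / 2) :
    ∃ μ : X →₀ ℝ, IsProb μ ∧ ∀ i, (μ.sum fun x a => a * F i x) = y i := by
  classical
  let P : X → Fin K → ℝ := fun x i => F i x
  have hfun : ∀ (f : (Fin K → ℝ) →ₗ[ℝ] ℝ) (x : X),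
      f (P x) = ∑ i, f (Pi.single i 1) * F i x := fun f x => Core1_coord f (P x)
  have hzero : ∀ (f : (Fin K → ℝ) →ₗ[ℝ] ℝ) (c : ℝ),
      c ≤ η / 2 * ∑ i, |f (Pi.single i 1)| → (∀ x, f (P x) ≤ c) → f = 0 := by
    intro f c hc hb
    have h1 := Core1_zero F hη h (fun i => f (Pi.single i 1)) c hc
      (fun x => by rw [← hfun]; exact hb x)
    refine LinearMap.ext fun z => ?_
    rw [Core1_coord f z, LinearMap.zero_apply]
    exact Finset.sum_eq_zero fun i _ => by rw [h1 i, zero_mul]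
  obtain ⟨x₀, -⟩ := h 0
  -- the affine span is everything
  have hspan : affineSpan ℝ (Set.range P) = ⊤ := by
    have hne : ((affineSpan ℝ (Set.range P) : AffineSubspace ℝ (Fin K → ℝ)) :
        Set (Fin K → ℝ)).Nonempty := ⟨P x₀, subset_affineSpan ℝ _ ⟨x₀, rfl⟩⟩
    rw [← AffineSubspace.direction_eq_top_iff_of_nonempty hne]
    by_contra hlt
    obtain ⟨f, hf0, hf⟩ := Submodule.exists_le_ker_of_lt_top _ (lt_top_iff_ne_top.2 hlt)
    have hconst : ∀ x, f (P x) = f (P x₀) := by
      intro x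
      have h1 : P x -ᵥ P x₀ ∈ (affineSpan ℝ (Set.range P)).direction :=
        AffineSubspace.vsub_mem_direction (subset_affineSpan ℝ _ ⟨x, rfl⟩)
          (subset_affineSpan ℝ _ ⟨x₀, rfl⟩)
      have h2 := hf h1
      rw [LinearMap.mem_ker, vsub_eq_sub, map_sub] at h2
      exact sub_eq_zero.1 h2
    rcases le_total (f (P x₀)) 0 with h0 | h0
    · refine hf0 (hzero f (f (P x₀)) (h0.trans ?_) fun x => (hconst x).le)
      have : 0 ≤ ∑ i, |f (Pi.single i 1)| := Finset.sum_nonneg fun i _ => abs_nonneg _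
      positivity
    · have h1 : (-f) = 0 := by
        refine hzero (-f) ((-f) (P x₀)) ?_ fun x => ?_
        · rw [LinearMap.neg_apply]
          have : 0 ≤ ∑ i, |(-f) (Pi.single i 1)| := Finset.sum_nonneg fun i _ => abs_nonneg _
          have h3 : 0 ≤ η / 2 * ∑ i, |(-f) (Pi.single i 1)| := by positivity
          linarith
        · rw [LinearMap.neg_apply, LinearMap.neg_apply, hconst x]
      exact hf0 (neg_eq_zero.1 h1)
  have hint : (interior (convexHull ℝ (Set.range P))).Nonempty :=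
    interior_convexHull_nonempty_iff_affineSpan_eq_top.2 hspan
  have hyS : y ∈ convexHull ℝ (Set.range P) := by
    by_contra hyn
    have hyi : y ∉ interior (convexHull ℝ (Set.range P)) := fun h' => hyn (interior_subset h')
    obtain ⟨f, hf0, hf⟩ := geometric_hahn_banach_of_nonempty_interior_point
      (convex_convexHull ℝ (Set.range P)) hyi hint
    have h1 : (f : (Fin K → ℝ) →ₗ[ℝ] ℝ) = 0 := by
      refine hzero (f : (Fin K → ℝ) →ₗ[ℝ] ℝ) (f y) ?_ fun x => ?_
      · have h2 : f y = ∑ i, f (Pi.single i 1) * y i :=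
          Core1_coord (f : (Fin K → ℝ) →ₗ[ℝ] ℝ) y
        rw [h2, Finset.mul_sum]
        refine Finset.sum_le_sum fun i _ => ?_
        calc f (Pi.single i 1) * y i ≤ |f (Pi.single i 1) * y i| := le_abs_self _
          _ = |f (Pi.single i 1)| * |y i| := abs_mul _ _
          _ ≤ |f (Pi.single i 1)| * (η / 2) := mul_le_mul_of_nonneg_left (hy i) (abs_nonneg _)
          _ = η / 2 * |f (Pi.single i 1)| := mul_comm _ _
      · exact hf _ (subset_convexHull ℝ _ ⟨x, rfl⟩)
    apply hf0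
    ext z
    exact LinearMap.congr_fun h1 z
  obtain ⟨ι, _, w, z, hw0, hw1, hz, hsum⟩ := mem_convexHull_iff_exists_fintype.1 hyS
  choose x hx using hz
  refine ⟨∑ j, Finsupp.single (x j) (w j), ⟨fun q => ?_, ?_⟩, fun i => ?_⟩
  · rw [Finsupp.finsetSum_apply]
    refine Finset.sum_nonneg fun j _ => ?_
    rw [Finsupp.single_apply]
    split_ifs
    · exact hw0 j
    · exact le_rfl
  · rw [← Finsupp.sum_finsetSum_index (fun _ => rfl) (fun _ _ _ => rfl)]
    rw [← hw1]
    exact Finset.sum_congr rfl fun j _ => Finsupp.sum_single_index rfl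
  · rw [← Finsupp.sum_finsetSum_index (fun _ => zero_mul _) (fun _ _ _ => add_mul _ _ _)]
    rw [← hsum, Finset.sum_apply]
    refine Finset.sum_congr rfl fun j _ => ?_
    rw [Finsupp.sum_single_index (zero_mul _), ← hx j]
    rfl

end Pool.Agent.EEAC
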