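import Pool.Agent.W_eea520_G.S1

/-!
# The logarithm of the Euler product as one Dirichlet series over the prime powers (MP_eea520_nt)
-/

set_option autoImplicit false

namespace Pool.Agent.EEAC

open Filter Topology Pool.Agent.EEA520 Pool.Agent.EEAG1 LSeries

/-- `1 / k` at `p ^ k`, and `0` at the other numbers. -/
noncomputable def pc (N : ℕ) : ℝ :=
  if IsPrimePow N then (1 : ℝ) / (N.factorization N.minFac : ℝ) else 0

theorem pc_pow {p : ℕ} (hp : p.Prime) (k : ℕ) : pc (p ^ (k + 1)) = 1 / ((k : ℝ) + 1) := by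
  unfold pc
  rw [if_pos (hp.isPrimePow.pow (Nat.succ_ne_zero k)), hp.pow_minFac (Nat.succ_ne_zero k),
    hp.factorization_pow, Finsupp.single_eq_same]
  push_cast
  ring

theorem fac_pow {p : ℕ} (hp : p.Prime) (k : ℕ) :
    (p ^ (k + 1)).factorization (p ^ (k + 1)).minFac = k + 1 := by
  rw [hp.pow_minFac (Nat.succ_ne_zero k), hp.factorization_pow, Finsupp.single_eq_same]

theorem pc_nonneg (N : ℕ) : 0 ≤ pc N := by
  unfold pc
  split_ifs
  · positivity
  · exact le_rfl

theorem pc_le_one (N : ℕ) : pc N ≤ 1 := by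
  unfold pc
  split_ifs with h
  · have h1 : 1 ≤ N.factorization N.minFac := by
      obtain ⟨p, k, hp, hk, rfl⟩ := (isPrimePow_nat_iff _).1 h
      obtain ⟨j, rfl⟩ := Nat.exists_eq_add_of_lt hk
      rw [zero_add, fac_pow hp]
      omega
    rw [div_le_one (by exact_mod_cast h1)]
    exact_mod_cast h1
  · exact zero_le_one

variable {n : ℕ}

/-- The coefficients of the logarithm for a weight. -/
noncomputable def cf (x : ℕ → Torus n) (w : Wt n) (N : ℕ) : ℂ :=
  (pc N : ℂ) * ((x N.minFac).ev w : ℂ) ^ (N.factorization N.minFac)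

theorem cf_le {x : ℕ → Torus n} (hx : ∀ N w, ‖((x N).ev w : ℂ)‖ = 1) (w : Wt n) (N : ℕ) :
    ‖cf x w N‖ ≤ 1 := by
  unfold cf
  rw [norm_mul, norm_pow, hx, one_pow, mul_one, Complex.norm_real, Real.norm_of_nonneg (pc_nonneg N)]
  exact pc_le_one N

theorem cf_hasSum {x : ℕ → Torus n} (hx : ∀ N w, ‖((x N).ev w : ℂ)‖ = 1) (w : Wt n) {s : ℂ}
    (hs : 1 < s.re) :
    HasSum (fun p : Pr => -Complex.log (1 - ((x p).ev w : ℂ) * ((p : ℕ) : ℂ) ^ (-s)))
      (LSeries (cf x w) s) := by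
  have h0 : LSeriesSummable (cf x w) s :=
    LSeriesSummable_of_bounded_of_one_lt_re (fun N _ => cf_le hx w N) hs
  have h1 : HasSum (term (cf x w) s) (LSeries (cf x w) s) := h0.LSeriesHasSum
  have hsupp : Function.support (term (cf x w) s) ⊆ {N | IsPrimePow N} := by
    intro N hN
    by_contra hc
    apply hN
    have hc' : ¬ IsPrimePow N := hc
    by_cases hN0 : N = 0
    · rw [hN0, term_zero]
    · rw [term_of_ne_zero hN0, cf, pc, if_neg hc']
      simp
  have h2 := (hasSum_subtype_iff_of_support_subset hsupp).2 h1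
  have h3 := (Nat.Primes.prodNatEquiv.hasSum_iff (f := (term (cf x w) s) ∘ Subtype.val)).2 h2
  refine h3.prod_fiberwise fun p => ?_
  have hz : ‖((x p).ev w : ℂ) * ((p : ℕ) : ℂ) ^ (-s)‖ < 1 := by
    rw [norm_mul, hx, one_mul]
    have hp2 : (2 : ℝ) ≤ ((p : ℕ) : ℝ) := by exact_mod_cast p.2.two_le
    rw [hol_norm]
    calc ((p : ℕ) : ℝ) ^ (-s.re) ≤ ((p : ℕ) : ℝ) ^ (-1 : ℝ) :=
        Real.rpow_le_rpow_of_exponent_le (by linarith) (by linarith)
      _ ≤ 1 / 2 := by
        rw [Real.rpow_neg_one, one_div]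
        exact inv_anti₀ (by norm_num) hp2
      _ < 1 := by norm_num
  refine (Complex.hasSum_taylorSeries_neg_log' hz).congr_fun fun k => ?_
  have hp0 : ((p : ℕ) : ℂ) ≠ 0 := by exact_mod_cast p.2.ne_zero
  have hpk : (p : ℕ) ^ (k + 1) ≠ 0 := pow_ne_zero _ p.2.ne_zero
  simp only [Function.comp_apply, Nat.Primes.prodNatEquiv_apply]
  rw [term_of_ne_zero hpk, cf, pc_pow p.2, fac_pow p.2, p.2.pow_minFac (Nat.succ_ne_zero k), mul_pow,
    Nat.cast_pow]
  have h5 : ∀ j : ℕ, ((((p : ℕ) : ℂ) ^ j) ^ s) = (((p : ℕ) : ℂ) ^ s) ^ j := by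
    intro j
    induction j with
    | zero => simp
    | succ j ih =>
      rw [pow_succ, pow_succ, ← ih]
      have h6 := Complex.natCast_mul_natCast_cpow ((p : ℕ) ^ j) (p : ℕ) s
      push_cast at h6
      exact h6
  rw [h5, Complex.cpow_neg, inv_pow]
  push_cast
  field_simp

/-- The Euler product for a virtual character. -/
theorem factor_cf {x : ℕ → Torus n} (hx : ∀ N, ‖((x N).c : ℂ)‖ = 1 ∧ ∀ i, ‖((x N).x i : ℂ)‖ = 1)
    (m : Wt n →₀ ℤ) {s : ℂ} (hs : 1 < s.re) :
    HasProd (fun p : Pr => (x p).factor m (((p : ℕ) : ℂ) ^ (-s)))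
      (Complex.exp (m.sum fun w e => (e : ℂ) * LSeries (cf x w) s)) := by
  classical
  set π : GSys n := fun p => x p with hπd
  have hπ : Tempered π := fun p => hx p
  have hev : ∀ N w, ‖((x N).ev w : ℂ)‖ = 1 := by
    intro N w
    unfold Torus.ev
    rw [Units.val_mul, Units.val_zpow_eq_zpow_val, Units.coe_prod, norm_mul, _root_.norm_zpow,
      (hx N).1, one_zpow, one_mul, norm_prod]
    refine Finset.prod_eq_one fun i _ => ?_
    rw [Units.val_zpow_eq_zpow_val, _root_.norm_zpow, (hx N).2, one_zpow]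
  have h1 := factor_hasProd hπ m hs
  have h2 : HasSum (fun p : Pr => lfac (π p) m (((p : ℕ) : ℂ) ^ (-s)))
      (m.sum fun w e => (e : ℂ) * LSeries (cf x w) s) := by
    unfold lfac Finsupp.sum
    refine hasSum_sum fun w _ => ?_
    refine ((cf_hasSum hev w hs).mul_left ((m w : ℤ) : ℂ)).congr_fun fun p => ?_
    rw [mul_neg]
  have hs' : 3 / 4 < s.re := by linarith
  have h3 : HasSum (fun p : Pr => lfac (π p) m (((p : ℕ) : ℂ) ^ (-s)) -
      trq (π p) m (((p : ℕ) : ℂ) ^ (-s))) (hol π m s) :=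
    (Summable.of_norm_bounded (hol_summable m) fun p => hol_term hπ m hs' p).hasSum
  have h4 := (chn_hasSum hπ m hs).add h3
  have h5 : LSeries (chn π m) s + hol π m s = m.sum fun w e => (e : ℂ) * LSeries (cf x w) s := by
    refine h4.unique (h2.congr_fun fun p => ?_)
    rw [add_sub_cancel]
  rw [← h5]
  exact h1

end Pool.Agent.EEAC
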