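import Pool.Agent.W_eea520_n.A1
import Pool.Agent.W_eea520_n.R2

/-!
# Haar measure: nonzero combinations of orbit functions take negative values (MP_eea520_nt)
-/

set_option autoImplicit false

namespace Pool.Agent.EEAC

open Finset Pool.Agent.EEA520 Pool.Agent.EEAN

variable {n : ℕ}

/-- The product of two points. -/
def mulT (q r : Torus n) : Torus n := ⟨q.c * r.c, fun i => q.x i * r.x i⟩

/-- The powers of a point. -/
def powT (k : ℕ) (q : Torus n) : Torus n := ⟨q.c ^ k, fun i => q.x i ^ k⟩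

theorem ev_mulT (q r : Torus n) (w : Wt n) : (mulT q r).ev w = q.ev w * r.ev w := by
  unfold Torus.ev mulT
  simp only [mul_zpow, prod_mul_distrib]
  rw [mul_mul_mul_comm]

theorem ev_powT (k : ℕ) (q : Torus n) (w : Wt n) : (powT k q).ev w = q.ev w ^ k := by
  unfold Torus.ev powT
  rw [mul_pow, ← prod_pow]
  congr 1
  · rw [← zpow_natCast, ← zpow_natCast, ← zpow_mul, ← zpow_mul, mul_comm]
  · refine prod_congr rfl fun i _ => ?_
    show (q.x i ^ k) ^ w.2 i = (q.x i ^ w.2 i) ^ k
    rw [← zpow_natCast, ← zpow_natCast, ← zpow_mul, ← zpow_mul, mul_comm]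

theorem ev_add' (q : Torus n) (v w : Wt n) : q.ev (v + w) = q.ev v * q.ev w := by
  unfold Torus.ev
  simp only [Prod.fst_add, Prod.snd_add, Pi.add_apply, zpow_add, prod_mul_distrib]
  rw [mul_mul_mul_comm]

theorem ev_neg' (q : Torus n) (w : Wt n) : q.ev (-w) = (q.ev w)⁻¹ := by
  rw [eq_inv_iff_mul_eq_one, ← ev_add', neg_add_cancel]
  unfold Torus.ev
  simp

theorem isPt_mulT {q r : Torus n} (hq : IsPt q) (hr : IsPt r) : IsPt (mulT q r) := by
  refine ⟨⟨?_, fun i => ?_⟩, ?_⟩
  · show ‖((q.c * r.c : ℂˣ) : ℂ)‖ = 1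
    rw [Units.val_mul, norm_mul, hq.1.1, hr.1.1, one_mul]
  · show ‖((q.x i * r.x i : ℂˣ) : ℂ)‖ = 1
    rw [Units.val_mul, norm_mul, hq.1.2, hr.1.2, one_mul]
  · show (q.c * r.c) ^ 2 * ∏ i, q.x i * r.x i = 1
    rw [mul_pow, prod_mul_distrib, mul_mul_mul_comm, hq.2, hr.2, one_mul]

theorem isPt_powT (k : ℕ) {q : Torus n} (hq : IsPt q) : IsPt (powT k q) := by
  refine ⟨⟨?_, fun i => ?_⟩, ?_⟩
  · show ‖((q.c ^ k : ℂˣ) : ℂ)‖ = 1
    rw [Units.val_pow_eq_pow_val, norm_pow, hq.1.1, one_pow]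
  · show ‖((q.x i ^ k : ℂˣ) : ℂ)‖ = 1
    rw [Units.val_pow_eq_pow_val, norm_pow, hq.1.2, one_pow]
  · show (q.c ^ k) ^ 2 * ∏ i, q.x i ^ k = 1
    rw [prod_pow, ← pow_mul, mul_comm k 2, pow_mul, ← mul_pow, hq.2, one_pow]

theorem isPt_one : IsPt (⟨1, fun _ => 1⟩ : Torus n) := by
  refine ⟨⟨by simp, fun i => by simp⟩, by simp⟩

/-- The action of the Weyl group on the points. -/
def actT (g : WG n) (q : Torus n) : Torus n :=
  ⟨q.c * ∏ i ∈ g.2, q.x i, fun j => if g.1.symm j ∈ g.2 then (q.x (g.1.symm j))⁻¹ else q.x (g.1.symm j)⟩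

theorem ev_actT (g : WG n) (q : Torus n) (w : Wt n) : (actT g q).ev w = q.ev (act g w) := by
  classical
  obtain ⟨σ, I⟩ := g
  rw [act_apply]
  unfold Torus.ev actT
  simp only
  have h1 : ∏ j, (if σ.symm j ∈ I then (q.x (σ.symm j))⁻¹ else q.x (σ.symm j)) ^ w.2 j =
      ∏ i, (if i ∈ I then (q.x i)⁻¹ else q.x i) ^ w.2 (σ i) := by
    rw [← Equiv.prod_comp σ]
    simp
  have h2 : ∏ i, q.x i ^ (if i ∈ I then w.1 - w.2 (σ i) else w.2 (σ i)) =
      (∏ i ∈ I, q.x i) ^ w.1 * ∏ i, (if i ∈ I then (q.x i)⁻¹ else q.x i) ^ w.2 (σ i) := by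
    have h3 : (∏ i ∈ I, q.x i) ^ w.1 = ∏ i, (if i ∈ I then q.x i ^ w.1 else 1) := by
      rw [← prod_zpow, prod_ite_mem, univ_inter]
    rw [h3, ← prod_mul_distrib]
    refine prod_congr rfl fun i _ => ?_
    split_ifs
    · rw [zpow_sub, inv_zpow]
    · rw [one_mul]
  rw [h1, h2, mul_zpow, mul_assoc]

theorem isPt_actT (g : WG n) {q : Torus n} (hq : IsPt q) : IsPt (actT g q) := by
  classical
  obtain ⟨σ, I⟩ := g
  refine ⟨⟨?_, fun i => ?_⟩, ?_⟩
  · show ‖((q.c * ∏ i ∈ I, q.x i : ℂˣ) : ℂ)‖ = 1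
    rw [Units.val_mul, Units.coe_prod, norm_mul, hq.1.1, one_mul, norm_prod]
    exact prod_eq_one fun i _ => hq.1.2 i
  · show ‖((if σ.symm i ∈ I then (q.x (σ.symm i))⁻¹ else q.x (σ.symm i) : ℂˣ) : ℂ)‖ = 1
    split_ifs
    · rw [Units.val_inv_eq_inv_val, norm_inv, hq.1.2, inv_one]
    · exact hq.1.2 _
  · have h1 := ev_actT (σ, I) q (2, fun _ => 1)
    rw [act_apply] at h1
    unfold Torus.ev at h1
    simp only [zpow_one] at h1
    have h2 : (actT (σ, I) q).c ^ (2 : ℤ) = (actT (σ, I) q).c ^ 2 := by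
      norm_cast
    rw [h2] at h1
    rw [h1]
    have h3 : ∀ i : Fin n, (if i ∈ I then (2 : ℤ) - 1 else 1) = 1 := by
      intro i
      split_ifs <;> norm_num
    simp only [h3, zpow_one]
    have h4 : q.c ^ (2 : ℤ) = q.c ^ 2 := by norm_cast
    rw [h4]
    exact hq.2

/-- A weight which is trivial on the compact torus. -/
def TrivW (w : Wt n) : Prop := ∀ q : Torus n, IsPt q → q.ev w = 1

theorem TrivW.act {w : Wt n} (hw : TrivW w) (g : WG n) : TrivW (act g w) := fun q hq => by
  rw [← ev_actT]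
  exact hw _ (isPt_actT g hq)

/-- Finitely many nontrivial weights have small mean values over a suitable finite family of points. -/
theorem exists_family (W : Finset (Wt n)) (hW : ∀ w ∈ W, ¬ TrivW w) {ε : ℝ} (hε : 0 < ε) :
    ∃ (κ : Type) (_ : Fintype κ) (_ : Nonempty κ) (q : κ → Torus n), (∀ k, IsPt (q k)) ∧
      ∀ w ∈ W, ‖∑ k, ((q k).ev w : ℂ)‖ ≤ ε * Fintype.card κ := by
  classical
  induction W using Finset.induction_on with
  | empty =>
    exact ⟨Unit, inferInstance, inferInstance, fun _ => ⟨1, fun _ => 1⟩, fun _ => isPt_one,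
      fun w hw => absurd hw (notMem_empty _)⟩
  | insert w₀ W hw₀ ih =>
    obtain ⟨κ, i1, i2, q, hq, hqW⟩ := ih fun w hw => hW w (mem_insert_of_mem hw)
    have h1 := hW w₀ (mem_insert_self _ _)
    unfold TrivW at h1
    push Not at h1
    obtain ⟨g, hg, hg1⟩ := h1
    set z : ℂ := (g.ev w₀ : ℂ) with hz
    have hz1 : z ≠ 1 := by
      intro h
      apply hg1
      apply Units.ext
      exact h
    have hzn : ‖z‖ = 1 := hg.norm_ev w₀
    have hpos : 0 < ‖z - 1‖ := norm_pos_iff.2 (sub_ne_zero.2 hz1)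
    obtain ⟨N, hN⟩ := exists_nat_gt (2 / (ε * ‖z - 1‖))
    have hNpos : (0 : ℝ) < N := lt_trans (by positivity) hN
    have hN0 : 0 < N := by exact_mod_cast hNpos
    have : Nonempty (Fin N) := ⟨⟨0, hN0⟩⟩
    have hsum : ∀ w : Wt n, ∑ k : κ × Fin N, (((mulT (q k.1) (powT k.2 g)).ev w : ℂˣ) : ℂ) =
        (∑ k, ((q k).ev w : ℂ)) * ∑ j ∈ range N, (g.ev w : ℂ) ^ j := by
      intro w
      rw [Fintype.sum_prod_type, sum_mul]
      refine sum_congr rfl fun k _ => ?_
      rw [mul_sum, ← Fin.sum_univ_eq_sum_range (fun j => ((q k).ev w : ℂ) * (g.ev w : ℂ) ^ j)]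
      refine sum_congr rfl fun j _ => ?_
      rw [ev_mulT, ev_powT, Units.val_mul, Units.val_pow_eq_pow_val]
    refine ⟨κ × Fin N, inferInstance, inferInstance, fun k => mulT (q k.1) (powT k.2 g),
      fun k => isPt_mulT (hq _) (isPt_powT _ hg), fun w hw => ?_⟩
    rw [hsum, norm_mul, Fintype.card_prod, Fintype.card_fin]
    push_cast
    rcases mem_insert.1 hw with rfl | hw
    · have h2 : ‖∑ k, ((q k).ev w : ℂ)‖ ≤ Fintype.card κ := by
        refine (norm_sum_le _ _).trans ?_
        rw [sum_congr rfl fun k _ => (hq k).norm_ev w]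
        simp
      have h3 : ‖∑ j ∈ range N, (g.ev w : ℂ) ^ j‖ ≤ 2 / ‖z - 1‖ := by
        rw [← hz, geom_sum_eq hz1, norm_div]
        refine div_le_div_of_nonneg_right ?_ hpos.le
        refine (norm_sub_le _ _).trans ?_
        rw [norm_pow, hzn, one_pow, norm_one]
        norm_num
      have h4 : 2 / ‖z - 1‖ ≤ ε * N := by
        have h5 := hN.le
        rw [div_le_iff₀ (by positivity)] at h5
        rw [div_le_iff₀ hpos]
        linarith
      calc ‖∑ k, ((q k).ev w : ℂ)‖ * ‖∑ j ∈ range N, (g.ev w : ℂ) ^ j‖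
          ≤ Fintype.card κ * (ε * N) :=
            mul_le_mul h2 (h3.trans h4) (norm_nonneg _) (Nat.cast_nonneg _)
        _ = ε * (Fintype.card κ * N) := by ring
    · have h2 := hqW w hw
      have h3 : ‖∑ j ∈ range N, (g.ev w : ℂ) ^ j‖ ≤ N := by
        refine (norm_sum_le _ _).trans ?_
        have h5 : ∀ j ∈ range N, ‖(g.ev w : ℂ) ^ j‖ = 1 := fun j _ => by
          rw [norm_pow, hg.norm_ev, one_pow]
        rw [sum_congr rfl h5]
        simp
      calc ‖∑ k, ((q k).ev w : ℂ)‖ * ‖∑ j ∈ range N, (g.ev w : ℂ) ^ j‖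
          ≤ (ε * Fintype.card κ) * N :=
            mul_le_mul h2 h3 (norm_nonneg _) (by positivity)
        _ = ε * (Fintype.card κ * N) := by ring

theorem orb_sum_real (w : Wt n) (f : Wt n → ℝ) :
    ((orb w).sum fun u e => (e : ℝ) * f u) = ∑ g : WG n, f (act g w) := by
  classical
  unfold orb
  rw [← Finsupp.sum_finsetSum_index (by intro a; simp) (by intro a b c; push_cast; ring)]
  refine sum_congr rfl fun g _ => ?_
  rw [Finsupp.sum_single_index (by simp)]
  simp

theorem wre_act (g : WG n) (q : Torus n) (w : Wt n) : wre q (act g w) = wre q w := by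
  unfold wre
  rw [← orb_sum_real (act g w) fun u => ((q.ev u : ℂ)).re, orb_act,
    orb_sum_real w fun u => ((q.ev u : ℂ)).re]

/-- The orbit sum is real at the points of the compact torus. -/
theorem orb_real {q : Torus n} (hq : IsPt q) (w : Wt n) :
    ∑ g : WG n, (q.ev (act g w) : ℂ) = (wre q w : ℂ) := by
  apply Complex.ext
  · rw [Complex.ofReal_re, Complex.re_sum]
    rfl
  · rw [Complex.ofReal_im, Complex.im_sum]
    have h1 := sum_act (orb_isCharacter w) (1, univ) fun u => ((q.ev u : ℂ)).im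
    rw [orb_sum_real w fun u => ((q.ev (act (1, univ) u) : ℂ)).im,
      orb_sum_real w fun u => ((q.ev u : ℂ)).im] at h1
    have h2 : ∑ g : WG n, ((q.ev (act (1, univ) (act g w)) : ℂ)).im =
        -∑ g : WG n, ((q.ev (act g w) : ℂ)).im := by
      rw [← sum_neg_distrib]
      refine sum_congr rfl fun g _ => ?_
      rw [hq.ev_act, Units.val_inv_eq_inv_val, Complex.inv_eq_conj (hq.norm_ev _), Complex.conj_im]
    rw [h2] at h1
    linarith

theorem wre_mul {q : Torus n} (hq : IsPt q) (v w : Wt n) :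
    wre q v * wre q w = ∑ g : WG n, ∑ h : WG n, ((q.ev (act g v - act h w) : ℂ)).re := by
  have h1 : ((wre q v * wre q w : ℝ) : ℂ) =
      ∑ g : WG n, ∑ h : WG n, (q.ev (act g v - act h w) : ℂ) := by
    have h2 : ((wre q w : ℝ) : ℂ) = ∑ h : WG n, (q.ev (-act h w) : ℂ) := by
      have h3 : (starRingEnd ℂ) ((wre q w : ℝ) : ℂ) = ((wre q w : ℝ) : ℂ) := Complex.conj_ofReal _
      rw [← h3, ← orb_real hq, map_sum]
      refine sum_congr rfl fun h _ => ?_
      rw [ev_neg', Units.val_inv_eq_inv_val, Complex.inv_eq_conj (hq.norm_ev _)]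
    rw [Complex.ofReal_mul, h2, ← orb_real hq, sum_mul_sum]
    refine sum_congr rfl fun g _ => sum_congr rfl fun h _ => ?_
    rw [sub_eq_add_neg, ev_add', Units.val_mul]
  have h3 := congrArg Complex.re h1
  rw [Complex.ofReal_re, Complex.re_sum] at h3
  rw [h3]
  refine sum_congr rfl fun g _ => ?_
  rw [Complex.re_sum]

theorem wre_zero' (q : Torus n) : wre q 0 = Fintype.card (WG n) := by
  unfold wre
  have h : ∀ g : WG n, ((q.ev (act g 0) : ℂ)).re = 1 := by
    intro g
    rw [map_zero]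
    have : q.ev 0 = 1 := by
      unfold Torus.ev
      simp
    rw [this]
    simp
  rw [sum_congr rfl fun g _ => h g]
  simp

/-- Two weights which are in the same orbit on the compact torus have the same orbit function. -/
theorem wre_eq_of_triv {v w : Wt n} {g h : WG n} (ht : TrivW (act g v - act h w)) {q : Torus n}
    (hq : IsPt q) : wre q v = wre q w := by
  rw [← wre_act g q v, ← wre_act h q w]
  unfold wre
  refine sum_congr rfl fun k _ => ?_
  have h1 := ht.act k q hq
  rw [map_sub, sub_eq_add_neg, ev_add', ev_neg', mul_inv_eq_one] at h1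
  rw [h1]

/-- Nonzero combinations of distinct, non-constant orbit functions take negative values, uniformly. -/
theorem gap_weights (Ws : Finset (Wt n))
    (h1 : ∀ w ∈ Ws, ¬ ∀ q : Torus n, IsPt q → wre q w = Fintype.card (WG n))
    (h2 : ∀ v ∈ Ws, ∀ w ∈ Ws, v ≠ w → ¬ ∀ q : Torus n, IsPt q → wre q v = wre q w) :
    ∃ η : ℝ, 0 < η ∧ ∀ b : Wt n → ℝ, ∃ q : Torus n, IsPt q ∧
      ∑ w ∈ Ws, b w * wre q w ≤ -η * ∑ w ∈ Ws, |b w| := by
  classical
  set c0 : ℝ := (Fintype.card (WG n) : ℝ) with hc0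
  have hc1 : (1 : ℝ) ≤ c0 := by
    have : Nonempty (WG n) := ⟨(1, ∅)⟩
    have : 1 ≤ Fintype.card (WG n) := Fintype.card_pos
    rw [hc0]
    exact_mod_cast this
  set K : ℝ := (Ws.card : ℝ) + 1 with hK
  have hK1 : 1 ≤ K := by
    rw [hK]
    have : (0 : ℝ) ≤ Ws.card := Nat.cast_nonneg _
    linarith
  set ε : ℝ := 1 / (8 * K * c0) with hε
  have hε0 : 0 < ε := by positivity
  -- the finite set of the weights
  set V : Finset (Wt n) := (((Ws ×ˢ (univ : Finset (WG n))).image fun p => act p.2 p.1) ∪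
    ((Ws ×ˢ Ws) ×ˢ ((univ : Finset (WG n)) ×ˢ (univ : Finset (WG n)))).image
      (fun p => act p.2.1 p.1.1 - act p.2.2 p.1.2)).filter fun u => ¬ TrivW u with hV
  obtain ⟨κ, i1, i2, q, hq, hqV⟩ := exists_family V (fun w hw => (mem_filter.1 hw).2) hε0
  set R : ℝ := (Fintype.card κ : ℝ) with hR
  have hR0 : 0 < R := by
    rw [hR]
    exact_mod_cast Fintype.card_pos
  have hre : ∀ u ∈ V, |∑ k, ((q k).ev u : ℂ).re| ≤ ε * R := by
    intro u hu
    rw [← Complex.re_sum]
    exact (Complex.abs_re_le_norm _).trans (hqV u hu)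
  -- the mean values
  have m1 : ∀ w ∈ Ws, |∑ k, wre (q k) w| ≤ c0 * (ε * R) := by
    intro w hw
    unfold wre
    rw [sum_comm]
    refine (abs_sum_le_sum_abs _ _).trans ((sum_le_card_nsmul _ _ (ε * R) fun g _ => ?_).trans ?_)
    · refine hre _ (mem_filter.2 ⟨mem_union_left _ (mem_image.2 ⟨(w, g), ?_, rfl⟩), fun ht => ?_⟩)
      · exact mem_product.2 ⟨hw, mem_univ _⟩
      · refine h1 w hw fun r hr => ?_
        refine (wre_eq_of_triv (v := w) (w := 0) (g := g) (h := g) ?_ hr).trans (wre_zero' r)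
        rw [map_zero, sub_zero]
        exact ht
    · rw [nsmul_eq_mul, card_univ]
  have hcor : ∀ v w : Wt n, ∑ k, wre (q k) v * wre (q k) w =
      ∑ g : WG n, ∑ h : WG n, ∑ k, ((q k).ev (act g v - act h w) : ℂ).re := by
    intro v w
    rw [sum_congr rfl fun k _ => wre_mul (hq k) v w, sum_comm]
    refine sum_congr rfl fun g _ => ?_
    rw [sum_comm]
  have m2 : ∀ v ∈ Ws, ∀ w ∈ Ws, v ≠ w → |∑ k, wre (q k) v * wre (q k) w| ≤ c0 * (c0 * (ε * R)) := by
    intro v hv w hw hvw
    rw [hcor]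
    refine (abs_sum_le_sum_abs _ _).trans ((sum_le_card_nsmul _ _ (c0 * (ε * R)) fun g _ => ?_).trans ?_)
    · refine (abs_sum_le_sum_abs _ _).trans ((sum_le_card_nsmul _ _ (ε * R) fun h _ => ?_).trans ?_)
      · refine hre _ (mem_filter.2 ⟨mem_union_right _ (mem_image.2 ⟨((v, w), (g, h)), ?_, rfl⟩),
          fun ht => ?_⟩)
        · exact mem_product.2 ⟨mem_product.2 ⟨hv, hw⟩, mem_product.2 ⟨mem_univ _, mem_univ _⟩⟩
        · exact h2 v hv w hw hvw fun r hr => wre_eq_of_triv ht hr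
      · rw [nsmul_eq_mul, card_univ]
    · rw [nsmul_eq_mul, card_univ]
  have m3 : ∀ w ∈ Ws, c0 * R - c0 * (c0 * (ε * R)) ≤ ∑ k, wre (q k) w * wre (q k) w := by
    intro w hw
    rw [hcor]
    have h3 : ∀ g h : WG n, (if g = h then R else 0) - ε * R ≤
        ∑ k, ((q k).ev (act g w - act h w) : ℂ).re := by
      intro g h
      by_cases ht : TrivW (act g w - act h w)
      · have h4 : ∑ k, ((q k).ev (act g w - act h w) : ℂ).re = R := by
          rw [sum_congr rfl fun k _ => by rw [ht (q k) (hq k)], sum_const, card_univ, nsmul_eq_mul,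
            Units.val_one, Complex.one_re, mul_one]
        rw [h4]
        have : 0 ≤ ε * R := by positivity
        split_ifs <;> linarith
      · have hgh : g ≠ h := by
          rintro rfl
          apply ht
          rw [sub_self]
          intro r _
          unfold Torus.ev
          simp
        rw [if_neg hgh, zero_sub]
        refine (abs_le.1 (hre _ (mem_filter.2 ⟨mem_union_right _
          (mem_image.2 ⟨((w, w), (g, h)), ?_, rfl⟩), ht⟩))).1
        exact mem_product.2 ⟨mem_product.2 ⟨hw, hw⟩, mem_product.2 ⟨mem_univ _, mem_univ _⟩⟩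
    have h4 : ∑ g : WG n, ∑ h : WG n, ((if g = h then R else 0) - ε * R) =
        c0 * R - c0 * (c0 * (ε * R)) := by
      simp only [sum_sub_distrib, sum_ite_eq, mem_univ, if_true, sum_const, card_univ, nsmul_eq_mul]
      try ring
    rw [← h4]
    exact sum_le_sum fun g _ => sum_le_sum fun h _ => h3 g h
  refine ⟨1 / (4 * K), by positivity, fun b => ?_⟩
  set B : ℝ := ∑ w ∈ Ws, |b w| with hB
  have hB0 : 0 ≤ B := sum_nonneg fun w _ => abs_nonneg _
  clear_value B
  rcases hB0.eq_or_lt with hB1 | hB1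
  · refine ⟨⟨1, fun _ => 1⟩, isPt_one, ?_⟩
    have h3 : ∀ w ∈ Ws, b w = 0 := by
      intro w hw
      have h4 := (sum_eq_zero_iff_of_nonneg fun w _ => abs_nonneg (b w)).1 (hB ▸ hB1.symm) w hw
      exact abs_eq_zero.1 h4
    rw [← hB1, mul_zero, sum_eq_zero fun w hw => by rw [h3 w hw, zero_mul]]
  · by_contra hcon
    push Not at hcon
    set η : ℝ := 1 / (4 * K) with hη
    have hη0 : 0 < η := by positivity
    set f : κ → ℝ := fun k => ∑ w ∈ Ws, b w * wre (q k) w with hf
    have hfk : ∀ k, -η * B < f k := fun k => hcon (q k) (hq k)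
    -- the mean value of f
    have hfm : |∑ k, f k| ≤ B * (c0 * (ε * R)) := by
      rw [hf]
      dsimp only
      rw [sum_comm, hB, sum_mul]
      refine (abs_sum_le_sum_abs _ _).trans (sum_le_sum fun w hw => ?_)
      rw [← mul_sum, abs_mul]
      exact mul_le_mul_of_nonneg_left (m1 w hw) (abs_nonneg _)
    have hmain : ∀ w ∈ Ws, |b w| * (c0 * R - c0 * (c0 * (ε * R))) ≤
        c0 * (B * (c0 * (ε * R)) + η * B * R) + η * B * (c0 * (ε * R)) +
          B * (c0 * (c0 * (ε * R))) := by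
      intro w hw
      -- correlation of f + η B with the orbit function
      have h3 : |∑ k, (f k + η * B) * wre (q k) w| ≤ c0 * ∑ k, (f k + η * B) := by
        rw [mul_sum]
        refine (abs_sum_le_sum_abs _ _).trans (sum_le_sum fun k _ => ?_)
        have h5 : 0 ≤ f k + η * B := by linarith [hfk k]
        rw [abs_mul, abs_of_nonneg h5, mul_comm]
        exact mul_le_mul_of_nonneg_right (abs_wre_le (hq k) w) h5
      have h4 : ∑ k, (f k + η * B) ≤ B * (c0 * (ε * R)) + η * B * R := by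
        rw [sum_add_distrib, sum_const, card_univ, nsmul_eq_mul]
        have := (abs_le.1 hfm).2
        linarith
      have h5 : ∑ k, (f k + η * B) * wre (q k) w =
          b w * (∑ k, wre (q k) w * wre (q k) w) +
            (∑ v ∈ Ws.erase w, b v * ∑ k, wre (q k) v * wre (q k) w) +
            η * B * ∑ k, wre (q k) w := by
        have h6 : ∑ k, f k * wre (q k) w = ∑ v ∈ Ws, b v * ∑ k, wre (q k) v * wre (q k) w := by
          rw [hf]
          simp only [sum_mul, mul_sum]
          rw [sum_comm]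
          exact sum_congr rfl fun v _ => sum_congr rfl fun k _ => by ring
        rw [← add_sum_erase Ws (fun v => b v * ∑ k, wre (q k) v * wre (q k) w) hw] at h6
        rw [← h6, mul_sum, ← sum_add_distrib]
        exact sum_congr rfl fun k _ => by ring
      have h6 : |∑ v ∈ Ws.erase w, b v * ∑ k, wre (q k) v * wre (q k) w| ≤
          B * (c0 * (c0 * (ε * R))) := by
        calc |∑ v ∈ Ws.erase w, b v * ∑ k, wre (q k) v * wre (q k) w|
            ≤ ∑ v ∈ Ws.erase w, |b v| * (c0 * (c0 * (ε * R))) := by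
              refine (abs_sum_le_sum_abs _ _).trans (sum_le_sum fun v hv => ?_)
              rw [abs_mul]
              exact mul_le_mul_of_nonneg_left
                (m2 v (mem_of_mem_erase hv) w hw (ne_of_mem_erase hv)) (abs_nonneg _)
          _ ≤ ∑ v ∈ Ws, |b v| * (c0 * (c0 * (ε * R))) :=
              sum_le_sum_of_subset_of_nonneg (erase_subset _ _) fun v _ _ => by positivity
          _ = B * (c0 * (c0 * (ε * R))) := by rw [← sum_mul, ← hB]
      have h7 : |η * B * ∑ k, wre (q k) w| ≤ η * B * (c0 * (ε * R)) := by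
        rw [abs_mul, abs_of_nonneg (by positivity)]
        exact mul_le_mul_of_nonneg_left (m1 w hw) (by positivity)
      have h8 : |b w| * (∑ k, wre (q k) w * wre (q k) w) ≤
          c0 * (B * (c0 * (ε * R)) + η * B * R) + η * B * (c0 * (ε * R)) +
          B * (c0 * (c0 * (ε * R))) := by
        have h9 : 0 ≤ ∑ k, wre (q k) w * wre (q k) w := sum_nonneg fun k _ => mul_self_nonneg _
        have h10 : |b w| * (∑ k, wre (q k) w * wre (q k) w) =
            |b w * (∑ k, wre (q k) w * wre (q k) w)| := by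
          rw [abs_mul, abs_of_nonneg h9]
        rw [h10]
        have h11 : b w * (∑ k, wre (q k) w * wre (q k) w) =
            (∑ k, (f k + η * B) * wre (q k) w) -
            (∑ v ∈ Ws.erase w, b v * ∑ k, wre (q k) v * wre (q k) w) -
            η * B * ∑ k, wre (q k) w := by
          rw [h5]
          ring
        rw [h11]
        have h12 := mul_le_mul_of_nonneg_left h4 (by linarith : (0 : ℝ) ≤ c0)
        have h13 := abs_sub (∑ k, (f k + η * B) * wre (q k) w)
          (∑ v ∈ Ws.erase w, b v * ∑ k, wre (q k) v * wre (q k) w)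
        have h14 := abs_sub ((∑ k, (f k + η * B) * wre (q k) w) -
          (∑ v ∈ Ws.erase w, b v * ∑ k, wre (q k) v * wre (q k) w)) (η * B * ∑ k, wre (q k) w)
        linarith
      exact (mul_le_mul_of_nonneg_left (m3 w hw) (abs_nonneg _)).trans h8
    have hsum : B * (c0 * R - c0 * (c0 * (ε * R))) ≤
        Ws.card * (c0 * (B * (c0 * (ε * R)) + η * B * R) + η * B * (c0 * (ε * R)) +
          B * (c0 * (c0 * (ε * R)))) := by
      have h3 : B * (c0 * R - c0 * (c0 * (ε * R))) =
          ∑ w ∈ Ws, |b w| * (c0 * R - c0 * (c0 * (ε * R))) := by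
        rw [hB, sum_mul]
      rw [h3]
      refine (sum_le_card_nsmul _ _ _ fun w hw => hmain w hw).trans ?_
      rw [nsmul_eq_mul]
    -- the constants
    have hc0' : c0 ≠ 0 := by linarith
    have hK0' : K ≠ 0 := by linarith
    have e1 : c0 * ε = 1 / (8 * K) := by
      rw [hε]
      field_simp
    have e2 : c0 * (c0 * (ε * R)) = c0 * R * (1 / (8 * K)) := by
      rw [← e1]
      ring
    have e3 : c0 * (ε * R) = R * (1 / (8 * K)) := by
      rw [← e1]
      ring
    have hcard : (Ws.card : ℝ) ≤ K := by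
      rw [hK]
      linarith
    have hpos : 0 ≤ (c0 * (B * (c0 * (ε * R)) + η * B * R) + η * B * (c0 * (ε * R)) +
          B * (c0 * (c0 * (ε * R)))) := by positivity
    have hsum2 := hsum.trans (mul_le_mul_of_nonneg_right hcard hpos)
    rw [e2, e3] at hsum2
    have e4 : K * (c0 * (B * (R * (1 / (8 * K))) + η * B * R) + η * B * (R * (1 / (8 * K))) +
        B * (c0 * R * (1 / (8 * K)))) = B * R * (c0 / 8 + c0 / 4 + 1 / (32 * K) + c0 / 8) := by
      rw [hη]
      field_simp
      ring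
    have e5 : B * (c0 * R - c0 * R * (1 / (8 * K))) = B * R * (c0 * (1 - 1 / (8 * K))) := by ring
    rw [e4, e5] at hsum2
    have hBR : 0 < B * R := by positivity
    have e6 := le_of_mul_le_mul_left hsum2 hBR
    have e7 : 1 / (8 * K) ≤ 1 / 8 := by
      rw [div_le_div_iff₀ (by positivity) (by norm_num)]
      linarith
    have e8 : 1 / (32 * K) ≤ 1 / 32 := by
      rw [div_le_div_iff₀ (by positivity) (by norm_num)]
      linarith
    nlinarith

end Pool.Agent.EEAC
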