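import Pool.Agent.W_eea520_n.R1
import Pool.Agent.W_eea520_n.A1

/-!
# The orbit functions on the compact torus with trivial central character (MP_eea520_nt)
-/

set_option autoImplicit false

namespace Pool.Agent.EEAN

open Filter Topology Pool.Agent.EEA520 Pool.Agent.EEAG1

variable {n : ℕ}

/-- The weights which are trivial at the points of `CT`. -/
def KZ (v : Wt n) : Prop := ∃ j : ℤ, v.1 = 2 * j ∧ ∀ i, v.2 i = j

/-- The orbit function of a weight. -/
noncomputable def fW (w : Wt n) (t : Torus n) : ℝ := ∑ g : WG n, (t.ev (act g w) : ℂ).re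

theorem Gp1_ev_add (t : Torus n) (v w : Wt n) : t.ev (v + w) = t.ev v * t.ev w := by
  unfold Torus.ev
  simp only [Prod.fst_add, Prod.snd_add, Pi.add_apply, zpow_add, Finset.prod_mul_distrib]
  exact mul_mul_mul_comm _ _ _ _

theorem KZ_ev {t : Torus n} (ht : CT t) {v : Wt n} (h : KZ v) : t.ev v = 1 := by
  obtain ⟨j, h1, h2⟩ := h
  unfold Torus.ev
  simp only [h1, h2, Finset.prod_zpow]
  rw [zpow_mul, ← mul_zpow, zpow_ofNat, ht.2.2, one_zpow]

theorem KZ_act_eq {v : Wt n} (h : KZ v) (g : WG n) : act g v = v := by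
  obtain ⟨j, h1, h2⟩ := h
  rw [act_apply]
  refine Prod.ext rfl ?_
  funext i
  show (if i ∈ g.2 then v.1 - v.2 (g.1 i) else v.2 (g.1 i)) = v.2 i
  rw [h1, h2, h2]
  split_ifs
  · ring
  · rfl

theorem KZ_act {v : Wt n} (g : WG n) : KZ (act g v) ↔ KZ v := by
  constructor
  · rintro ⟨j, h1, h2⟩
    rw [act_apply] at h1 h2
    refine ⟨j, h1, fun i => ?_⟩
    have h3 := h2 (g.1.symm i)
    simp only [Equiv.apply_symm_apply] at h3 h1
    split_ifs at h3
    · linarith
    · exact h3
  · intro h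
    rwa [KZ_act_eq h g]

theorem fW_complex {t : Torus n} (ht : CT t) (w : Wt n) :
    ((fW w t : ℝ) : ℂ) = ∑ g : WG n, (t.ev (act g w) : ℂ) := by
  have h0 : (∑ g : WG n, (t.ev (act g w) : ℂ)).im = 0 := by
    have h1 : ∑ g : WG n, (t.ev (act g w) : ℂ).im = -∑ g : WG n, (t.ev (act g w) : ℂ).im := by
      rw [← Finset.sum_neg_distrib]
      have hinj : Function.Injective
          fun g : WG n => A1_comp ((1, Finset.univ) : WG n) g := by
        intro g g' hgg
        simp only [A1_comp, Prod.mk.injEq, mul_one] at hgg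
        obtain ⟨e1, e2⟩ := hgg
        have e3 := symmDiff_right_injective _ e2
        refine Prod.ext e1 ?_
        exact Finset.map_injective _ e3
      refine Fintype.sum_bijective _ hinj.bijective_of_finite _ _ fun g => ?_
      rw [← A1_act_comp, R1d_im ht, neg_neg]
    rw [Complex.im_sum]
    linarith
  unfold fW
  refine Complex.ext ?_ ?_
  · rw [Complex.ofReal_re, Complex.re_sum]
  · rw [Complex.ofReal_im, h0]

theorem fW_abs {t : Torus n} (ht : CT t) (w : Wt n) : |fW w t| ≤ Fintype.card (WG n) := by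
  unfold fW
  refine (Finset.abs_sum_le_sum_abs _ _).trans ?_
  refine (Finset.sum_le_card_nsmul _ _ 1 fun g _ => ?_).trans ?_
  · exact (Complex.abs_re_le_norm _).trans (R1_norm_ev ht _).le
  · rw [Finset.card_univ, nsmul_eq_mul, mul_one]

theorem fW_act (g : WG n) (w : Wt n) (t : Torus n) : fW (act g w) t = fW w t := by
  unfold fW
  simp only [A1_act_comp]
  exact Fintype.sum_bijective _ (A1_comp_inj g).bijective_of_finite _ _ fun h => rfl

theorem fW_KZ {t : Torus n} (ht : CT t) {w : Wt n} (h : KZ w) : fW w t = Fintype.card (WG n) := by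
  unfold fW
  have : ∀ g : WG n, (t.ev (act g w) : ℂ).re = 1 := by
    intro g
    rw [KZ_ev ht ((KZ_act g).2 h), Units.val_one, Complex.one_re]
  rw [Finset.sum_congr rfl fun g _ => this g, Finset.sum_const, Finset.card_univ, nsmul_eq_mul,
    mul_one]

/-- Finitely many points with the moments of Haar measure. -/
theorem Gp_points (F : Finset (Wt n)) : ∃ (ι : Type) (_ : Fintype ι) (_ : Nonempty ι)
    (q : ι → Torus n), (∀ j, CT (q j)) ∧ ∀ v ∈ F, (KZ v → ∑ j, ((q j).ev v : ℂ) = Fintype.card ι) ∧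
      (¬ KZ v → ∑ j, ((q j).ev v : ℂ) = 0) := by
  classical
  obtain ⟨S, hSne, hSn, hS⟩ := exists_points (n := n) (e := fST) (Or.inl rfl)
    (F.image fun v => fun i => v.2 i - v.1 / 2)
  have hpt : ∀ t : {t // t ∈ S}, ∃ P Q : Torus n, CT P ∧ CT Q ∧
      ∀ v : Wt n, (P.ev v : ℂ) + (Q.ev v : ℂ) =
        2 * if Even v.1 then evp t.1 (fun i => v.2 i - v.1 / 2) else 0 := fun t =>
    R1c_point (hSn t.1 t.2)
  choose P Q hP hQ hPQ using hpt
  obtain ⟨t₀, ht₀⟩ := hSne
  refine ⟨{t // t ∈ S} × Bool, inferInstance, ⟨(⟨t₀, ht₀⟩, true)⟩,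
    fun j => if j.2 then P j.1 else Q j.1, fun j => ?_, fun v hv => ?_⟩
  · show CT (if j.2 then P j.1 else Q j.1)
    split_ifs
    · exact hP _
    · exact hQ _
  · have h1 : ∑ j : {t // t ∈ S} × Bool, (((if j.2 then P j.1 else Q j.1).ev v : ℂˣ) : ℂ) =
        ∑ t : {t // t ∈ S}, 2 * if Even v.1 then evp t.1 (fun i => v.2 i - v.1 / 2) else 0 := by
      rw [Fintype.sum_prod_type]
      refine Finset.sum_congr rfl fun t _ => ?_
      rw [Fintype.sum_bool, ← hPQ t v]
      simp
    rw [h1]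
    have h2 : (fun i => v.2 i - v.1 / 2) ∈ F.image fun v => fun i => v.2 i - v.1 / 2 :=
      Finset.mem_image_of_mem _ hv
    have h3 := hS _ h2
    have h4 : ∑ t : {t // t ∈ S}, evp t.1 (fun i => v.2 i - v.1 / 2) =
        ∑ t ∈ S, evp t (fun i => v.2 i - v.1 / 2) := by
      rw [Finset.sum_coe_sort S fun t => evp t (fun i => v.2 i - v.1 / 2)]
    have h5 : KZ v ↔ Even v.1 ∧ (fun i => v.2 i - v.1 / 2) = 0 := by
      constructor
      · rintro ⟨j, e1, e2⟩
        refine ⟨⟨j, by omega⟩, ?_⟩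
        funext i
        show v.2 i - v.1 / 2 = 0
        rw [e2 i, e1]
        omega
      · rintro ⟨⟨j, e1⟩, e2⟩
        refine ⟨j, by omega, fun i => ?_⟩
        have e3 : v.2 i - v.1 / 2 = 0 := congrFun e2 i
        omega
    constructor
    · intro hk
      obtain ⟨e1, e2⟩ := h5.1 hk
      simp only [if_pos e1]
      rw [← Finset.mul_sum, h4, h3, e2]
      simp [fST, Fintype.card_coe]
      ring
    · intro hk
      by_cases e1 : Even v.1
      · have e2 : (fun i => v.2 i - v.1 / 2) ≠ 0 := fun h => hk (h5.2 ⟨e1, h⟩)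
        simp only [if_pos e1]
        rw [← Finset.mul_sum, h4, h3]
        unfold fST
        rw [if_neg e2]
        simp
      · simp only [if_neg e1]
        simp

end Pool.Agent.EEAN
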