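import Pool.Agent.W_eea520_c.Eul
import Pool.Agent.W_eea520_c.Gap
import Pool.Agent.W_eea520_c.Core

/-!
# Tempered systems for which the conclusion of Q1 holds for all characters (MP_eea520_nt)
-/

set_option autoImplicit false

namespace Pool.Agent.EEAC

open Filter Topology Pool.Agent.EEA520 Pool.Agent.EEAN Pool.Agent.EEAG1 LSeries

variable {n : ℕ}

/-- The points of the compact torus with trivial central character. -/
abbrev XT (n : ℕ) : Type := {q : Torus n // IsPt q}

/-- The powers. -/
def pwX (k : ℕ) (q : XT n) : XT n := ⟨powT k q.1, isPt_powT k q.2⟩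

theorem pwX_one (q : XT n) : pwX 1 q = q := by
  apply Subtype.ext
  show powT 1 q.1 = q.1
  unfold powT
  ext i <;> simp

/-- The normalized orbit function. -/
noncomputable def phi (w : Wt n) (q : XT n) : ℝ := wre q.1 w / Fintype.card (WG n)

theorem card_pos' : (0 : ℝ) < Fintype.card (WG n) :=
  lt_of_le_of_ne (Nat.cast_nonneg _) (Ne.symm card_ne_zero')

theorem phi_le (w : Wt n) (q : XT n) : |phi w q| ≤ 1 := by
  unfold phi
  rw [abs_div, abs_of_pos card_pos', div_le_one card_pos']
  exact abs_wre_le q.2 w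

/-- The distinct non-constant orbit functions. -/
abbrev IX (n : ℕ) : Type := {f : XT n → ℝ // (∃ w, f = phi w) ∧ f ≠ fun _ => 1}

instance : Countable (IX n) := by
  have h1 : (Set.range (phi (n := n))).Countable := Set.countable_range _
  have h2 : {f : XT n → ℝ | (∃ w, f = phi w) ∧ f ≠ fun _ => 1}.Countable := by
    refine h1.mono ?_
    rintro f ⟨⟨w, rfl⟩, -⟩
    exact ⟨w, rfl⟩
  exact h2.to_subtype

/-- A weight with the given orbit function. -/
noncomputable def wt (i : IX n) : Wt n := i.2.1.choose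

theorem wt_spec (i : IX n) : i.1 = phi (wt i) := i.2.1.choose_spec

theorem wt_inj : Function.Injective (wt (n := n)) := by
  intro i j h
  apply Subtype.ext
  rw [wt_spec i, wt_spec j, h]

theorem gapX (M : Finset (IX n)) : ∃ η : ℝ, 0 < η ∧ ∀ b : IX n → ℝ, ∃ x : XT n,
    ∑ i ∈ M, b i * i.1 x ≤ -η * ∑ i ∈ M, |b i| := by
  classical
  obtain ⟨η, hη, h⟩ := gap_weights (M.map ⟨wt, wt_inj⟩) (fun w hw hc => by
      rw [Finset.mem_map] at hw
      obtain ⟨i, -, rfl⟩ := hw
      apply i.2.2
      rw [wt_spec i]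
      funext q
      unfold phi
      have h1 := hc q.1 q.2
      simp only [Function.Embedding.coeFn_mk] at h1
      rw [h1, div_self card_ne_zero']) (fun v hv w hw hvw hc => by
      rw [Finset.mem_map] at hv hw
      obtain ⟨i, -, rfl⟩ := hv
      obtain ⟨j, -, rfl⟩ := hw
      apply hvw
      have h1 : i = j := by
        apply Subtype.ext
        rw [wt_spec i, wt_spec j]
        funext q
        unfold phi
        have h2 := hc q.1 q.2
        simp only [Function.Embedding.coeFn_mk] at h2
        rw [h2]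
      rw [h1])
  refine ⟨η / Fintype.card (WG n), div_pos hη card_pos', fun b => ?_⟩
  obtain ⟨q, hq, hle⟩ := h (Function.extend wt b 0)
  refine ⟨⟨q, hq⟩, ?_⟩
  rw [Finset.sum_map, Finset.sum_map] at hle
  simp only [Function.Embedding.coeFn_mk, wt_inj.extend_apply] at hle
  have h1 : ∑ i ∈ M, b i * i.1 (⟨q, hq⟩ : XT n) =
      (∑ i ∈ M, b i * wre q (wt i)) / Fintype.card (WG n) := by
    rw [Finset.sum_div]
    refine Finset.sum_congr rfl fun i _ => ?_
    rw [wt_spec i]
    unfold phi
    ring
  rw [h1, div_le_iff₀ card_pos']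
  refine hle.trans (le_of_eq ?_)
  field_simp

/-- The Dirichlet series of `pc` is the logarithm of the zeta function. -/
theorem exp_pc {s : ℂ} (hs : 1 < s.re) :
    Complex.exp (LSeries (fun N => (pc N : ℂ)) s) = riemannZeta s := by
  have h1 := factor_cf (n := 1) (x := fun _ => ⟨1, fun _ => 1⟩) (fun N => isPt_one.1)
    (Finsupp.single 0 1) hs
  have h2 := riemannZeta_eulerProduct_hasProd (s := s) hs
  simp only [factor_one] at h1
  rw [Finsupp.sum_single_index (by simp)] at h1
  have h3 := h1.unique h2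
  rw [← h3]
  congr 1
  rw [Int.cast_one, one_mul]
  congr 1
  funext N
  unfold cf
  have h4 : (⟨1, fun _ => 1⟩ : Torus 1).ev 0 = 1 := by
    unfold Torus.ev
    simp
  rw [h4]
  simp

theorem pc_summable {s : ℂ} (hs : 1 < s.re) : LSeriesSummable (fun N => (pc N : ℂ)) s :=
  LSeriesSummable_of_bounded_of_one_lt_re (m := 1) (fun N _ => by
    rw [Complex.norm_real, Real.norm_of_nonneg (pc_nonneg N)]
    exact pc_le_one N) hs

/-- The shifted series. -/
theorem LSeries_shift (s : ℂ) :
    LSeries (fun N => ((((N : ℝ) ^ (-(1 / 4) : ℝ) * pc N : ℝ)) : ℂ)) s =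
      LSeries (fun N => (pc N : ℂ)) (s + 1 / 4) := by
  unfold LSeries
  refine tsum_congr fun N => ?_
  by_cases hN : N = 0
  · rw [hN, term_zero, term_zero]
  · rw [term_of_ne_zero hN, term_of_ne_zero hN, Complex.cpow_add _ _ (by exact_mod_cast hN)]
    push_cast
    rw [Complex.ofReal_cpow (Nat.cast_nonneg N)]
    push_cast
    rw [Complex.cpow_neg]
    field_simp

/-- The points at all natural numbers. -/
noncomputable def xx (x : Pr → XT n) (N : ℕ) : Torus n :=
  if h : N.Prime then (x ⟨N, h⟩).1 else ⟨1, fun _ => 1⟩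

theorem xx_isPt (x : Pr → XT n) (N : ℕ) : IsPt (xx x N) := by
  unfold xx
  split_ifs
  · exact (x _).2
  · exact isPt_one

theorem xx_prime (x : Pr → XT n) (p : Pr) : xx x p = (x p).1 := by
  unfold xx
  rw [dif_pos p.2]
  rfl

/-- The coefficients for one weight. -/
noncomputable def uu (x : Pr → XT n) (w : Wt n) (N : ℕ) : ℝ :=
  pc N * (wre (powT (N.factorization N.minFac) (xx x N.minFac)) w / Fintype.card (WG n))

theorem uu_le (x : Pr → XT n) (w : Wt n) (N : ℕ) : ‖((uu x w N : ℝ) : ℂ)‖ ≤ 1 := by
  rw [Complex.norm_real, Real.norm_eq_abs]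
  unfold uu
  rw [abs_mul, abs_of_nonneg (pc_nonneg N), abs_div, abs_of_pos card_pos']
  refine mul_le_one₀ (pc_le_one N) (by positivity) ?_
  rw [div_le_one card_pos']
  exact abs_wre_le (isPt_powT _ (xx_isPt x _)) w

theorem uu_summable (x : Pr → XT n) (w : Wt n) {s : ℂ} (hs : 1 < s.re) :
    LSeriesSummable (fun N => ((uu x w N : ℝ) : ℂ)) s :=
  LSeriesSummable_of_bounded_of_one_lt_re (fun N _ => uu_le x w N) hs

theorem cf_summable (x : Pr → XT n) (w : Wt n) {s : ℂ} (hs : 1 < s.re) :
    LSeriesSummable (cf (xx x) w) s :=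
  LSeriesSummable_of_bounded_of_one_lt_re (fun N _ => cf_le (fun N w => (xx_isPt x N).norm_ev w) w N)
    hs

theorem LSeries_sum' {ι : Type} (S : Finset ι) (f : ι → ℕ → ℂ) {s : ℂ}
    (hf : ∀ i ∈ S, LSeriesSummable (f i) s) (c : ι → ℂ) :
    ∑ i ∈ S, c i * LSeries (f i) s = LSeries (fun N => ∑ i ∈ S, c i * f i N) s := by
  classical
  have h1 : ∀ N, term (fun N => ∑ i ∈ S, c i * f i N) s N = ∑ i ∈ S, c i * term (f i) s N := by
    intro N
    by_cases hN : N = 0
    · simp [hN]
    · rw [term_of_ne_zero hN, Finset.sum_div]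
      refine Finset.sum_congr rfl fun i _ => ?_
      rw [term_of_ne_zero hN]
      ring
  have h2 : HasSum (fun N => ∑ i ∈ S, c i * term (f i) s N) (∑ i ∈ S, c i * LSeries (f i) s) :=
    hasSum_sum fun i hi => (hf i hi).LSeriesHasSum.mul_left (c i)
  unfold LSeries at *
  rw [← h2.tsum_eq]
  exact (tsum_congr h1).symm

/-- The logarithm of the Euler product of a character in terms of the orbit functions. -/
theorem sum_cf (x : Pr → XT n) {m : Wt n →₀ ℤ} (hm : IsCharacter m) {s : ℂ} (hs : 1 < s.re) :
    (m.sum fun w e => (e : ℂ) * LSeries (cf (xx x) w) s) =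
      m.sum fun w e => (e : ℂ) * LSeries (fun N => ((uu x w N : ℝ) : ℂ)) s := by
  unfold Finsupp.sum
  rw [LSeries_sum' m.support (fun w => cf (xx x) w) (fun w _ => cf_summable x w hs) fun w => (m w : ℂ),
    LSeries_sum' m.support (fun w N => ((uu x w N : ℝ) : ℂ)) (fun w _ => uu_summable x w hs)
      fun w => (m w : ℂ)]
  congr 1
  funext N
  have h1 := trace_real (isPt_powT (N.factorization N.minFac) (xx_isPt x N.minFac)) hm
  unfold Finsupp.sum at h1
  have h2 : ∑ w ∈ m.support, (m w : ℂ) * cf (xx x) w N = (pc N : ℂ) *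
      ∑ w ∈ m.support, ((m w : ℤ) : ℂ) *
        (((powT (N.factorization N.minFac) (xx x N.minFac)).ev w : ℂˣ) : ℂ) := by
    rw [Finset.mul_sum]
    refine Finset.sum_congr rfl fun w _ => ?_
    rw [ev_powT, Units.val_pow_eq_pow_val]
    unfold cf
    ring
  rw [h2, h1]
  push_cast
  rw [Finset.mul_sum]
  refine Finset.sum_congr rfl fun w _ => ?_
  unfold uu
  push_cast
  ring

/-- GROUP PART. A law `C` (given by finitely supported probability measures) is the law of a tempered
system with trivial central character, all of whose Euler products are of the form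
`ζ(s) ^ a * ζ(s + 1/4) ^ b * exp (H s)` with integers `a`, `b` and an ENTIRE function `H`. -/
theorem realize_all {C : Wt n → ℤ}
    (hC : ∀ F : Finset (Wt n), ∃ ν : XT n →₀ ℝ, IsProb ν ∧
      ∀ w ∈ F, (ν.sum fun q z => z * wre q.1 w) = C w)
    (ha : ∀ m : Wt n →₀ ℤ, IsCharacter m →
      ∃ a : ℤ, (Fintype.card (WG n) : ℤ) * a = m.sum fun w e => e * C w) :
    ∃ π : GSys n, Tempered π ∧ (∀ p, (π p).c ^ 2 * ∏ i, (π p).x i = 1) ∧
      ∀ m : Wt n →₀ ℤ, IsCharacter m → ∃ (a b : ℤ) (H : ℂ → ℂ),
        (Fintype.card (WG n) : ℤ) * a = (m.sum fun w e => e * C w) ∧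
        Differentiable ℂ H ∧ ∀ s : ℂ, 1 < s.re →
          HasProd (fun p : Pr => (π p).factor m (((p : ℕ) : ℂ) ^ (-s)))
            (riemannZeta s ^ a * riemannZeta (s + 1 / 4) ^ b * Complex.exp (H s)) := by
  classical
  have hcongr : ∀ v w : Wt n, phi v = phi w → C v = C w := by
    intro v w h
    obtain ⟨ν, -, h1⟩ := hC {v, w}
    have h2 : ∀ q : XT n, wre q.1 v = wre q.1 w := by
      intro q
      have h3 := congrFun h q
      unfold phi at h3
      rwa [div_left_inj' card_ne_zero'] at h3
    have h3 := h1 v (by simp)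
    have h4 := h1 w (by simp)
    simp only [h2] at h3
    rw [h3] at h4
    exact_mod_cast h4
  have hconst : ∀ w : Wt n, (phi w = fun _ => 1) → C w = Fintype.card (WG n) := by
    intro w h
    obtain ⟨ν, hν, h1⟩ := hC {w}
    have h2 : ∀ q : XT n, wre q.1 w = Fintype.card (WG n) := by
      intro q
      have h3 := congrFun h q
      unfold phi at h3
      rwa [div_eq_one_iff_eq card_ne_zero'] at h3
    have h3 := h1 w (by simp)
    simp only [h2] at h3
    rw [← Finsupp.sum_mul, hν.2, one_mul] at h3
    exact_mod_cast h3.symm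
  obtain ⟨x, hx⟩ := core (X := XT n) pwX pwX_one (ι := IX n) (fun i => i.1)
    (fun i q => by
      rw [wt_spec i]
      exact phi_le _ q)
    (fun i => (C (wt i) : ℝ) / Fintype.card (WG n))
    (fun M => by
      obtain ⟨ν, hν, h1⟩ := hC (M.image wt)
      refine ⟨ν, hν, fun i hi => ?_⟩
      have h2 := h1 (wt i) (Finset.mem_image_of_mem _ hi)
      rw [← h2]
      unfold Finsupp.sum
      rw [Finset.sum_div]
      refine Finset.sum_congr rfl fun q _ => ?_
      rw [wt_spec i]
      unfold phi
      ring)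
    gapX
  choose H hH1 hH2 using hx
  refine ⟨fun p => (x p).1, fun p => (x p).2.1, fun p => (x p).2.2, fun m hm => ?_⟩
  obtain ⟨a, ha⟩ := ha m hm
  -- the entire function of a weight
  let HW : Wt n → ℂ → ℂ := fun w s =>
    if h : (∃ v, phi w = phi v) ∧ phi w ≠ fun _ => 1 then H ⟨phi w, h⟩ s else 0
  have hHW : ∀ w, Differentiable ℂ (HW w) := by
    intro w
    by_cases h : (∃ v, phi w = phi v) ∧ phi w ≠ fun _ => 1
    · have h1 : HW w = H ⟨phi w, h⟩ := by
        funext s
        exact dif_pos h
      rw [h1]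
      exact hH1 _
    · have h1 : HW w = fun _ => 0 := by
        funext s
        exact dif_neg h
      rw [h1]
      exact differentiable_const _
  let Z : ℤ := ∑ w ∈ m.support, if (phi w = fun _ => 1) then m w else 0
  refine ⟨a, Z - a, fun s => ∑ w ∈ m.support, (m w : ℂ) * HW w s, ha, ?_, fun s hs => ?_⟩
  · exact Differentiable.fun_sum fun w _ => (hHW w).const_mul _
  · have hs' : 1 < (s + 1 / 4).re := by
      have : (s + 1 / 4).re = s.re + 1 / 4 := by
        rw [Complex.add_re]
        norm_num
      rw [this]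
      linarith
    set L1 : ℂ := LSeries (fun N => (pc N : ℂ)) s with hL1
    set L2 : ℂ := LSeries (fun N => (pc N : ℂ)) (s + 1 / 4) with hL2
    have hone : ∀ w : Wt n, LSeries (fun N => ((uu x w N : ℝ) : ℂ)) s =
        ((C w : ℝ) / (Fintype.card (WG n) : ℝ) : ℝ) * (L1 - L2) + HW w s +
          if (phi w = fun _ => 1) then L2 else 0 := by
      intro w
      by_cases h : phi w = fun _ => 1
      · have h1 : HW w s = 0 := dif_neg (fun hc => hc.2 h)
        have h2 : (fun N => ((uu x w N : ℝ) : ℂ)) = fun N => (pc N : ℂ) := by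
          funext N
          have h3 := congrFun h ⟨powT (N.factorization N.minFac) (xx x N.minFac),
            isPt_powT _ (xx_isPt x _)⟩
          unfold phi at h3
          unfold uu
          simp only at h3
          rw [h3, mul_one]
        rw [h1, h2, if_pos h, hconst w h, ← hL1]
        rw [Int.cast_natCast, div_self card_ne_zero']
        push_cast
        ring
      · have hcond : (∃ v, phi w = phi v) ∧ phi w ≠ fun _ => 1 := ⟨⟨w, rfl⟩, h⟩
        have h1 : HW w s = H ⟨phi w, hcond⟩ s := dif_pos hcond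
        rw [h1, if_neg h, add_zero, ← hH2 ⟨phi w, hcond⟩ s hs]
        have hwt : C (wt (⟨phi w, hcond⟩ : IX n)) = C w :=
          (hcongr _ _ (wt_spec (⟨phi w, hcond⟩ : IX n))).symm
        have hsum1 : LSeriesSummable (fun N => (pc N : ℂ)) s := pc_summable hs
        have hsum2 : LSeriesSummable
            (fun N => ((((N : ℝ) ^ (-(1 / 4) : ℝ) * pc N : ℝ)) : ℂ)) s := by
          refine LSeriesSummable_of_bounded_of_one_lt_re (m := 1) (fun N hN => ?_) hs
          rw [Complex.norm_real, Real.norm_eq_abs, abs_mul, abs_of_nonneg (pc_nonneg N),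
            abs_of_nonneg (by positivity)]
          refine mul_le_one₀ ?_ (pc_nonneg N) (pc_le_one N)
          exact Real.rpow_le_one_of_one_le_of_nonpos
            (by exact_mod_cast Nat.one_le_iff_ne_zero.2 hN) (by norm_num)
        have hu : (fun N => ((uu x w N : ℝ) : ℂ)) = fun N =>
            (rr pwX (fun i : IX n => i.1) (fun i => (C (wt i) : ℝ) / Fintype.card (WG n)) x
              ⟨phi w, hcond⟩ N : ℂ) +
            ((C w : ℝ) / (Fintype.card (WG n) : ℝ) : ℝ) *
              ((pc N : ℂ) - ((((N : ℝ) ^ (-(1 / 4) : ℝ) * pc N : ℝ)) : ℂ)) := by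
          funext N
          rw [← Complex.ofReal_sub, ← Complex.ofReal_mul, ← Complex.ofReal_add]
          congr 1
          unfold uu rr pc
          by_cases hN : IsPrimePow N
          · rw [dif_pos hN, if_pos hN]
            have hp := Nat.minFac_prime hN.ne_one
            have h3 : xx x N.minFac = (x ⟨N.minFac, hp⟩).1 := by
              unfold xx
              rw [dif_pos hp]
            simp only [hwt, h3]
            unfold phi pwX
            simp only
            ring
          · rw [dif_neg hN, if_neg hN]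
            ring
        rw [hu]
        have hrr : LSeriesSummable (fun N => (rr pwX (fun i : IX n => i.1)
            (fun i => (C (wt i) : ℝ) / Fintype.card (WG n)) x ⟨phi w, hcond⟩ N : ℂ)) s := by
          have h4 := uu_summable x w hs
          rw [hu] at h4
          have h5 := (hsum1.sub hsum2).smul (((C w : ℝ) / (Fintype.card (WG n) : ℝ) : ℝ) : ℂ)
          have h6 := h4.sub h5
          refine (LSeriesSummable_congr s fun {N} _ => ?_).1 h6
          simp only [Pi.sub_apply, Pi.smul_apply, smul_eq_mul]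
          ring
        have h7 : LSeries (fun N =>
            (rr pwX (fun i : IX n => i.1) (fun i => (C (wt i) : ℝ) / Fintype.card (WG n)) x
              ⟨phi w, hcond⟩ N : ℂ) +
            ((C w : ℝ) / (Fintype.card (WG n) : ℝ) : ℝ) *
              ((pc N : ℂ) - ((((N : ℝ) ^ (-(1 / 4) : ℝ) * pc N : ℝ)) : ℂ))) s =
            LSeries (fun N => (rr pwX (fun i : IX n => i.1)
              (fun i => (C (wt i) : ℝ) / Fintype.card (WG n)) x ⟨phi w, hcond⟩ N : ℂ)) s +
            ((C w : ℝ) / (Fintype.card (WG n) : ℝ) : ℝ) * (L1 - L2) := by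
          rw [hL2, ← LSeries_shift s, hL1, ← LSeries_sub hsum1 hsum2, ← LSeries_smul,
            ← LSeries_add hrr ((hsum1.sub hsum2).smul _)]
          congr 1
        rw [h7]
        ring
    have hprod := factor_cf (fun N => (xx_isPt x N).1) m hs
    rw [sum_cf x hm hs] at hprod
    have hpi : ∀ p : Pr, (xx x p).factor m (((p : ℕ) : ℂ) ^ (-s)) =
        ((x p).1).factor m (((p : ℕ) : ℂ) ^ (-s)) := by
      intro p
      rw [xx_prime]
    simp only [hpi] at hprod
    have hval : (m.sum fun w e => (e : ℂ) * LSeries (fun N => ((uu x w N : ℝ) : ℂ)) s) =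
        a * (L1 - L2) + Z * L2 + ∑ w ∈ m.support, (m w : ℂ) * HW w s := by
      unfold Finsupp.sum
      have h1 : ((a : ℤ) : ℂ) = ∑ w ∈ m.support, (m w : ℂ) *
          ((C w : ℝ) / (Fintype.card (WG n) : ℝ) : ℝ) := by
        have h2 : ((Fintype.card (WG n) : ℕ) : ℂ) * a = ∑ w ∈ m.support, (m w : ℂ) * (C w : ℂ) := by
          unfold Finsupp.sum at ha
          exact_mod_cast ha
        have h3 : ((Fintype.card (WG n) : ℕ) : ℂ) ≠ 0 := by
          have := card_ne_zero' (n := n)
          exact_mod_cast this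
        have h4 : ∑ w ∈ m.support, (m w : ℂ) * ((C w : ℝ) / (Fintype.card (WG n) : ℝ) : ℝ) =
            (∑ w ∈ m.support, (m w : ℂ) * (C w : ℂ)) / ((Fintype.card (WG n) : ℕ) : ℂ) := by
          rw [Finset.sum_div]
          refine Finset.sum_congr rfl fun w _ => ?_
          push_cast
          ring
        rw [h4, ← h2, mul_div_cancel_left₀ _ h3]
      have h5 : ((Z : ℤ) : ℂ) = ∑ w ∈ m.support, (m w : ℂ) *
          (if (phi w = fun _ => 1) then (1 : ℂ) else 0) := by
        show ((∑ w ∈ m.support, (if (phi w = fun _ => 1) then m w else 0) : ℤ) : ℂ) = _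
        push_cast
        refine Finset.sum_congr rfl fun w _ => ?_
        split_ifs <;> simp
      rw [h1, h5, Finset.sum_mul, Finset.sum_mul, ← Finset.sum_add_distrib, ← Finset.sum_add_distrib]
      refine Finset.sum_congr rfl fun w _ => ?_
      dsimp only
      rw [hone w]
      split_ifs <;> ring
    rw [hval] at hprod
    have hfin : riemannZeta s ^ a * riemannZeta (s + 1 / 4) ^ (Z - a) *
        Complex.exp (∑ w ∈ m.support, (m w : ℂ) * HW w s) =
        Complex.exp (a * (L1 - L2) + Z * L2 + ∑ w ∈ m.support, (m w : ℂ) * HW w s) := by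
      rw [← exp_pc hs, ← exp_pc hs', ← hL1, ← hL2, ← Complex.exp_int_mul, ← Complex.exp_int_mul,
        ← Complex.exp_add, ← Complex.exp_add]
      congr 1
      push_cast
      ring
    rw [hfin]
    exact hprod

end Pool.Agent.EEAC
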