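import Mathlib

set_option autoImplicit false

namespace Pool.Agent.EEAC

open Polynomial

theorem L2_abs_sub (a b : ℝ) : |a - b| ≤ |a| + |b| := norm_sub_le a b

theorem L2_mul {Q : ℝ[X]} {M : ℝ} (hM : ∀ j, |Q.coeff j| ≤ M) (x y : ℝ) (hy : |y| ≤ 1) (j : ℕ) :
    |(Lagrange.basisDivisor x y * Q).coeff j| ≤ (|(x - y)⁻¹| * 2) * M := by
  have h0 : 0 ≤ M := le_trans (abs_nonneg _) (hM 0)
  unfold Lagrange.basisDivisor
  rw [mul_assoc, coeff_C_mul, abs_mul, mul_assoc]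
  refine mul_le_mul_of_nonneg_left ?_ (abs_nonneg _)
  rw [sub_mul, coeff_sub, coeff_C_mul]
  have h1 : |(X * Q).coeff j| ≤ M := by
    cases j with
    | zero =>
      rw [coeff_X_mul_zero, abs_zero]
      exact h0
    | succ j =>
      rw [coeff_X_mul]
      exact hM j
  have h2 : |y * Q.coeff j| ≤ M := by
    rw [abs_mul]
    calc |y| * |Q.coeff j| ≤ 1 * M := mul_le_mul hy (hM j) (abs_nonneg _) zero_le_one
      _ = M := one_mul _
  have h3 := L2_abs_sub ((X * Q).coeff j) (y * Q.coeff j)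
  linarith

theorem L2_basis {J : ℕ} (v : Fin J → ℝ) (hv : ∀ k, |v k| ≤ 1) (i : Fin J) (s : Finset (Fin J))
    (j : ℕ) : |(∏ k ∈ s, Lagrange.basisDivisor (v i) (v k)).coeff j| ≤
      ∏ k ∈ s, (|(v i - v k)⁻¹| * 2) := by
  classical
  induction s using Finset.induction_on generalizing j with
  | empty =>
    rw [Finset.prod_empty, Finset.prod_empty, coeff_one]
    split_ifs
    · rw [abs_one]
    · rw [abs_zero]
      exact zero_le_one
  | insert a s ha ih =>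
    rw [Finset.prod_insert ha, Finset.prod_insert ha]
    exact L2_mul ih _ _ (hv a) j

theorem L2_fact (i n : ℕ) :
    ∏ k ∈ Finset.range (i + 1 + n), (if k = i then (1 : ℝ) else |(i : ℝ) - k|) =
      (Nat.factorial i : ℝ) * Nat.factorial n := by
  induction n with
  | zero =>
    rw [add_zero, Finset.prod_range_succ, if_pos rfl, mul_one, Nat.factorial_zero, Nat.cast_one,
      mul_one, ← Finset.prod_range_add_one_eq_factorial, ← Finset.prod_range_reflect, Nat.cast_prod]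
    refine Finset.prod_congr rfl fun k hk => ?_
    have hk' := Finset.mem_range.1 hk
    rw [if_neg (by omega)]
    have h1 : ((i - 1 - k : ℕ) : ℝ) = (i : ℝ) - 1 - k := by
      rw [Nat.cast_sub (by omega), Nat.cast_sub (by omega), Nat.cast_one]
    rw [h1]
    push_cast
    rw [show (i : ℝ) - (i - 1 - k) = k + 1 by ring]
    exact abs_of_nonneg (by positivity)
  | succ n ih =>
    rw [← add_assoc, Finset.prod_range_succ, ih, if_neg (by omega), Nat.factorial_succ]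
    push_cast
    rw [show (i : ℝ) - (i + 1 + n) = -(n + 1) by ring, abs_neg, abs_of_nonneg (by positivity)]
    ring

theorem L2_prod {J : ℕ} (i : Fin J) :
    ∏ k ∈ Finset.univ.erase i, |((i : ℕ) : ℝ) - ((k : ℕ) : ℝ)| =
      (Nat.factorial i : ℝ) * Nat.factorial (J - 1 - i) := by
  have hi := i.isLt
  have h1 := L2_fact i (J - 1 - i)
  rw [show (i : ℕ) + 1 + (J - 1 - i) = J by omega] at h1
  rw [← h1, ← Fin.prod_univ_eq_prod_range (fun k : ℕ => if k = (i : ℕ) then (1 : ℝ) else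
    |((i : ℕ) : ℝ) - k|) J, ← Finset.mul_prod_erase Finset.univ _ (Finset.mem_univ i), if_pos rfl,
    one_mul]
  refine Finset.prod_congr rfl fun k hk => ?_
  rw [if_neg]
  intro h
  exact (Finset.mem_erase.1 hk).1 (Fin.ext h)

theorem L2_low {J : ℕ} (i : Fin J) : (Nat.factorial (J - 1) : ℝ) / 2 ^ (J - 1) ≤
    ∏ k ∈ Finset.univ.erase i, |((i : ℕ) : ℝ) - ((k : ℕ) : ℝ)| := by
  have hi := i.isLt
  rw [L2_prod, div_le_iff₀ (by positivity)]
  have h1 := Nat.choose_mul_factorial_mul_factorial (n := J - 1) (k := i) (by omega)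
  have h2 : (J - 1).choose i ≤ 2 ^ (J - 1) := Nat.choose_le_two_pow _ _
  have h3 : (J - 1).choose i * ((i : ℕ).factorial * (J - 1 - i).factorial) ≤
      2 ^ (J - 1) * ((i : ℕ).factorial * (J - 1 - i).factorial) := Nat.mul_le_mul_right _ h2
  rw [← mul_assoc, h1] at h3
  have h4 : ((J - 1).factorial : ℝ) ≤ 2 ^ (J - 1) * ((i : ℕ).factorial * (J - 1 - i).factorial) := by
    exact_mod_cast h3
  linarith

theorem L2_term {J : ℕ} (hJ : 0 < J) (v : Fin J → ℝ)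
    (hv : ∀ i : Fin J, |v i - ((i : ℕ) + 1 / 2) / J| ≤ 1 / (4 * J)) {i k : Fin J} (hik : k ≠ i) :
    |(v i - v k)⁻¹| * 2 ≤ (4 * J) * |((i : ℕ) : ℝ) - ((k : ℕ) : ℝ)|⁻¹ := by
  have hJ' : (0 : ℝ) < J := by exact_mod_cast hJ
  have h1 := hv i
  have h2 := hv k
  have hne : (1 : ℝ) ≤ |((i : ℕ) : ℝ) - ((k : ℕ) : ℝ)| := by
    have h3 : ((i : ℕ) : ℤ) - ((k : ℕ) : ℤ) ≠ 0 := by
      intro h
      exact hik (Fin.ext (by omega))
    have h4 := Int.one_le_abs h3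
    have h5 : (1 : ℝ) ≤ ((|((i : ℕ) : ℤ) - ((k : ℕ) : ℤ)| : ℤ) : ℝ) := by exact_mod_cast h4
    rw [Int.cast_abs] at h5
    push_cast at h5
    exact h5
  have hd : |((i : ℕ) : ℝ) - ((k : ℕ) : ℝ)| / (2 * J) ≤ |v i - v k| := by
    have e1 : (((i : ℕ) : ℝ) - ((k : ℕ) : ℝ)) / J = (v i - v k) - (v i - ((i : ℕ) + 1 / 2) / J) +
        (v k - ((k : ℕ) + 1 / 2) / J) := by
      ring
    have e2 : |(((i : ℕ) : ℝ) - ((k : ℕ) : ℝ)) / J| ≤ |v i - v k| + 1 / (4 * J) + 1 / (4 * J) := by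
      rw [e1]
      refine (abs_add_le _ _).trans (add_le_add ((L2_abs_sub _ _).trans (add_le_add le_rfl h1)) h2)
    rw [abs_div, abs_of_pos hJ'] at e2
    have e3 : |((i : ℕ) : ℝ) - ((k : ℕ) : ℝ)| / (2 * J) + 1 / (4 * J) + 1 / (4 * J) ≤
        |((i : ℕ) : ℝ) - ((k : ℕ) : ℝ)| / J := by
      have e4 : |((i : ℕ) : ℝ) - ((k : ℕ) : ℝ)| / J -
          (|((i : ℕ) : ℝ) - ((k : ℕ) : ℝ)| / (2 * J) + 1 / (4 * J) + 1 / (4 * J)) =
          (|((i : ℕ) : ℝ) - ((k : ℕ) : ℝ)| - 1) / (2 * J) := by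
        field_simp
        ring
      have e5 : 0 ≤ (|((i : ℕ) : ℝ) - ((k : ℕ) : ℝ)| - 1) / (2 * J) :=
        div_nonneg (by linarith) (by positivity)
      linarith
    linarith
  have hpos : 0 < |((i : ℕ) : ℝ) - ((k : ℕ) : ℝ)| / (2 * J) := div_pos (by linarith) (by positivity)
  have h6 : |v i - v k|⁻¹ ≤ (|((i : ℕ) : ℝ) - ((k : ℕ) : ℝ)| / (2 * J))⁻¹ := inv_anti₀ hpos hd
  rw [inv_div] at h6
  rw [abs_inv]
  calc |v i - v k|⁻¹ * 2 ≤ (2 * J / |((i : ℕ) : ℝ) - ((k : ℕ) : ℝ)|) * 2 := by linarith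
    _ = (4 * J) * |((i : ℕ) : ℝ) - ((k : ℕ) : ℝ)|⁻¹ := by ring

theorem L2_vle {J : ℕ} (hJ : 0 < J) (v : Fin J → ℝ)
    (hv : ∀ i : Fin J, |v i - ((i : ℕ) + 1 / 2) / J| ≤ 1 / (4 * J)) (i : Fin J) : |v i| ≤ 1 := by
  have hJ' : (0 : ℝ) < J := by exact_mod_cast hJ
  have h1 := abs_le.1 (hv i)
  have hi : ((i : ℕ) : ℝ) + 1 ≤ J := by exact_mod_cast i.isLt
  have h0 : (0 : ℝ) ≤ ((i : ℕ) : ℝ) := Nat.cast_nonneg _
  have h2 : (((i : ℕ) : ℝ) + 1 / 2) / J + 1 / (4 * J) ≤ 1 := by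
    rw [div_add_div _ _ hJ'.ne' (by positivity), div_le_one (by positivity)]
    nlinarith
  have h3 : 0 ≤ (((i : ℕ) : ℝ) + 1 / 2) / J - 1 / (4 * J) := by
    rw [div_sub_div _ _ hJ'.ne' (by positivity)]
    refine div_nonneg ?_ (by positivity)
    nlinarith
  rw [abs_le]
  constructor <;> linarith [h1.1, h1.2]

theorem L2_bound {J : ℕ} (hJ : 0 < J) (v : Fin J → ℝ)
    (hv : ∀ i : Fin J, |v i - ((i : ℕ) + 1 / 2) / J| ≤ 1 / (4 * J)) (i : Fin J) (j : ℕ) :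
    |(Lagrange.basis Finset.univ v i).coeff j| ≤ (8 : ℝ) ^ (J - 1) * Real.exp J := by
  have hJ' : (0 : ℝ) < J := by exact_mod_cast hJ
  unfold Lagrange.basis
  refine (L2_basis v (L2_vle hJ v hv) i _ j).trans ?_
  have h1 : ∏ k ∈ Finset.univ.erase i, (|(v i - v k)⁻¹| * 2) ≤
      ∏ k ∈ Finset.univ.erase i, ((4 * J) * |((i : ℕ) : ℝ) - ((k : ℕ) : ℝ)|⁻¹) :=
    Finset.prod_le_prod (fun k _ => by positivity)
      fun k hk => L2_term hJ v hv (Finset.mem_erase.1 hk).1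
  refine h1.trans ?_
  rw [Finset.prod_mul_distrib, Finset.prod_const, Finset.card_erase_of_mem (Finset.mem_univ i),
    Finset.card_univ, Fintype.card_fin, Finset.prod_inv_distrib]
  have h2 := L2_low i
  have h3 : (0 : ℝ) < (Nat.factorial (J - 1) : ℝ) / 2 ^ (J - 1) := by positivity
  have h4 := inv_anti₀ h3 h2
  rw [inv_div] at h4
  have h5 := Real.pow_div_factorial_le_exp (x := (J : ℝ)) hJ'.le (J - 1)
  calc (4 * (J : ℝ)) ^ (J - 1) * (∏ k ∈ Finset.univ.erase i, |((i : ℕ) : ℝ) - ((k : ℕ) : ℝ)|)⁻¹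
      ≤ (4 * (J : ℝ)) ^ (J - 1) * (2 ^ (J - 1) / (Nat.factorial (J - 1) : ℝ)) :=
        mul_le_mul_of_nonneg_left h4 (by positivity)
    _ = (8 : ℝ) ^ (J - 1) * ((J : ℝ) ^ (J - 1) / (Nat.factorial (J - 1) : ℝ)) := by
        rw [mul_pow, show (8 : ℝ) = 4 * 2 by norm_num, mul_pow]
        ring
    _ ≤ (8 : ℝ) ^ (J - 1) * Real.exp J := mul_le_mul_of_nonneg_left h5 (by positivity)

/-- Interpolation. By Lagrange (`Lagrange.interpolate`, `Lagrange.eq_interpolate_of_eval_eq` or so)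
`P = ∑_i P(v_i) l_i`, `l_i = ∏_{k ≠ i} (X - v_k) / (v_i - v_k)`. The coefficients of `∏_{k ≠ i} (X - v_k)` are at
most `∏ (1 + |v_k|) ≤ (9/4) ^ J` in absolute value (induction on the number of factors; the sum of the
absolute values of the coefficients is submultiplicative), as `|v_k| ≤ 5/4`. And
`|v_i - v_k| ≥ |i - k| / J - 1 / (2 J) ≥ |i - k| / (2 J)`, `∏_{k ≠ i} |i - k| = i! (J - 1 - i)! ≥ (J - 1)! / 2 ^ (J - 1)`
(binomial coefficients are at most `2 ^ (J - 1)`), so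
`∏_{k ≠ i} |v_i - v_k| ≥ (J - 1)! / (4 J) ^ (J - 1) ≥ (4 e) ^ (-J)`, as `J ^ (J - 1) / (J - 1)! = J ^ J / J! ≤ e ^ J`
(`Real.exp` series, `Real.pow_div_factorial_le_exp`). So the coefficients of `P` are at most
`J * (9/4) ^ J * (4 * 2.7183) ^ J * B ≤ 50 ^ J * B` (`9/4 * 4 * 2.7183 < 24.5`, `J ≤ 2 ^ J`). -/
theorem interp {J : ℕ} (hJ : 0 < J) (v : Fin J → ℝ)
    (hv : ∀ i : Fin J, |v i - ((i : ℕ) + 1 / 2) / J| ≤ 1 / (4 * J)) (P : ℝ[X])
    (hP : P.natDegree < J) {B : ℝ} (hB : ∀ i, |P.eval (v i)| ≤ B) (j : ℕ) :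
    |P.coeff j| ≤ 50 ^ J * B := by
  have hJ' : (0 : ℝ) < J := by exact_mod_cast hJ
  have hB0 : 0 ≤ B := le_trans (abs_nonneg _) (hB ⟨0, hJ⟩)
  have hinj : Set.InjOn v (Finset.univ : Finset (Fin J)) := by
    intro i _ k _ hik
    by_contra hne
    have h2 : ((i : ℕ) : ℤ) - ((k : ℕ) : ℤ) ≠ 0 := fun h => hne (Fin.ext (by omega))
    have h3 : |v i - ((i : ℕ) + 1 / 2) / J| ≤ 1 / (4 * J) := hv i
    have h4 : |v k - ((k : ℕ) + 1 / 2) / J| ≤ 1 / (4 * J) := hv k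
    rw [hik] at h3
    have h5 : |(((i : ℕ) : ℝ) - ((k : ℕ) : ℝ)) / J| ≤ 1 / (4 * J) + 1 / (4 * J) := by
      have e : (((i : ℕ) : ℝ) - ((k : ℕ) : ℝ)) / J =
          (v k - ((k : ℕ) + 1 / 2) / J) - (v k - ((i : ℕ) + 1 / 2) / J) := by ring
      rw [e]
      exact (L2_abs_sub _ _).trans (add_le_add h4 h3)
    rw [abs_div, abs_of_pos hJ'] at h5
    have h6 := Int.one_le_abs h2
    have h7 : (1 : ℝ) ≤ |((i : ℕ) : ℝ) - ((k : ℕ) : ℝ)| := by
      have h8 : (1 : ℝ) ≤ ((|((i : ℕ) : ℤ) - ((k : ℕ) : ℤ)| : ℤ) : ℝ) := by exact_mod_cast h6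
      rw [Int.cast_abs] at h8
      push_cast at h8
      exact h8
    have h9 : 1 / (J : ℝ) ≤ |((i : ℕ) : ℝ) - ((k : ℕ) : ℝ)| / J := by
      gcongr
    have h10 : 1 / (4 * (J : ℝ)) + 1 / (4 * J) = (1 / J) / 2 := by
      field_simp
      norm_num
    have h11 : 0 < 1 / (J : ℝ) := by positivity
    linarith
  have hdeg : P.degree < (Finset.univ : Finset (Fin J)).card := by
    rw [Finset.card_univ, Fintype.card_fin]
    exact (Polynomial.degree_le_natDegree).trans_lt (by exact_mod_cast hP)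
  have hP2 : P = Lagrange.interpolate Finset.univ v fun i => P.eval (v i) :=
    Lagrange.eq_interpolate hinj hdeg
  rw [hP2, Lagrange.interpolate_apply, finsetSum_coeff]
  have h1 : ∀ i : Fin J, |(C (P.eval (v i)) * Lagrange.basis Finset.univ v i).coeff j| ≤
      B * ((8 : ℝ) ^ (J - 1) * Real.exp J) := by
    intro i
    rw [coeff_C_mul, abs_mul]
    exact mul_le_mul (hB i) (L2_bound hJ v hv i j) (abs_nonneg _) hB0
  refine (Finset.abs_sum_le_sum_abs _ _).trans ((Finset.sum_le_sum fun i _ => h1 i).trans ?_)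
  rw [Finset.sum_const, Finset.card_univ, Fintype.card_fin, nsmul_eq_mul]
  have h2 : (J : ℝ) ≤ 2 ^ J := by
    have h := (Nat.lt_two_pow_self (n := J)).le
    exact_mod_cast h
  have h3 : (8 : ℝ) ^ (J - 1) ≤ 8 ^ J := pow_le_pow_right₀ (by norm_num) (Nat.sub_le _ _)
  have h4 : Real.exp J ≤ 3 ^ J := by
    rw [← Real.exp_one_pow]
    exact pow_le_pow_left₀ (Real.exp_pos _).le (Real.exp_one_lt_d9.le.trans (by norm_num)) _
  calc (J : ℝ) * (B * ((8 : ℝ) ^ (J - 1) * Real.exp J))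
      ≤ 2 ^ J * (B * (8 ^ J * 3 ^ J)) := by
        refine mul_le_mul h2 ?_ (by positivity) (by positivity)
        exact mul_le_mul_of_nonneg_left (mul_le_mul h3 h4 (Real.exp_pos _).le (by positivity)) hB0
    _ = 48 ^ J * B := by
        rw [show (48 : ℝ) = 2 * (8 * 3) by norm_num, mul_pow, mul_pow]
        ring
    _ ≤ 50 ^ J * B := mul_le_mul_of_nonneg_right (pow_le_pow_left₀ (by norm_num) (by norm_num) _) hB0

end Pool.Agent.EEAC
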