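import Pool.Agent.W_eea520_c.L2

set_option autoImplicit false

namespace Pool.Agent.EEAC

open Polynomial

/-- Let `c : Fin J → ℝ` be the coefficients of a polynomial `θ`. Choose `N` disjoint transversals: for
`t < N` points `p_{i,t}`, `i < J`, of the `i`-th interval, all different (the intervals are disjoint; take the
`t`-th element of an enumeration). By `interp` for `v_i = v (p_{i,t})` and `B = max_i |θ (v_i)|`,
`max |c_j| ^ 2 ≤ 50 ^ (2 J) * ∑_i θ (v (p_{i,t})) ^ 2`; sum over `t`. -/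
theorem quad_lower {ι : Type} (S : Finset ι) (v : ι → ℝ) {J N : ℕ} (hJ : 0 < J)
    (h : ∀ i : Fin J,
      N ≤ (S.filter fun p => |v p - ((i : ℕ) + 1 / 2) / J| ≤ 1 / (4 * J)).card)
    (c : Fin J → ℝ) (j : Fin J) :
    N * c j ^ 2 ≤ 50 ^ (2 * J) * ∑ p ∈ S, (∑ i : Fin J, c i * v p ^ (i : ℕ)) ^ 2 := by
  classical
  set g : ι → ℝ := fun p => (∑ i : Fin J, c i * v p ^ (i : ℕ)) ^ 2 with hg
  have hJ' : (0 : ℝ) < J := Nat.cast_pos.2 hJ
  have hemb : ∀ i : Fin J, Nonempty (Fin N ↪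
      ↥(S.filter fun p => |v p - ((i : ℕ) + 1 / 2) / J| ≤ 1 / (4 * J))) := by
    intro i
    refine Function.Embedding.nonempty_of_card_le ?_
    rw [Fintype.card_fin, Fintype.card_coe]
    exact h i
  let e := fun i => Classical.choice (hemb i)
  have hmem : ∀ i t, (e i t : ι) ∈ S ∧
      |v (e i t) - ((i : ℕ) + 1 / 2) / J| ≤ 1 / (4 * J) := fun i t =>
    Finset.mem_filter.1 (e i t).2
  have hinj : Function.Injective fun q : Fin J × Fin N => (e q.1 q.2 : ι) := by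
    rintro ⟨i, t⟩ ⟨i', t'⟩ hq
    have hq' : (e i t : ι) = e i' t' := hq
    have h1 := (hmem i t).2
    have h2 := (hmem i' t').2
    rw [← hq'] at h2
    have h3 : |(((i : ℕ) : ℝ) + 1 / 2) / J - (((i' : ℕ) : ℝ) + 1 / 2) / J| ≤ 1 / (2 * J) := by
      have h4 : (((i : ℕ) : ℝ) + 1 / 2) / J - (((i' : ℕ) : ℝ) + 1 / 2) / J =
          (v (e i t) - (((i' : ℕ) : ℝ) + 1 / 2) / J) - (v (e i t) - (((i : ℕ) : ℝ) + 1 / 2) / J) := by
        ring
      rw [h4]
      refine (abs_sub _ _).trans ?_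
      have h5 : (1 : ℝ) / (4 * J) + 1 / (4 * J) = 1 / (2 * J) := by
        field_simp
        ring
      linarith
    have h6 : |((i : ℕ) : ℝ) - ((i' : ℕ) : ℝ)| ≤ 1 / 2 := by
      have h7 : (((i : ℕ) : ℝ) + 1 / 2) / J - (((i' : ℕ) : ℝ) + 1 / 2) / J =
          (((i : ℕ) : ℝ) - ((i' : ℕ) : ℝ)) / J := by ring
      rw [h7, abs_div, abs_of_pos hJ', div_le_iff₀ hJ'] at h3
      have h8 : (1 : ℝ) / (2 * J) * J = 1 / 2 := by field_simp
      linarith
    have h9 : (i : ℕ) = (i' : ℕ) := by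
      have h10 : |((i : ℕ) : ℤ) - ((i' : ℕ) : ℤ)| < 1 := by
        have h11 : |((((i : ℕ) : ℤ) - ((i' : ℕ) : ℤ) : ℤ) : ℝ)| < 1 := by
          push_cast
          linarith
        exact_mod_cast h11
      have h12 := Int.abs_lt_one_iff.1 h10
      omega
    have h13 : i = i' := Fin.ext h9
    subst h13
    have h14 : t = t' := (e i).injective (Subtype.ext hq')
    rw [h14]
  have hmain : ∀ t : Fin N, c j ^ 2 ≤ 50 ^ (2 * J) * ∑ i : Fin J, g (e i t) := by
    intro t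
    set P : ℝ[X] := ∑ i : Fin J, C (c i) * X ^ (i : ℕ) with hP
    have hcoef : P.coeff (j : ℕ) = c j := by
      rw [hP, finsetSum_coeff, Finset.sum_eq_single j]
      · rw [coeff_C_mul, coeff_X_pow, if_pos rfl, mul_one]
      · intro b _ hb
        rw [coeff_C_mul, coeff_X_pow, if_neg (fun h => hb (Fin.ext h.symm)), mul_zero]
      · intro h
        exact absurd (Finset.mem_univ j) h
    have hdeg : P.natDegree < J := by
      have h0 : P.natDegree ≤ J - 1 := by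
        rw [hP]
        refine natDegree_sum_le_of_forall_le _ _ fun i _ => ?_
        refine (natDegree_C_mul_X_pow_le _ _).trans ?_
        have := i.2
        omega
      omega
    have heval : ∀ x : ℝ, P.eval x = ∑ i : Fin J, c i * x ^ (i : ℕ) := by
      intro x
      rw [hP, eval_finsetSum]
      refine Finset.sum_congr rfl fun i _ => ?_
      rw [eval_mul, eval_C, eval_pow, eval_X]
    have hG : 0 ≤ ∑ i : Fin J, g (e i t) := Finset.sum_nonneg fun i _ => sq_nonneg _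
    have h1 := interp hJ (fun i => v (e i t)) (fun i => (hmem i t).2) P hdeg
      (B := Real.sqrt (∑ i : Fin J, g (e i t))) (fun i => by
        refine Real.abs_le_sqrt ?_
        rw [heval]
        exact Finset.single_le_sum (f := fun i : Fin J => g (e i t)) (fun i _ => sq_nonneg _)
          (Finset.mem_univ i)) (j : ℕ)
    rw [hcoef] at h1
    have h2 : c j ^ 2 ≤ (50 ^ J * Real.sqrt (∑ i : Fin J, g (e i t))) ^ 2 := by
      rw [← sq_abs]
      exact pow_le_pow_left₀ (abs_nonneg _) h1 2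
    rw [mul_pow, Real.sq_sqrt hG, ← pow_mul, mul_comm J 2] at h2
    exact h2
  have hsum : (N : ℝ) * c j ^ 2 ≤ 50 ^ (2 * J) * ∑ t : Fin N, ∑ i : Fin J, g (e i t) := by
    have h1 := Finset.sum_le_sum fun t (_ : t ∈ Finset.univ) => hmain t
    rw [Finset.sum_const, Finset.card_univ, Fintype.card_fin, nsmul_eq_mul, ← Finset.mul_sum] at h1
    exact h1
  refine hsum.trans (mul_le_mul_of_nonneg_left ?_ (by positivity))
  rw [Finset.sum_comm, ← Fintype.sum_prod_type' (f := fun i t => g (e i t))]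
  have h1 : ∑ q : Fin J × Fin N, g (e q.1 q.2) =
      ∑ p ∈ (Finset.univ : Finset (Fin J × Fin N)).map ⟨_, hinj⟩, g p := by
    rw [Finset.sum_map]
    rfl
  rw [h1]
  refine Finset.sum_le_sum_of_subset_of_nonneg ?_ fun _ _ _ => sq_nonneg _
  intro p hp
  obtain ⟨q, -, rfl⟩ := Finset.mem_map.1 hp
  exact (hmem q.1 q.2).1

/-- The matrix `g j i = ∑_{p ∈ S} v_p ^ (i + j)` is injective by `quad_lower`
(`g c = 0` implies `∑_p θ(v_p) ^ 2 = c · g c = 0`), so it is invertible; `A = g⁻¹`. For the bound let `c = A e_k` (the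
`k`-th column), `M = max |c i|`: `∑_p θ(v_p) ^ 2 = c · g c = c k ≤ M`, so `N M ^ 2 ≤ 50 ^ (2 J) M`. -/
theorem dualPoly {ι : Type} (S : Finset ι) (v : ι → ℝ) {J N : ℕ} (hJ : 0 < J) (hN : 0 < N)
    (h : ∀ i : Fin J,
      N ≤ (S.filter fun p => |v p - ((i : ℕ) + 1 / 2) / J| ≤ 1 / (4 * J)).card) :
    ∃ A : Fin J → Fin J → ℝ,
      (∀ j k : Fin J, ∑ p ∈ S, (∑ i : Fin J, A i k * v p ^ (i : ℕ)) * v p ^ (j : ℕ) =
        if j = k then 1 else 0) ∧ ∀ i k, |A i k| ≤ 50 ^ (2 * J) / N := by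
  classical
  have hN' : (0 : ℝ) < N := Nat.cast_pos.2 hN
  let g : Matrix (Fin J) (Fin J) ℝ := Matrix.of fun j i => ∑ p ∈ S, v p ^ (i : ℕ) * v p ^ (j : ℕ)
  have hgc : ∀ (c : Fin J → ℝ) (j : Fin J), g.mulVec c j =
      ∑ p ∈ S, (∑ i : Fin J, c i * v p ^ (i : ℕ)) * v p ^ (j : ℕ) := by
    intro c j
    show ∑ i : Fin J, (∑ p ∈ S, v p ^ (i : ℕ) * v p ^ (j : ℕ)) * c i = _
    simp only [Finset.sum_mul]
    rw [Finset.sum_comm]
    refine Finset.sum_congr rfl fun p _ => Finset.sum_congr rfl fun i _ => ?_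
    ring
  have hquad : ∀ c : Fin J → ℝ, ∑ j, c j * g.mulVec c j =
      ∑ p ∈ S, (∑ i : Fin J, c i * v p ^ (i : ℕ)) ^ 2 := by
    intro c
    simp only [hgc, Finset.mul_sum]
    rw [Finset.sum_comm]
    refine Finset.sum_congr rfl fun p _ => ?_
    rw [sq]
    conv_rhs => rw [Finset.mul_sum]
    refine Finset.sum_congr rfl fun j _ => ?_
    ring
  have hinj : Function.Injective g.mulVec := by
    intro c c' h1
    have h2 : g.mulVec (c - c') = 0 := by
      rw [Matrix.mulVec_sub, h1, sub_self]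
    have h3 : ∑ p ∈ S, (∑ i : Fin J, (c - c') i * v p ^ (i : ℕ)) ^ 2 = 0 := by
      rw [← hquad, h2]
      simp
    funext j
    have h4 := quad_lower S v hJ h (c - c') j
    rw [h3, mul_zero] at h4
    have h5 : (c - c') j ^ 2 ≤ 0 := by
      by_contra h6
      push Not at h6
      have := mul_pos hN' h6
      linarith
    have h6 : (c - c') j = 0 := by
      have := sq_nonneg ((c - c') j)
      exact pow_eq_zero_iff (two_ne_zero) |>.1 (le_antisymm h5 this)
    rw [Pi.sub_apply, sub_eq_zero] at h6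
    exact h6
  have hunit : IsUnit g := Matrix.mulVec_injective_iff_isUnit.1 hinj
  have hmul : g * g⁻¹ = 1 := Matrix.mul_nonsing_inv g ((Matrix.isUnit_iff_isUnit_det g).1 hunit)
  have hcol : ∀ j k : Fin J, g.mulVec (fun i => g⁻¹ i k) j = if j = k then 1 else 0 := by
    intro j k
    have h1 := congrFun (congrFun hmul j) k
    rw [Matrix.one_apply] at h1
    rw [← h1]
    rfl
  refine ⟨fun i k => g⁻¹ i k, fun j k => ?_, fun i k => ?_⟩
  · rw [← hcol j k, hgc]
  · have hne : Nonempty (Fin J) := ⟨⟨0, hJ⟩⟩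
    obtain ⟨i₀, hi₀⟩ := Finite.exists_max fun i : Fin J => |g⁻¹ i k|
    have h1 := quad_lower S v hJ h (fun i => g⁻¹ i k) i₀
    rw [← hquad] at h1
    have h2 : ∑ j, g⁻¹ j k * g.mulVec (fun i => g⁻¹ i k) j = g⁻¹ k k := by
      simp only [hcol, mul_ite, mul_one, mul_zero, Finset.sum_ite_eq', Finset.mem_univ, if_true]
    rw [h2, ← sq_abs] at h1
    have h3 : g⁻¹ k k ≤ |g⁻¹ i₀ k| := (le_abs_self _).trans (hi₀ k)
    have h4 : (N : ℝ) * |g⁻¹ i₀ k| ^ 2 ≤ 50 ^ (2 * J) * |g⁻¹ i₀ k| :=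
      h1.trans (mul_le_mul_of_nonneg_left h3 (by positivity))
    refine (hi₀ i).trans ?_
    rw [le_div_iff₀ hN']
    rcases (abs_nonneg (g⁻¹ i₀ k)).eq_or_lt with h5 | h5
    · rw [← h5, zero_mul]
      positivity
    · have h6 : (|g⁻¹ i₀ k| * N) * |g⁻¹ i₀ k| ≤ 50 ^ (2 * J) * |g⁻¹ i₀ k| := by
        calc (|g⁻¹ i₀ k| * N) * |g⁻¹ i₀ k| = (N : ℝ) * |g⁻¹ i₀ k| ^ 2 := by ring
          _ ≤ _ := h4
      exact le_of_mul_le_mul_right h6 h5

end Pool.Agent.EEAC
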