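import Pool.Agent.W_eea520_c.C0

set_option autoImplicit false

namespace Pool.Agent.EEAC

theorem L4_rel {ι κ Q : Type} [Fintype κ] (S : Finset ι) (A : ι → Finset Q)
    (u : ι → Q → κ → ℝ) (hc : Fintype.card κ + S.card < ∑ p ∈ S, (A p).card) :
    ∃ r : ι → Q → ℝ, (∀ p q, r p q ≠ 0 → q ∈ A p) ∧ (∀ p ∈ S, ∑ q ∈ A p, r p q = 0) ∧
      (∀ k, ∑ p ∈ S, ∑ q ∈ A p, r p q * u p q k = 0) ∧ ∃ p ∈ S, ∃ q ∈ A p, r p q ≠ 0 := by
  classical
  obtain ⟨P, hP⟩ : ∃ P : Finset (Σ _ : ι, Q), P = S.sigma A := ⟨_, rfl⟩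
  obtain ⟨M, hM⟩ : ∃ M : Matrix (κ ⊕ S) P ℝ, M = Matrix.of fun i x =>
    Sum.elim (fun k => u x.1.1 x.1.2 k) (fun p => if x.1.1 = p.1 then 1 else 0) i := ⟨_, rfl⟩
  have h1 : LinearMap.ker M.mulVecLin ≠ ⊥ := by
    apply LinearMap.ker_ne_bot_of_finrank_lt
    rw [Module.finrank_fintype_fun_eq_card, Module.finrank_fintype_fun_eq_card, Fintype.card_sum,
      Fintype.card_coe, Fintype.card_coe, hP, Finset.card_sigma]
    exact hc
  obtain ⟨v, hv, hv0⟩ := (Submodule.ne_bot_iff _).1 h1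
  rw [LinearMap.mem_ker, Matrix.mulVecLin_apply] at hv
  obtain ⟨r, hr⟩ : ∃ r : ι → Q → ℝ, r = fun p q =>
    if h : (⟨p, q⟩ : Σ _ : ι, Q) ∈ P then v ⟨⟨p, q⟩, h⟩ else 0 := ⟨_, rfl⟩
  have hrv : ∀ x : P, r x.1.1 x.1.2 = v x := by
    intro x
    have h2 : (⟨x.1.1, x.1.2⟩ : Σ _ : ι, Q) ∈ P := x.2
    rw [hr]
    exact dif_pos h2
  have hmem : ∀ p q, r p q ≠ 0 → p ∈ S ∧ q ∈ A p := by
    intro p q h2
    by_cases h3 : (⟨p, q⟩ : Σ _ : ι, Q) ∈ P
    · rw [hP, Finset.mem_sigma] at h3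
      exact h3
    · exact absurd (by rw [hr]; exact dif_neg h3) h2
  have hsum : ∀ F : ι → Q → ℝ, ∑ x : P, v x * F x.1.1 x.1.2 =
      ∑ p ∈ S, ∑ q ∈ A p, r p q * F p q := by
    intro F
    have h2 : ∑ x : P, v x * F x.1.1 x.1.2 = ∑ x : P, r x.1.1 x.1.2 * F x.1.1 x.1.2 :=
      Finset.sum_congr rfl fun x _ => by rw [hrv x]
    rw [h2, Finset.sum_coe_sort P (fun x : Σ _ : ι, Q => r x.1 x.2 * F x.1 x.2), hP,
      Finset.sum_sigma]
  refine ⟨r, fun p q h => (hmem p q h).2, ?_, ?_, ?_⟩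
  · intro p hp
    have h2 := congrFun hv (Sum.inr ⟨p, hp⟩)
    simp only [Matrix.mulVec, dotProduct, hM, Matrix.of_apply, Sum.elim_inr, Pi.zero_apply] at h2
    have h3 := hsum fun p' _ => if p' = p then 1 else 0
    have h4 : ∑ x : P, v x * (if x.1.1 = p then (1 : ℝ) else 0) = 0 := by
      refine Eq.trans ?_ h2
      exact Finset.sum_congr rfl fun x _ => mul_comm _ _
    rw [h4] at h3
    rw [Finset.sum_eq_single p] at h3
    · simpa using h3.symm
    · intro p' _ hp'
      simp [hp']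
    · intro h5
      exact absurd hp h5
  · intro k
    have h2 := congrFun hv (Sum.inl k)
    simp only [Matrix.mulVec, dotProduct, hM, Matrix.of_apply, Sum.elim_inl, Pi.zero_apply] at h2
    have h3 := hsum fun p q => u p q k
    rw [← h3, ← h2]
    exact Finset.sum_congr rfl fun x _ => mul_comm _ _
  · obtain ⟨x, hx⟩ := Function.ne_iff.1 hv0
    have h3 : r x.1.1 x.1.2 ≠ 0 := by
      rw [hrv]
      exact hx
    exact ⟨x.1.1, (hmem _ _ h3).1, x.1.2, (hmem _ _ h3).2, h3⟩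

/-- The weights `w` are feasible. -/
def L4_ok {ι κ Q : Type} (S : Finset ι) (lam : ι → Q →₀ ℝ) (u : ι → Q → κ → ℝ)
    (w : ι → Q →₀ ℝ) : Prop :=
  (∀ p ∈ S, IsProb (w p)) ∧ (∀ p ∈ S, (w p).support ⊆ (lam p).support) ∧
    (∀ k, ∑ p ∈ S, ((w p).sum fun q a => a * u p q k) =
      ∑ p ∈ S, (lam p).sum fun q a => a * u p q k)

theorem L4_step {ι κ Q : Type} [Fintype κ] (S : Finset ι) (lam : ι → Q →₀ ℝ)
    (u : ι → Q → κ → ℝ) (w : ι → Q →₀ ℝ) (hw : L4_ok S lam u w)
    (hc : Fintype.card κ + S.card < ∑ p ∈ S, (w p).support.card) :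
    ∃ w' : ι → Q →₀ ℝ, L4_ok S lam u w' ∧
      ∑ p ∈ S, (w' p).support.card < ∑ p ∈ S, (w p).support.card := by
  classical
  obtain ⟨r, hr1, hr2, hr3, p0, hp0, q0, hq0, hr0⟩ :=
    L4_rel S (fun p => (w p).support) u hc
  obtain ⟨q1, hq1, hq1r⟩ : ∃ q ∈ (w p0).support, 0 < r p0 q := by
    by_contra hcon
    push Not at hcon
    have h1 := (Finset.sum_eq_zero_iff_of_nonpos (fun q hq => hcon q hq)).1 (hr2 p0 hp0) q0 hq0
    exact hr0 h1
  obtain ⟨P, hP⟩ : ∃ P : Finset (Σ _ : ι, Q),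
    P = (S.sigma fun p => (w p).support).filter (fun x => 0 < r x.1 x.2) := ⟨_, rfl⟩
  have hPm : ∀ p q, (⟨p, q⟩ : Σ _ : ι, Q) ∈ P ↔ (p ∈ S ∧ q ∈ (w p).support) ∧ 0 < r p q := by
    intro p q
    rw [hP, Finset.mem_filter, Finset.mem_sigma]
  have hPn : P.Nonempty := ⟨⟨p0, q1⟩, (hPm p0 q1).2 ⟨⟨hp0, hq1⟩, hq1r⟩⟩
  obtain ⟨⟨p2, q2⟩, hx, hmin⟩ := Finset.exists_min_image P (fun x => w x.1 x.2 / r x.1 x.2) hPn
  obtain ⟨⟨hp2, hq2⟩, hr2'⟩ := (hPm p2 q2).1 hx
  obtain ⟨t, ht⟩ : ∃ t : ℝ, t = w p2 q2 / r p2 q2 := ⟨_, rfl⟩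
  have ht0 : 0 ≤ t := by
    rw [ht]
    exact div_nonneg ((hw.1 p2 hp2).1 q2) hr2'.le
  have hsupp : ∀ p q, w p q - t * r p q ≠ 0 → q ∈ (w p).support := by
    intro p q h
    by_contra hq
    apply h
    have h1 : r p q = 0 := by
      by_contra h2
      exact hq (hr1 p q h2)
    rw [h1, Finsupp.notMem_support_iff.1 hq]
    ring
  obtain ⟨w', hw'⟩ : ∃ w' : ι → Q →₀ ℝ, w' = fun p =>
    Finsupp.onFinset (w p).support (fun q => w p q - t * r p q) (hsupp p) := ⟨_, rfl⟩
  have happ : ∀ p q, w' p q = w p q - t * r p q := by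
    intro p q
    rw [hw']
    rfl
  have hsub : ∀ p, (w' p).support ⊆ (w p).support := by
    intro p
    rw [hw']
    exact Finsupp.support_onFinset_subset
  have hsum : ∀ p, ∀ g : Q → ℝ, ((w' p).sum fun q a => a * g q) =
      ((w p).sum fun q a => a * g q) - t * ∑ q ∈ (w p).support, r p q * g q := by
    intro p g
    rw [Finsupp.sum_of_support_subset (w' p) (hsub p) (fun q a => a * g q)
      (fun q _ => zero_mul _), Finsupp.sum, Finset.mul_sum, ← Finset.sum_sub_distrib]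
    refine Finset.sum_congr rfl fun q _ => ?_
    rw [happ]
    ring
  refine ⟨w', ⟨?_, ?_, ?_⟩, ?_⟩
  · intro p hp
    refine ⟨?_, ?_⟩
    · intro q
      rw [happ]
      have h0 := (hw.1 p hp).1 q
      rcases le_or_gt (r p q) 0 with h1 | h1
      · nlinarith
      · have h2 : q ∈ (w p).support := hr1 p q h1.ne'
        have h3 := hmin ⟨p, q⟩ ((hPm p q).2 ⟨⟨hp, h2⟩, h1⟩)
        rw [← ht] at h3
        have h4 := (le_div_iff₀ h1).1 h3
        linarith
    · have h1 := hsum p fun _ => 1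
      simp only [mul_one] at h1
      rw [h1, hr2 p hp, (hw.1 p hp).2]
      ring
  · intro p hp
    exact (hsub p).trans (hw.2.1 p hp)
  · intro k
    rw [← hw.2.2 k]
    have h1 : ∀ p ∈ S, ((w' p).sum fun q a => a * u p q k) =
        ((w p).sum fun q a => a * u p q k) - t * ∑ q ∈ (w p).support, r p q * u p q k :=
      fun p _ => hsum p fun q => u p q k
    rw [Finset.sum_congr rfl h1, Finset.sum_sub_distrib, ← Finset.mul_sum, hr3 k]
    ring
  · refine Finset.sum_lt_sum (fun p _ => Finset.card_le_card (hsub p)) ⟨p2, hp2, ?_⟩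
    refine Finset.card_lt_card ⟨hsub p2, fun h => ?_⟩
    have h1 := Finsupp.mem_support_iff.1 (h hq2)
    apply h1
    rw [happ, ht, div_mul_cancel₀ _ hr2'.ne', sub_self]

/-- Vertices. Among all `w : ι → Q →₀ ℝ` with `w p ≥ 0`, `∑_q w p q = 1` (`p ∈ S`), support of `w p` inside the
support of `lam p`, and `∑_p ∑_q w p q • u p q = ∑_p ∑_q lam p q • u p q`, take one with the smallest total number
of points in the supports. The vectors `(u p q, e_p) ∈ ℝ ^ κ × ℝ ^ S`, `q` in the support of `w p`, are linearly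
independent: otherwise there is a relation `∑ r_{p,q} (u p q, e_p) = 0`, and `w - t r` for the largest `t` for
which it is not negative (or for `-r`) has fewer points. (Or: `Caratheodory` in Mathlib,
`eq_pos_convex_span_of_mem_convexHull`, for the point `(1 / |S|) ∑ w p q (u p q, e_p)`.) So the number of points
is at most `card κ + card S`, and all but at most `card κ` of the `p` have only one point. -/
theorem vertex {ι κ Q : Type} [Fintype κ] (S : Finset ι) (lam : ι → Q →₀ ℝ)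
    (h : ∀ p ∈ S, IsProb (lam p)) (u : ι → Q → κ → ℝ) :
    ∃ w : ι → Q →₀ ℝ, (∀ p ∈ S, IsProb (w p)) ∧ (∀ p ∈ S, (w p).support ⊆ (lam p).support) ∧
      (∀ k, ∑ p ∈ S, ((w p).sum fun q a => a * u p q k) =
        ∑ p ∈ S, (lam p).sum fun q a => a * u p q k) ∧
      (∑ p ∈ S, (w p).support.card) ≤ Fintype.card κ + S.card := by
  have main : ∀ n : ℕ, ∀ w : ι → Q →₀ ℝ, L4_ok S lam u w →
      ∑ p ∈ S, (w p).support.card = n →
      ∃ w' : ι → Q →₀ ℝ, L4_ok S lam u w' ∧
        ∑ p ∈ S, (w' p).support.card ≤ Fintype.card κ + S.card := by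
    intro n
    induction n using Nat.strong_induction_on with
    | _ n ih =>
      intro w hw hn
      by_cases hc : ∑ p ∈ S, (w p).support.card ≤ Fintype.card κ + S.card
      · exact ⟨w, hw, hc⟩
      · push Not at hc
        obtain ⟨w', hw', hlt⟩ := L4_step S lam u w hw hc
        exact ih _ (hn ▸ hlt) w' hw' rfl
  obtain ⟨w, hw, hc⟩ := main _ lam ⟨h, fun p _ => Finset.Subset.refl _, fun k => rfl⟩ rfl
  exact ⟨w, hw.1, hw.2.1, hw.2.2, hc⟩

/-- Rounding. Take `w` from `vertex`, and for every `p` any point `q p` of the support of `w p`. For all but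
at most `card κ` of the `p` the support is `{q p}`, so `w p` is the Dirac measure; the others contribute an
error of at most `2 B` each. -/
theorem rounding {ι κ Q : Type} [Fintype κ] (S : Finset ι) (lam : ι → Q →₀ ℝ)
    (h : ∀ p ∈ S, IsProb (lam p)) (u : ι → Q → κ → ℝ) {B : ℝ} (hB0 : 0 ≤ B)
    (hB : ∀ p ∈ S, ∀ q ∈ (lam p).support, ∀ k, |u p q k| ≤ B) :
    ∃ q : S → Q, (∀ p : S, q p ∈ (lam p).support) ∧
      ∀ k, |∑ p : S, u p (q p) k - ∑ p ∈ S, (lam p).sum fun x a => a * u p x k| ≤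
        2 * Fintype.card κ * B := by
  classical
  obtain ⟨w, hw1, hw2, hw3, hw4⟩ := vertex S lam h u
  have hne : ∀ p : S, ∃ q, q ∈ (w p).support := by
    intro p
    have h1 := (hw1 p p.2).2
    by_contra hcon
    push Not at hcon
    have h2 : (w p).support = ∅ := Finset.eq_empty_of_forall_notMem hcon
    rw [Finsupp.sum, h2, Finset.sum_empty] at h1
    exact zero_ne_one h1
  choose q hq using hne
  refine ⟨q, fun p => hw2 p p.2 (hq p), fun k => ?_⟩
  rw [← hw3 k, ← Finset.sum_coe_sort S (fun p => (w p).sum fun x a => a * u p x k),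
    ← Finset.sum_sub_distrib]
  have hone : ∀ p : S, |u p (q p) k - (w p).sum fun x a => a * u p x k| ≤
      2 * B * ((w p).support.card - 1) := by
    intro p
    have hcp : 0 < (w p).support.card := Finset.card_pos.2 ⟨_, hq p⟩
    rcases Nat.lt_or_ge 1 (w p).support.card with h1 | h1
    · have h2 : (2 : ℝ) ≤ ((w p).support.card : ℝ) := by exact_mod_cast h1
      have h3 : |u p (q p) k| ≤ B := hB p p.2 _ (hw2 p p.2 (hq p)) k
      have h4 : |(w p).sum fun x a => a * u p x k| ≤ B := by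
        calc |(w p).sum fun x a => a * u p x k| ≤ ∑ x ∈ (w p).support, |w p x * u p x k| :=
              Finset.abs_sum_le_sum_abs _ _
          _ ≤ ∑ x ∈ (w p).support, w p x * B := by
              refine Finset.sum_le_sum fun x hx => ?_
              rw [abs_mul, abs_of_nonneg ((hw1 p p.2).1 x)]
              exact mul_le_mul_of_nonneg_left (hB p p.2 x (hw2 p p.2 hx) k) ((hw1 p p.2).1 x)
          _ = B := by
              have h5 := (hw1 p p.2).2
              rw [Finsupp.sum] at h5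
              rw [← Finset.sum_mul, h5, one_mul]
      have h6 := abs_sub (u p (q p) k) ((w p).sum fun x a => a * u p x k)
      nlinarith
    · have h2 : (w p).support.card = 1 := le_antisymm h1 hcp
      obtain ⟨x, hx⟩ := Finset.card_eq_one.1 h2
      have h3 : q p = x := by
        have := hq p
        rw [hx, Finset.mem_singleton] at this
        exact this
      have h4 := (hw1 p p.2).2
      rw [Finsupp.sum, hx, Finset.sum_singleton] at h4
      rw [Finsupp.sum, hx, Finset.sum_singleton, h3, h4, one_mul, sub_self, abs_zero]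
      simp
  refine (Finset.abs_sum_le_sum_abs _ _).trans ((Finset.sum_le_sum fun p _ => hone p).trans ?_)
  rw [← Finset.mul_sum, Finset.sum_sub_distrib,
    Finset.sum_coe_sort S (fun p => ((w p).support.card : ℝ)), Finset.sum_const,
    Finset.card_univ, Fintype.card_coe, nsmul_eq_mul, mul_one]
  have h5 : (∑ p ∈ S, ((w p).support.card : ℝ)) ≤ Fintype.card κ + S.card := by
    exact_mod_cast hw4
  nlinarith

end Pool.Agent.EEAC
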