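import Pool.Agent.W_eea520_c.C0
import Pool.Agent.W_eea520_G.N1

set_option autoImplicit false

namespace Pool.Agent.EEAC

open Filter Topology Pool.Agent.EEA520

/-- Primes in short intervals, from the prime number theorem (`Pool.Agent.W_pnt_h80.theta_tendsto` in
`W_eea520_G/N1.lean`: `θ(x) / x → 1`; `Chebyshev.theta`). For large `a`,
`θ(e ^ (a + h)) - θ(e ^ a) ≥ (e ^ h - 1) / 2 * e ^ a` (choose `ε` with `ε (1 + e ^ h) ≤ (e ^ h - 1) / 2`), and this
is at most `(a + h)` times the number of primes `p` with `e ^ a < p ≤ e ^ (a + h)`. -/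
theorem primes_short (h : ℝ) (hh : 0 < h) : ∃ a₀ : ℝ, ∀ a : ℝ, a₀ ≤ a → ∀ S : Finset Pr,
    (∀ p : Pr, a ≤ Real.log ((p : ℕ) : ℝ) → Real.log ((p : ℕ) : ℝ) ≤ a + h → p ∈ S) →
    Real.exp (9 / 10 * a) ≤
      (S.filter fun p : Pr => a ≤ Real.log ((p : ℕ) : ℝ) ∧
        Real.log ((p : ℕ) : ℝ) ≤ a + h).card := by
  classical
  have hpnt := Pool.Agent.W_pnt_h80.theta_tendsto
  obtain ⟨E, hE⟩ : ∃ E : ℝ, E = Real.exp h := ⟨_, rfl⟩
  have hE1 : 1 < E := by
    rw [hE]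
    exact Real.one_lt_exp_iff.2 hh
  obtain ⟨c, hc⟩ : ∃ c : ℝ, c = (E - 1) / 2 := ⟨_, rfl⟩
  have hc0 : 0 < c := by
    rw [hc]
    linarith
  obtain ⟨ε, hε⟩ : ∃ ε : ℝ, ε = c / (1 + E) := ⟨_, rfl⟩
  have hε0 : 0 < ε := by
    rw [hε]
    positivity
  have hεE : ε * (1 + E) = c := by
    rw [hε]
    field_simp
  have h1 : ∀ᶠ x : ℝ in atTop, |Chebyshev.theta x / x - 1| < ε := by
    have h2 := (Metric.tendsto_nhds.1 hpnt) ε hε0
    simpa [Real.dist_eq] using h2
  obtain ⟨x₀, hx₀⟩ := eventually_atTop.1 h1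
  refine ⟨max (max x₀ 1) (max h (400 / c)), fun a ha S hS => ?_⟩
  have ha1 : x₀ ≤ a := (le_max_left _ _).trans ((le_max_left _ _).trans ha)
  have ha2 : 1 ≤ a := (le_max_right _ _).trans ((le_max_left _ _).trans ha)
  have ha3 : h ≤ a := (le_max_left _ _).trans ((le_max_right _ _).trans ha)
  have ha4 : 400 / c ≤ a := (le_max_right _ _).trans ((le_max_right _ _).trans ha)
  obtain ⟨X, hX⟩ : ∃ X : ℝ, X = Real.exp a := ⟨_, rfl⟩
  obtain ⟨Y, hY⟩ : ∃ Y : ℝ, Y = Real.exp (a + h) := ⟨_, rfl⟩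
  have hX0 : 0 < X := by
    rw [hX]
    exact Real.exp_pos _
  have hYX : Y = E * X := by
    rw [hY, hE, hX, Real.exp_add]
    ring
  have hXY : X ≤ Y := by
    rw [hYX]
    nlinarith
  have hY0 : 0 < Y := hX0.trans_le hXY
  have haX : a ≤ X := by
    rw [hX]
    have := Real.add_one_le_exp a
    linarith
  have hθX : Chebyshev.theta X ≤ (1 + ε) * X := by
    have h2 := (abs_lt.1 (hx₀ X (ha1.trans haX))).2
    have h3 : Chebyshev.theta X / X < 1 + ε := by linarith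
    rw [div_lt_iff₀ hX0] at h3
    exact h3.le
  have hθY : (1 - ε) * Y ≤ Chebyshev.theta Y := by
    have h2 := (abs_lt.1 (hx₀ Y ((ha1.trans haX).trans hXY))).1
    have h3 : 1 - ε < Chebyshev.theta Y / Y := by linarith
    rw [lt_div_iff₀ hY0] at h3
    exact h3.le
  have hdiff : c * X ≤ Chebyshev.theta Y - Chebyshev.theta X := by
    have h2 : (1 - ε) * Y - (1 + ε) * X = c * X := by
      rw [hYX]
      have h3 : (1 - ε) * (E * X) - (1 + ε) * X = (E - 1 - ε * (1 + E)) * X := by ring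
      rw [h3, hεE, hc]
      ring
    linarith
  have hfl : ⌊X⌋₊ ≤ ⌊Y⌋₊ := Nat.floor_le_floor hXY
  have hsum : Chebyshev.theta Y - Chebyshev.theta X =
      ∑ p ∈ (Finset.Ioc ⌊X⌋₊ ⌊Y⌋₊).filter Nat.Prime, Real.log p := by
    unfold Chebyshev.theta
    rw [Finset.sum_filter, Finset.sum_filter, Finset.sum_filter,
      ← Finset.sum_Ioc_consecutive _ (Nat.zero_le _) hfl]
    ring
  have hmemA : ∀ p ∈ (Finset.Ioc ⌊X⌋₊ ⌊Y⌋₊).filter Nat.Prime,
      a ≤ Real.log (p : ℝ) ∧ Real.log (p : ℝ) ≤ a + h := by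
    intro p hp
    rw [Finset.mem_filter, Finset.mem_Ioc] at hp
    obtain ⟨⟨hp1, hp2⟩, hp3⟩ := hp
    have hp0 : (0 : ℝ) < p := by exact_mod_cast hp3.pos
    have hp4 : X < p := (Nat.floor_lt hX0.le).1 hp1
    have hp5 : (p : ℝ) ≤ Y := (Nat.le_floor_iff hY0.le).1 hp2
    constructor
    · rw [Real.le_log_iff_exp_le hp0, ← hX]
      exact hp4.le
    · rw [Real.log_le_iff_le_exp hp0, ← hY]
      exact hp5
  have hcard : ((Finset.Ioc ⌊X⌋₊ ⌊Y⌋₊).filter Nat.Prime).card ≤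
      (S.filter fun p : Pr => a ≤ Real.log ((p : ℕ) : ℝ) ∧
        Real.log ((p : ℕ) : ℝ) ≤ a + h).card := by
    have hsub : (Finset.Ioc ⌊X⌋₊ ⌊Y⌋₊).filter Nat.Prime ⊆
        (S.filter fun p : Pr => a ≤ Real.log ((p : ℕ) : ℝ) ∧
          Real.log ((p : ℕ) : ℝ) ≤ a + h).image (fun p : Pr => (p : ℕ)) := by
      intro p hp
      obtain ⟨h3, h4⟩ := hmemA p hp
      have hpp : p.Prime := (Finset.mem_filter.1 hp).2
      rw [Finset.mem_image]
      exact ⟨⟨p, hpp⟩, Finset.mem_filter.2 ⟨hS ⟨p, hpp⟩ h3 h4, h3, h4⟩, rfl⟩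
    exact (Finset.card_le_card hsub).trans Finset.card_image_le
  have hub : Chebyshev.theta Y - Chebyshev.theta X ≤
      ((S.filter fun p : Pr => a ≤ Real.log ((p : ℕ) : ℝ) ∧
        Real.log ((p : ℕ) : ℝ) ≤ a + h).card : ℝ) * (a + h) := by
    rw [hsum]
    refine (Finset.sum_le_card_nsmul _ _ (a + h) fun p hp => (hmemA p hp).2).trans ?_
    rw [nsmul_eq_mul]
    refine mul_le_mul_of_nonneg_right ?_ (by linarith)
    exact_mod_cast hcard
  have hexp : a + h ≤ c * Real.exp (a / 10) := by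
    have h2 := Real.quadratic_le_exp_of_nonneg (x := a / 10) (by positivity)
    have h3 : a ^ 2 / 200 ≤ Real.exp (a / 10) := by
      have : (a / 10) ^ 2 / 2 = a ^ 2 / 200 := by ring
      rw [← this]
      have h5 : 0 ≤ a / 10 := by positivity
      linarith
    have h4 : 400 ≤ a * c := by
      rwa [div_le_iff₀ hc0] at ha4
    have h5 : 2 * a ≤ c * (a ^ 2 / 200) := by nlinarith
    have h6 := mul_le_mul_of_nonneg_left h3 hc0.le
    linarith
  have hfin : Real.exp (9 / 10 * a) * (a + h) ≤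
      ((S.filter fun p : Pr => a ≤ Real.log ((p : ℕ) : ℝ) ∧
        Real.log ((p : ℕ) : ℝ) ≤ a + h).card : ℝ) * (a + h) := by
    refine le_trans ?_ (hdiff.trans hub)
    have h2 : X = Real.exp (9 / 10 * a) * Real.exp (a / 10) := by
      rw [hX, ← Real.exp_add]
      congr 1
      ring
    rw [h2]
    have h3 := mul_le_mul_of_nonneg_left hexp (Real.exp_pos (9 / 10 * a)).le
    linarith
  exact le_of_mul_le_mul_right hfin (by linarith)

/-- The number of the prime powers `p ^ j`, `j ≥ 2`, up to `e ^ u'`: such an `N` is `r ^ j` with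
`2 ≤ j ≤ log_2 N`, `r ≤ e ^ (u' / 2)`, so the number is at most `(2 u' + 1) * (e ^ (u' / 2) + 1)`. -/
theorem primePows_le {u' : ℝ} (hu : 1 ≤ u') :
    (((Finset.range ⌈Real.exp u'⌉₊).filter fun N : ℕ => IsPrimePow N ∧ ¬ N.Prime).card : ℝ) ≤
      10 * u' * Real.exp (u' / 2) := by
  classical
  obtain ⟨A, hA⟩ : ∃ A : ℕ, A = ⌈Real.exp (u' / 2)⌉₊ := ⟨_, rfl⟩
  obtain ⟨B, hB⟩ : ∃ B : ℕ, B = ⌊2 * u'⌋₊ + 1 := ⟨_, rfl⟩
  have hsub : ((Finset.range ⌈Real.exp u'⌉₊).filter fun N : ℕ => IsPrimePow N ∧ ¬ N.Prime) ⊆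
      (Finset.range A ×ˢ Finset.range B).image (fun q : ℕ × ℕ => q.1 ^ q.2) := by
    intro N hN
    rw [Finset.mem_filter, Finset.mem_range, Nat.lt_ceil] at hN
    obtain ⟨hN1, hN2, hN3⟩ := hN
    rw [isPrimePow_nat_iff] at hN2
    obtain ⟨r, j, hr, hj, rfl⟩ := hN2
    have hj2 : 2 ≤ j := by
      by_contra h
      have hj1 : j = 1 := by omega
      rw [hj1, pow_one] at hN3
      exact hN3 hr
    have hr0 : (0 : ℝ) < r := by exact_mod_cast hr.pos
    have hr1 : (1 : ℝ) ≤ r := by exact_mod_cast hr.one_le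
    have hr2 : (2 : ℝ) ≤ r := by exact_mod_cast hr.two_le
    push_cast at hN1
    have hlog : (j : ℝ) * Real.log r < u' := by
      have h1 := Real.log_lt_log (pow_pos hr0 j) hN1
      rwa [Real.log_pow, Real.log_exp] at h1
    have hlr : Real.log 2 ≤ Real.log r := Real.log_le_log (by norm_num) hr2
    have hl2 := Real.log_two_gt_d9
    have hj0 : (2 : ℝ) ≤ j := by exact_mod_cast hj2
    rw [Finset.mem_image]
    refine ⟨(r, j), Finset.mem_product.2 ⟨?_, ?_⟩, rfl⟩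
    · show r ∈ Finset.range A
      rw [Finset.mem_range, hA, Nat.lt_ceil, ← Real.log_lt_iff_lt_exp hr0]
      have h1 : 2 * Real.log r ≤ j * Real.log r :=
        mul_le_mul_of_nonneg_right hj0 (by linarith)
      linarith
    · show j ∈ Finset.range B
      rw [Finset.mem_range, hB, Nat.lt_add_one_iff, Nat.le_floor_iff (by linarith)]
      have h1 : (j : ℝ) * (1 / 2) ≤ j * Real.log r :=
        mul_le_mul_of_nonneg_left (by linarith) (by linarith)
      linarith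
  have hcard : ((Finset.range ⌈Real.exp u'⌉₊).filter
      fun N : ℕ => IsPrimePow N ∧ ¬ N.Prime).card ≤ A * B := by
    refine (Finset.card_le_card hsub).trans (Finset.card_image_le.trans (le_of_eq ?_))
    rw [Finset.card_product, Finset.card_range, Finset.card_range]
  have hcard' : (((Finset.range ⌈Real.exp u'⌉₊).filter
      fun N : ℕ => IsPrimePow N ∧ ¬ N.Prime).card : ℝ) ≤ (A : ℝ) * B := by
    exact_mod_cast hcard
  have hA1 : (A : ℝ) ≤ 2 * Real.exp (u' / 2) := by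
    have h1 := Nat.ceil_lt_add_one (Real.exp_pos (u' / 2)).le
    rw [← hA] at h1
    have h2 : 1 ≤ Real.exp (u' / 2) := Real.one_le_exp (by linarith)
    linarith
  have hB1 : (B : ℝ) ≤ 3 * u' := by
    have h1 := Nat.floor_le (a := 2 * u') (by linarith)
    rw [hB]
    push_cast
    linarith
  have h3 : (A : ℝ) * B ≤ (2 * Real.exp (u' / 2)) * (3 * u') :=
    mul_le_mul hA1 hB1 (Nat.cast_nonneg _) (by positivity)
  have h4 : 0 < u' * Real.exp (u' / 2) := by positivity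
  linarith

end Pool.Agent.EEAC
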