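import Pool.Agent.W_eea520_c.L5
import Pool.Agent.W_eea520_c.L6

set_option autoImplicit false

namespace Pool.Agent.EEAC

open Filter Topology Pool.Agent.EEA520

theorem L7_hh_pos (m : ℕ) : 0 < hh m := by
  unfold hh
  positivity

theorem L7_hh_le (m : ℕ) : hh m ≤ 1 / 100 := by
  unfold hh
  have h1 : Real.exp (-((m : ℝ) ^ 2 / 100)) ≤ 1 :=
    Real.exp_le_one_iff.2 (by nlinarith [sq_nonneg (m : ℝ)])
  linarith

theorem L7_J {m : ℕ} (hm : 1000 ≤ m) {u : ℝ} (hu : 10000 ≤ u) :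
    (Jf m u : ℝ) ≤ 11 / 10000 * u ∧ 0 < Jf m u := by
  have hm' : (1000 : ℝ) ≤ m := by exact_mod_cast hm
  have hu0 : 0 < u := by linarith
  have h1 : u / m ≤ u / 1000 := div_le_div_of_nonneg_left hu0.le (by norm_num) hm'
  have h2 : 0 < u / m := div_pos hu0 (by linarith)
  have h3 := Nat.ceil_lt_add_one h2.le
  constructor
  · unfold Jf
    linarith
  · exact Nat.ceil_pos.2 h2

theorem L7_dl {m : ℕ} (hm : 1000 ≤ m) {u : ℝ} (hu : 10000 ≤ u) :
    0 < dl m u ∧ dl m u ≤ u / 1000 := by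
  obtain ⟨h1, h2⟩ := L7_J hm hu
  have h3 := L7_hh_pos m
  have h4 := L7_hh_le m
  have h5 : (0 : ℝ) < Jf m u := by exact_mod_cast h2
  unfold dl
  constructor
  · positivity
  · have h6 : hh m * Jf m u ≤ 1 / 100 * (11 / 10000 * u) := mul_le_mul h4 h1 h5.le (by norm_num)
    linarith

theorem L7_fifty : (50 : ℝ) ≤ Real.exp 4 := by
  have h1 := Real.exp_one_gt_d9
  have h2 : Real.exp 4 = Real.exp 1 ^ 4 := by
    rw [← Real.exp_nat_mul]
    norm_num
  rw [h2]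
  have h3 : (2.7 : ℝ) ^ 4 ≤ Real.exp 1 ^ 4 := pow_le_pow_left₀ (by norm_num) (by linarith) 4
  norm_num at h3
  linarith

/-- The block `[u, u + δ)`, `δ = dl m u = 2 * hh m * J`, `J = Jf m u = ⌈u / m⌉`, `m ≥ 1000`, for large `u`.
`δ ≤ (u / m + 1) / 50 ≤ u / 1000` for large `u`. `50 ^ (2 J) ≤ exp (8 J) ≤ exp (8 u / 1000 + 8)`, `J ^ 2 ≤ u ^ 2`,
`exp ((u + δ) / 2) ≤ exp (0.5005 u)`, `(u + δ) / 4 ≤ 0.26 u`, so the left side is at most
`exp (0.53 u) / exp (0.9 u) = exp (- 0.37 u)` and the right side is at least `c * exp (- 0.26 u)`, `u` large.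
(`isLittleO_pow_exp_atTop` and so on; `A` may be replaced by `max A 0`.) -/
theorem step_num {m : ℕ} (hm : 1000 ≤ m) (A : ℝ) {c : ℝ} (hc : 0 < c) : ∃ U : ℝ, ∀ u : ℝ, U ≤ u →
    1 ≤ u ∧ dl m u < u ∧ 0 < Jf m u ∧
    (Jf m u : ℝ) ^ 2 * (Real.exp (u / 10) + A * (10 * (u + dl m u) * Real.exp ((u + dl m u) / 2))) *
      50 ^ (2 * Jf m u) / ⌈Real.exp (9 / 10 * u)⌉₊ ≤ c * Real.exp (-(u + dl m u) / 4) := by
  obtain ⟨a, ha⟩ : ∃ a : ℝ, a = |A| := ⟨_, rfl⟩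
  have ha0 : 0 ≤ a := ha ▸ abs_nonneg A
  have hAa : A ≤ a := ha ▸ le_abs_self A
  refine ⟨max 10000 ((1 + 20 * a) * 240000 / c), fun u hu => ?_⟩
  have hu1 : 10000 ≤ u := (le_max_left _ _).trans hu
  have hu2 : (1 + 20 * a) * 240000 / c ≤ u := (le_max_right _ _).trans hu
  have hu0 : 0 < u := by linarith
  obtain ⟨hJ1, hJ0⟩ := L7_J hm hu1
  obtain ⟨hd0, hd1⟩ := L7_dl hm hu1
  refine ⟨by linarith, by linarith, hJ0, ?_⟩
  have hN : Real.exp (9 / 10 * u) ≤ (⌈Real.exp (9 / 10 * u)⌉₊ : ℝ) := Nat.le_ceil _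
  have hN0 : (0 : ℝ) < (⌈Real.exp (9 / 10 * u)⌉₊ : ℝ) := lt_of_lt_of_le (Real.exp_pos _) hN
  rw [div_le_iff₀ hN0]
  have hJ2 : (Jf m u : ℝ) ^ 2 ≤ u ^ 2 :=
    pow_le_pow_left₀ (Nat.cast_nonneg _) (by linarith) 2
  have h50 : (50 : ℝ) ^ (2 * Jf m u) ≤ Real.exp (88 / 10000 * u) := by
    calc (50 : ℝ) ^ (2 * Jf m u) ≤ Real.exp 4 ^ (2 * Jf m u) :=
          pow_le_pow_left₀ (by norm_num) L7_fifty _
      _ = Real.exp ((2 * Jf m u : ℕ) * 4) := by rw [Real.exp_nat_mul]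
      _ ≤ Real.exp (88 / 10000 * u) := by
          apply Real.exp_le_exp.2
          push_cast
          linarith
  have hX : Real.exp (u / 10) + A * (10 * (u + dl m u) * Real.exp ((u + dl m u) / 2)) ≤
      (1 + 20 * a) * u * Real.exp (5005 / 10000 * u) := by
    have e1 : Real.exp (u / 10) ≤ u * Real.exp (5005 / 10000 * u) := by
      have e2 : Real.exp (u / 10) ≤ Real.exp (5005 / 10000 * u) :=
        Real.exp_le_exp.2 (by linarith)
      have e3 : 1 * Real.exp (5005 / 10000 * u) ≤ u * Real.exp (5005 / 10000 * u) :=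
        mul_le_mul_of_nonneg_right (by linarith) (Real.exp_pos _).le
      linarith
    have e4 : Real.exp ((u + dl m u) / 2) ≤ Real.exp (5005 / 10000 * u) :=
      Real.exp_le_exp.2 (by linarith)
    have e5 : 10 * (u + dl m u) * Real.exp ((u + dl m u) / 2) ≤
        20 * u * Real.exp (5005 / 10000 * u) :=
      mul_le_mul (by linarith) e4 (Real.exp_pos _).le (by linarith)
    have e6 : 0 ≤ 10 * (u + dl m u) * Real.exp ((u + dl m u) / 2) := by positivity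
    have e7 : A * (10 * (u + dl m u) * Real.exp ((u + dl m u) / 2)) ≤
        a * (20 * u * Real.exp (5005 / 10000 * u)) :=
      (mul_le_mul_of_nonneg_right hAa e6).trans (mul_le_mul_of_nonneg_left e5 ha0)
    linarith
  have hR : c * (Real.exp (-(2503 / 10000) * u) * Real.exp (9 / 10 * u)) ≤
      c * Real.exp (-(u + dl m u) / 4) * (⌈Real.exp (9 / 10 * u)⌉₊ : ℝ) := by
    rw [mul_assoc]
    refine mul_le_mul_of_nonneg_left (mul_le_mul ?_ hN (Real.exp_pos _).le (Real.exp_pos _).le)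
      hc.le
    exact Real.exp_le_exp.2 (by linarith)
  have hmain : (1 + 20 * a) * u ^ 3 ≤ c * Real.exp (1404 / 10000 * u) := by
    have e1 := Real.pow_div_factorial_le_exp (u / 10) (by positivity) 4
    have e2 : Real.exp (u / 10) ≤ Real.exp (1404 / 10000 * u) := Real.exp_le_exp.2 (by linarith)
    have e3 : (u / 10) ^ 4 / (Nat.factorial 4 : ℝ) = u ^ 4 / 240000 := by
      norm_num [Nat.factorial]
      ring
    rw [e3] at e1
    rw [div_le_iff₀ hc] at hu2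
    have e4 : (1 + 20 * a) * 240000 * u ^ 3 ≤ u * c * u ^ 3 :=
      mul_le_mul_of_nonneg_right hu2 (by positivity)
    have e5 : c * (u ^ 4 / 240000) ≤ c * Real.exp (1404 / 10000 * u) :=
      mul_le_mul_of_nonneg_left (e1.trans e2) hc.le
    linarith
  have hprod : (Jf m u : ℝ) ^ 2 *
      (Real.exp (u / 10) + A * (10 * (u + dl m u) * Real.exp ((u + dl m u) / 2))) *
      50 ^ (2 * Jf m u) ≤
      u ^ 2 * ((1 + 20 * a) * u * Real.exp (5005 / 10000 * u)) * Real.exp (88 / 10000 * u) := by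
    have e1 : 0 ≤ (1 + 20 * a) * u * Real.exp (5005 / 10000 * u) := by positivity
    have e2 : (Jf m u : ℝ) ^ 2 *
        (Real.exp (u / 10) + A * (10 * (u + dl m u) * Real.exp ((u + dl m u) / 2))) ≤
        u ^ 2 * ((1 + 20 * a) * u * Real.exp (5005 / 10000 * u)) :=
      (mul_le_mul_of_nonneg_left hX (by positivity)).trans (mul_le_mul_of_nonneg_right hJ2 e1)
    exact (mul_le_mul_of_nonneg_right e2 (by positivity)).trans
      (mul_le_mul_of_nonneg_left h50 (by positivity))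
  refine hprod.trans (le_trans ?_ hR)
  have e1 : Real.exp (-(2503 / 10000) * u) * Real.exp (9 / 10 * u) =
      Real.exp (1404 / 10000 * u) * (Real.exp (5005 / 10000 * u) *
        Real.exp (88 / 10000 * u)) := by
    rw [← Real.exp_add, ← Real.exp_add, ← Real.exp_add]
    congr 1
    ring
  rw [e1]
  have e2 := mul_le_mul_of_nonneg_right hmain
    (show 0 ≤ Real.exp (5005 / 10000 * u) * Real.exp (88 / 10000 * u) by positivity)
  linarith

theorem L7_h {m : ℕ} (hm : 1000 ≤ m) {u a₀ : ℝ} (hu : 10000 ≤ u) (ha : a₀ ≤ u)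
    (hps : ∀ a : ℝ, a₀ ≤ a → ∀ S : Finset Pr,
      (∀ p : Pr, a ≤ Real.log ((p : ℕ) : ℝ) → Real.log ((p : ℕ) : ℝ) ≤ a + hh m → p ∈ S) →
      Real.exp (9 / 10 * a) ≤
        (S.filter fun p : Pr => a ≤ Real.log ((p : ℕ) : ℝ) ∧
          Real.log ((p : ℕ) : ℝ) ≤ a + hh m).card)
    (S : Finset Pr) (hS : ∀ p : Pr, p ∈ S ↔ u ≤ Real.log ((p : ℕ) : ℝ) ∧
      Real.log ((p : ℕ) : ℝ) < u + dl m u) (i : Fin (Jf m u)) :
    ⌈Real.exp (9 / 10 * u)⌉₊ ≤ (S.filter fun p : Pr =>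
      |(Real.log ((p : ℕ) : ℝ) - u) / dl m u - ((i : ℕ) + 1 / 2) / (Jf m u : ℝ)| ≤
        1 / (4 * (Jf m u : ℝ))).card := by
  obtain ⟨-, hJ0⟩ := L7_J hm hu
  have hJ : (0 : ℝ) < Jf m u := by exact_mod_cast hJ0
  have hη := L7_hh_pos m
  have hi : ((i : ℕ) : ℝ) + 1 ≤ Jf m u := by exact_mod_cast i.2
  have hi0 : (0 : ℝ) ≤ ((i : ℕ) : ℝ) := Nat.cast_nonneg _
  have hdl : dl m u = 2 * hh m * Jf m u := rfl
  obtain ⟨a, hadef⟩ : ∃ a : ℝ, a = u + 2 * hh m * (((i : ℕ) : ℝ) + 1 / 4) := ⟨_, rfl⟩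
  have hau : u ≤ a := by
    rw [hadef]
    have : 0 ≤ 2 * hh m * (((i : ℕ) : ℝ) + 1 / 4) := by positivity
    linarith
  have hav : a + hh m < u + dl m u := by
    rw [hadef, hdl]
    have h1 : 2 * hh m * (((i : ℕ) : ℝ) + 1) ≤ 2 * hh m * Jf m u :=
      mul_le_mul_of_nonneg_left hi (by positivity)
    nlinarith
  have h1 := hps a (ha.trans hau) S fun p h2 h3 =>
    (hS p).2 ⟨hau.trans h2, lt_of_le_of_lt h3 hav⟩
  refine Nat.ceil_le.2 ?_
  have h2 : Real.exp (9 / 10 * u) ≤ Real.exp (9 / 10 * a) := Real.exp_le_exp.2 (by linarith)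
  refine (h2.trans h1).trans ?_
  have h3 : (S.filter fun p : Pr => a ≤ Real.log ((p : ℕ) : ℝ) ∧
      Real.log ((p : ℕ) : ℝ) ≤ a + hh m) ⊆ (S.filter fun p : Pr =>
      |(Real.log ((p : ℕ) : ℝ) - u) / dl m u - ((i : ℕ) + 1 / 2) / (Jf m u : ℝ)| ≤
        1 / (4 * (Jf m u : ℝ))) := by
    intro p hp
    rw [Finset.mem_filter] at hp ⊢
    refine ⟨hp.1, ?_⟩
    obtain ⟨-, h4, h5⟩ := hp
    have h6 : (Real.log ((p : ℕ) : ℝ) - u) / dl m u - ((i : ℕ) + 1 / 2) / (Jf m u : ℝ) =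
        (Real.log ((p : ℕ) : ℝ) - u - 2 * hh m * (((i : ℕ) : ℝ) + 1 / 2)) /
          (2 * hh m * Jf m u) := by
      rw [hdl]
      field_simp
    have h7 : 1 / (4 * (Jf m u : ℝ)) = (hh m / 2) / (2 * hh m * Jf m u) := by
      field_simp
      norm_num
    rw [h6, h7, abs_div, abs_of_pos (show (0 : ℝ) < 2 * hh m * Jf m u by positivity)]
    refine div_le_div_of_nonneg_right ?_ (by positivity)
    rw [abs_le]
    rw [hadef] at h4 h5
    constructor <;> linarith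
  exact_mod_cast Finset.card_le_card h3

theorem L7_av_le {Q : Type} (f : ℕ → Q → ℝ) (C B : ℕ → ℝ) (G : ℕ → ℕ → Q → ℝ) {A : ℝ}
    (hG : ∀ k N q, |G k N q| ≤ A) (q : Pr → Q) (k N : ℕ) (h1 : IsPrimePow N) (h2 : ¬ N.Prime) :
    |av f C B G q k N| ≤ A := by
  unfold av
  rw [dif_neg h2, dif_pos h1]
  exact hG _ _ _

theorem L7_av_congr {Q : Type} (f : ℕ → Q → ℝ) (C B : ℕ → ℝ) (G : ℕ → ℕ → Q → ℝ)
    (q q' : Pr → Q) (k N : ℕ) (h1 : IsPrimePow N) (h2 : ¬ N.Prime)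
    (h : ∀ hp : N.minFac.Prime, q' ⟨N.minFac, hp⟩ = q ⟨N.minFac, hp⟩) :
    av f C B G q' k N = av f C B G q k N := by
  unfold av
  rw [dif_neg h2, dif_pos h1, dif_neg h2, dif_pos h1, h]

theorem L7_R (d ρ : ℝ) (hd : 0 ≤ d) (E : ℕ → ℝ) (hE : ∀ j, |E j| ≤ ρ * d ^ j) (j : ℕ) :
    |∑ i ∈ Finset.range (j + 1), (j.choose i : ℝ) * (-d) ^ (j - i) * E i| ≤
      ρ * (2 * d) ^ j := by
  refine (Finset.abs_sum_le_sum_abs _ _).trans ?_
  have h1 : ∀ i ∈ Finset.range (j + 1), |(j.choose i : ℝ) * (-d) ^ (j - i) * E i| ≤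
      ρ * d ^ j * (j.choose i : ℝ) := by
    intro i hi
    have hij : i ≤ j := Nat.lt_succ_iff.1 (Finset.mem_range.1 hi)
    rw [abs_mul, abs_mul, abs_pow, abs_neg, abs_of_nonneg hd, Nat.abs_cast]
    have h2 : d ^ (j - i) * d ^ i = d ^ j := by rw [← pow_add, Nat.sub_add_cancel hij]
    calc (j.choose i : ℝ) * d ^ (j - i) * |E i| ≤ (j.choose i : ℝ) * d ^ (j - i) * (ρ * d ^ i) :=
          mul_le_mul_of_nonneg_left (hE i) (by positivity)
      _ = ρ * (d ^ (j - i) * d ^ i) * (j.choose i : ℝ) := by ring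
      _ = ρ * d ^ j * (j.choose i : ℝ) := by rw [h2]
  refine (Finset.sum_le_sum h1).trans ?_
  rw [← Finset.mul_sum]
  have h2 : ∑ i ∈ Finset.range (j + 1), (j.choose i : ℝ) = 2 ^ j := by
    exact_mod_cast Nat.sum_range_choose j
  rw [h2, mul_pow]
  apply le_of_eq
  ring

theorem L7_sum {Q : Type} (f : ℕ → Q → ℝ) (C B : ℕ → ℝ) (G : ℕ → ℕ → Q → ℝ) (q : Pr → Q)
    (k : ℕ) (s : Finset ℕ) (g : ℕ → ℝ) (S : Finset Pr) (hS : ∀ p : Pr, p ∈ S ↔ (p : ℕ) ∈ s) :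
    ∑ N ∈ s, av f C B G q k N * g N =
      ∑ p ∈ S, (f k (q p) - C k - (((p : ℕ) : ℝ) ^ (-(1 / 4) : ℝ)) * (B k - C k)) * g p +
        ∑ N ∈ s.filter (fun N => IsPrimePow N ∧ ¬ N.Prime), av f C B G q k N * g N := by
  classical
  rw [← Finset.sum_filter_add_sum_filter_not s Nat.Prime]
  congr 1
  · symm
    refine Finset.sum_bij (fun p _ => (p : ℕ)) (fun p hp => ?_) (fun p _ p' _ h => ?_)
      (fun N hN => ?_) fun p hp => ?_
    · rw [Finset.mem_filter]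
      exact ⟨(hS p).1 hp, p.2⟩
    · exact Subtype.ext h
    · rw [Finset.mem_filter] at hN
      exact ⟨⟨N, hN.2⟩, (hS _).2 hN.1, rfl⟩
    · have h1 : av f C B G q k (p : ℕ) =
          f k (q p) - C k - (((p : ℕ) : ℝ) ^ (-(1 / 4) : ℝ)) * (B k - C k) := by
        unfold av
        rw [dif_pos p.2]
        rfl
      rw [h1]
  · symm
    refine Finset.sum_subset (fun N hN => ?_) fun N hN hN' => ?_
    · rw [Finset.mem_filter] at hN ⊢
      exact ⟨hN.1, hN.2.2⟩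
    · rw [Finset.mem_filter] at hN hN'
      have h1 : ¬ IsPrimePow N := fun h2 => hN' ⟨hN.1, h2, hN.2⟩
      have h3 : av f C B G q k N = 0 := by
        unfold av
        rw [dif_neg hN.2, dif_neg h1]
      rw [h3, zero_mul]

/-- THE STEP. `S` = the primes `p` with `u ≤ log p < u + δ`, `v p = (log p - u) / δ`, `κ p = p ^ (-1/4)`,
`κ₀ = exp (-(u + δ) / 4)`, `N = ⌈exp (0.9 u)⌉₊`. The `i`-th interval of `block` is
`a ≤ log p ≤ a + hh m`, `a = u + δ (i + 1/4) / J ≥ u` (as `δ / (2 J) = hh m`), so `primes_short` for `h = hh m` gives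
the hypothesis `h` of `block` for large `u`. Let `R k j` be the second sum in the conclusion and
`P k j = ∑ G k N (q (minFac N)) (log N - u) ^ j` over the proper prime powers `N` in the block; as `δ < u` their
prime `minFac N` has `log (minFac N) ≤ log N / 2 < u`. `Y k j = - (R k j + P k j) / δ ^ j`,
`|R k j| ≤ ∑ binom d ^ (j - i) ρ d ^ i = ρ (2 d) ^ j` so `|R k j| / δ ^ j ≤ ρ max (1, 2 d / δ) ^ J ≤ exp (u / 10)`, and
`|P k j| / δ ^ j ≤ A * 10 (u + δ) exp ((u + δ) / 2)` by `primePows_le`. With `D` the sum of the two, `step_num` is the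
hypothesis `hD` of `block`. Let `q'` be the `q` of `block` on `S` and the old `q` elsewhere. The sum over the
block is the sum over `S` and `P k j` (`q' = q` at the primes `minFac N`), so the expression in the conclusion is
`δ ^ j * (∑_S (…) v ^ j - Y k j)`, at most `δ ^ j * 2 * (m J) * A` in absolute value. -/
theorem step {Q : Type} (f : ℕ → Q → ℝ) {A : ℝ} (hA : 1 ≤ A) (hf : ∀ k q, |f k q| ≤ A)
    (C B : ℕ → ℝ) (hC : ∀ k, |C k| ≤ A) (hB : ∀ k, |B k| ≤ A) (G : ℕ → ℕ → Q → ℝ)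
    (hG : ∀ k N q, |G k N q| ≤ A) {m : ℕ} (hm : 1000 ≤ m) {c : ℝ} (hc : 0 < c)
    (hL1 : ∃ ν : Q →₀ ℝ, IsProb ν ∧ ∀ k < m, (ν.sum fun q a => a * f k q) = C k)
    (hL2 : ∀ y : ℕ → ℝ, (∀ k, |y k| ≤ c) →
      ∃ μ : Q →₀ ℝ, IsProb μ ∧ ∀ k < m, (μ.sum fun q a => a * f k q) = B k + y k) :
    ∃ U : ℝ, ∀ u : ℝ, U ≤ u → ∀ (q : Pr → Q) (d ρ : ℝ) (E : ℕ → ℕ → ℝ), 0 ≤ d → 0 ≤ ρ →
      (∀ k j, |E k j| ≤ ρ * d ^ j) →
      ρ * (max 1 (2 * d / dl m u)) ^ Jf m u ≤ Real.exp (u / 10) →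
      ∃ q' : Pr → Q, (∀ p : Pr, Real.log ((p : ℕ) : ℝ) < u → q' p = q p) ∧
        ∀ k < m, ∀ j < Jf m u,
          |∑ N ∈ bl u (u + dl m u), av f C B G q' k N * (Real.log N - u) ^ j +
            ∑ i ∈ Finset.range (j + 1), (j.choose i : ℝ) * (-d) ^ (j - i) * E k i| ≤
          4 * A * (m * Jf m u) * dl m u ^ j := by
  classical
  obtain ⟨U₁, hU₁⟩ := step_num hm A hc
  obtain ⟨a₀, ha₀⟩ := primes_short (hh m) (L7_hh_pos m)
  refine ⟨max (max U₁ a₀) 10000, fun u hu q d ρ E hd hρ hE hρd => ?_⟩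
  have hu1 : U₁ ≤ u := ((le_max_left _ _).trans (le_max_left _ _)).trans hu
  have hu2 : a₀ ≤ u := ((le_max_right _ _).trans (le_max_left _ _)).trans hu
  have hu3 : 10000 ≤ u := (le_max_right _ _).trans hu
  obtain ⟨hu4, hdu, hJ0, hnum⟩ := hU₁ u hu1
  obtain ⟨hδ0, -⟩ := L7_dl hm hu3
  have hA0 : 0 ≤ A := by linarith
  obtain ⟨S, hSb⟩ : ∃ S : Finset Pr, ∀ p : Pr, p ∈ S ↔ (p : ℕ) ∈ bl u (u + dl m u) :=
    ⟨(bl u (u + dl m u)).subtype Nat.Prime, fun p => Finset.mem_subtype⟩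
  have hS : ∀ p : Pr, p ∈ S ↔ u ≤ Real.log ((p : ℕ) : ℝ) ∧
      Real.log ((p : ℕ) : ℝ) < u + dl m u := by
    intro p
    rw [hSb, mem_bl]
    exact ⟨fun h => h.2, fun h => ⟨p.2.pos, h⟩⟩
  have hcount := fun i => L7_h hm hu3 hu2 ha₀ S hS i
  obtain ⟨R, hR⟩ : ∃ R : ℕ → ℕ → ℝ, ∀ k j, R k j =
      ∑ i ∈ Finset.range (j + 1), (j.choose i : ℝ) * (-d) ^ (j - i) * E k i :=
    ⟨_, fun _ _ => rfl⟩
  obtain ⟨F, hF⟩ : ∃ F : Finset ℕ, F = (bl u (u + dl m u)).filter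
      (fun N => IsPrimePow N ∧ ¬ N.Prime) := ⟨_, rfl⟩
  obtain ⟨P, hP⟩ : ∃ P : ℕ → ℕ → ℝ, ∀ k j, P k j =
      ∑ N ∈ F, av f C B G q k N * (Real.log N - u) ^ j := ⟨_, fun _ _ => rfl⟩
  have hFmem : ∀ N ∈ F, u ≤ Real.log N ∧ Real.log N < u + dl m u ∧ IsPrimePow N ∧
      ¬ N.Prime := by
    intro N hN
    rw [hF, Finset.mem_filter, mem_bl] at hN
    exact ⟨hN.1.2.1, hN.1.2.2, hN.2.1, hN.2.2⟩
  have hFcard : (F.card : ℝ) ≤ 10 * (u + dl m u) * Real.exp ((u + dl m u) / 2) := by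
    refine le_trans ?_ (primePows_le (u' := u + dl m u) (by linarith))
    have h1 : F ⊆ (Finset.range ⌈Real.exp (u + dl m u)⌉₊).filter
        fun N : ℕ => IsPrimePow N ∧ ¬ N.Prime := by
      intro N hN
      rw [hF, Finset.mem_filter] at hN
      rw [Finset.mem_filter, Finset.mem_range]
      refine ⟨?_, hN.2⟩
      have h2 := hN.1
      unfold bl at h2
      exact (Finset.mem_Ico.1 h2).2
    exact_mod_cast Finset.card_le_card h1
  -- the bounds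
  have hRb : ∀ k, ∀ j < Jf m u, |R k j| ≤ Real.exp (u / 10) * dl m u ^ j := by
    intro k j hj
    rw [hR]
    refine (L7_R d ρ hd (E k) (hE k) j).trans ?_
    have h1 : (2 * d) ^ j = (2 * d / dl m u) ^ j * dl m u ^ j := by
      rw [← mul_pow, div_mul_cancel₀ _ hδ0.ne']
    have h2 : (2 * d / dl m u) ^ j ≤ (max 1 (2 * d / dl m u)) ^ Jf m u :=
      (pow_le_pow_left₀ (by positivity) (le_max_right _ _) j).trans
        (pow_le_pow_right₀ (le_max_left _ _) hj.le)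
    have h3 : ρ * (2 * d / dl m u) ^ j ≤ Real.exp (u / 10) :=
      (mul_le_mul_of_nonneg_left h2 hρ).trans hρd
    rw [h1, ← mul_assoc]
    exact mul_le_mul_of_nonneg_right h3 (by positivity)
  have hPb : ∀ k j, |P k j| ≤ A * (10 * (u + dl m u) * Real.exp ((u + dl m u) / 2)) *
      dl m u ^ j := by
    intro k j
    rw [hP]
    refine (Finset.abs_sum_le_sum_abs _ _).trans ?_
    have h1 : ∀ N ∈ F, |av f C B G q k N * (Real.log N - u) ^ j| ≤ A * dl m u ^ j := by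
      intro N hN
      obtain ⟨h2, h3, h4, h5⟩ := hFmem N hN
      rw [abs_mul, abs_pow]
      refine mul_le_mul (L7_av_le f C B G hG q k N h4 h5) ?_ (by positivity) hA0
      refine pow_le_pow_left₀ (abs_nonneg _) ?_ j
      rw [abs_of_nonneg (by linarith)]
      linarith
    refine (Finset.sum_le_sum h1).trans ?_
    rw [Finset.sum_const, nsmul_eq_mul]
    have h2 : (F.card : ℝ) * (A * dl m u ^ j) ≤
        (10 * (u + dl m u) * Real.exp ((u + dl m u) / 2)) * (A * dl m u ^ j) :=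
      mul_le_mul_of_nonneg_right hFcard (by positivity)
    linarith
  have hY : ∀ k < m, ∀ j < Jf m u, |-(R k j + P k j) / dl m u ^ j| ≤
      Real.exp (u / 10) + A * (10 * (u + dl m u) * Real.exp ((u + dl m u) / 2)) := by
    intro k _ j hj
    have hδj : 0 < dl m u ^ j := by positivity
    rw [abs_div, abs_neg, abs_of_pos hδj, div_le_iff₀ hδj]
    have h1 := abs_add_le (R k j) (P k j)
    have h2 := hRb k j hj
    have h3 := hPb k j
    linarith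
  have hN0 : 0 < ⌈Real.exp (9 / 10 * u)⌉₊ := Nat.ceil_pos.2 (Real.exp_pos _)
  have hκ : ∀ p ∈ S, Real.exp (-(u + dl m u) / 4) ≤ ((p : ℕ) : ℝ) ^ (-(1 / 4) : ℝ) ∧
      ((p : ℕ) : ℝ) ^ (-(1 / 4) : ℝ) ≤ 1 := by
    intro p hp
    obtain ⟨h1, h2⟩ := (hS p).1 hp
    have hp0 : (0 : ℝ) < ((p : ℕ) : ℝ) := by exact_mod_cast p.2.pos
    rw [Real.rpow_def_of_pos hp0]
    constructor
    · exact Real.exp_le_exp.2 (by linarith)
    · exact Real.exp_le_one_iff.2 (by linarith)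
  obtain ⟨q₁, hq₁⟩ := block f hA0 hf C B hc hL1 hL2 S
    (fun p => (Real.log ((p : ℕ) : ℝ) - u) / dl m u)
    (fun p hp => by
      obtain ⟨h1, h2⟩ := (hS p).1 hp
      exact ⟨div_nonneg (by linarith) hδ0.le, (div_le_one hδ0).2 (by linarith)⟩)
    hJ0 hN0 hcount (fun p => ((p : ℕ) : ℝ) ^ (-(1 / 4) : ℝ)) (Real.exp_pos _) hκ
    (fun k j => -(R k j + P k j) / dl m u ^ j) hY hnum
  refine ⟨fun p => if h : p ∈ S then q₁ ⟨p, h⟩ else q p, fun p hp => ?_, fun k hk j hj => ?_⟩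
  · have h1 : p ∉ S := fun h2 => by
      have h3 := ((hS p).1 h2).1
      linarith
    exact dif_neg h1
  · obtain ⟨q', hq'⟩ : ∃ q' : Pr → Q, q' = fun p => if h : p ∈ S then q₁ ⟨p, h⟩ else q p :=
      ⟨_, rfl⟩
    have hq'S : ∀ p : S, q' p = q₁ p := by
      intro p
      rw [hq']
      exact dif_pos p.2
    have hq'n : ∀ p : Pr, Real.log ((p : ℕ) : ℝ) < u → q' p = q p := by
      intro p hp
      have h1 : p ∉ S := fun h2 => by
        have h3 := ((hS p).1 h2).1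
        linarith
      rw [hq']
      exact dif_neg h1
    rw [← hq', L7_sum f C B G q' k (bl u (u + dl m u)) (fun N => (Real.log N - u) ^ j) S hSb,
      ← hF, ← hR]
    have h1 : ∑ N ∈ F, av f C B G q' k N * (Real.log N - u) ^ j = P k j := by
      rw [hP]
      refine Finset.sum_congr rfl fun N hN => ?_
      obtain ⟨h2, h3, h4, h5⟩ := hFmem N hN
      rw [L7_av_congr f C B G q q' k N h4 h5 fun hp => hq'n _ ?_]
      have h6 : N.minFac ^ 2 ≤ N := Nat.minFac_sq_le_self h4.pos h5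
      have h7 : (0 : ℝ) < (N.minFac : ℝ) := by exact_mod_cast hp.pos
      have h8 : ((N.minFac : ℝ)) ^ 2 ≤ N := by exact_mod_cast h6
      have h9 := Real.log_le_log (by positivity) h8
      rw [Real.log_pow] at h9
      push_cast at h9
      show Real.log (N.minFac : ℝ) < u
      linarith
    have h2 := hq₁ k hk j hj
    have h3 : ∑ p ∈ S, (f k (q' p) - C k - (((p : ℕ) : ℝ) ^ (-(1 / 4) : ℝ)) * (B k - C k)) *
        (Real.log ((p : ℕ) : ℝ) - u) ^ j =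
        (∑ p : S, (f k (q₁ p) - C k - (((p : Pr) : ℕ) : ℝ) ^ (-(1 / 4) : ℝ) * (B k - C k)) *
          ((Real.log (((p : Pr) : ℕ) : ℝ) - u) / dl m u) ^ j) * dl m u ^ j := by
      rw [Finset.sum_mul, ← Finset.sum_coe_sort S]
      refine Finset.sum_congr rfl fun p _ => ?_
      rw [hq'S, div_pow, mul_assoc _ _ (dl m u ^ j), div_mul_cancel₀ _ (by positivity)]
    rw [h3, h1]
    obtain ⟨T, hT⟩ : ∃ T : ℝ, T = ∑ p : S, (f k (q₁ p) - C k -
      (((p : Pr) : ℕ) : ℝ) ^ (-(1 / 4) : ℝ) * (B k - C k)) *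
          ((Real.log (((p : Pr) : ℕ) : ℝ) - u) / dl m u) ^ j := ⟨_, rfl⟩
    rw [← hT] at h2 ⊢
    have hδj : 0 < dl m u ^ j := by positivity
    have h4 : T * dl m u ^ j + P k j + R k j =
        dl m u ^ j * (T - -(R k j + P k j) / dl m u ^ j) := by
      field_simp
      ring
    rw [h4, abs_mul, abs_of_pos hδj]
    have h5 : dl m u ^ j * |T - -(R k j + P k j) / dl m u ^ j| ≤
        dl m u ^ j * (2 * (m * Jf m u) * A) := mul_le_mul_of_nonneg_left h2 hδj.le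
    have h6 : 0 ≤ A * (m * Jf m u) * dl m u ^ j := by positivity
    linarith

end Pool.Agent.EEAC
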