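import Pool.Agent.W_eea520_c.C0

set_option autoImplicit false

namespace Pool.Agent.EEAC

open Filter Topology

theorem L8a_hh_pos (m : ℕ) : 0 < hh m := by
  unfold hh
  positivity

theorem L8a_hh_le (m : ℕ) : hh m ≤ 1 / 100 := by
  unfold hh
  have h : Real.exp (-((m : ℝ) ^ 2 / 100)) ≤ 1 := by
    rw [Real.exp_le_one_iff]
    have : 0 ≤ (m : ℝ) ^ 2 / 100 := by positivity
    linarith
  linarith

theorem L8a_J_le (m : ℕ) {u : ℝ} (hu : 0 ≤ u) : (Jf m u : ℝ) ≤ u / m + 1 :=
  (Nat.ceil_lt_add_one (by positivity)).le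

theorem L8a_le_J (m : ℕ) (u : ℝ) : u / m ≤ (Jf m u : ℝ) := Nat.le_ceil _

theorem L8a_hh_ratio (m : ℕ) : hh m = hh (m + 1) * Real.exp ((2 * m + 1) / 100) := by
  unfold hh
  rw [div_mul_eq_mul_div, ← Real.exp_add]
  congr 2
  push_cast
  ring

theorem L8a_hh_anti (m : ℕ) : hh (m + 1) ≤ hh m := by
  rw [L8a_hh_ratio m]
  have h1 : 1 ≤ Real.exp ((2 * (m : ℝ) + 1) / 100) := Real.one_le_exp (by positivity)
  have h2 := L8a_hh_pos (m + 1)
  nlinarith

/-- The facts on one stage and the next one. For large `u` (depending on `m`):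
(b) `J ≤ u`. (c) `dl m u = 2 h ⌈u / m⌉ ≤ (u / m + 1) / 50`. (a) `dl m u ≥ 2 h u / m`.
(d) `Jf m u ≤ u / m + 1 ≤ 2 u / (m + 1) ≤ 2 Jf m' u'`.
(e) `J' = Jf m' u' ≤ u' / m + 1` and `(log 4 + (2 m + 1) / 100) / m ≤ 0.022`. -/
theorem stage_num {m : ℕ} (hm : 1000 ≤ m) (A : ℝ) : ∃ U : ℝ, ∀ u : ℝ, U ≤ u →
    1 ≤ u ∧ 1 ≤ dl m u ∧ dl m u ≤ u / m ∧ 4 * A * (m * Jf m u) ≤ Real.exp (u / 100) ∧
    ∀ m' : ℕ, (m' = m ∨ m' = m + 1) →
      (Jf m u : ℝ) ≤ 2 * Jf m' (u + dl m u) ∧ 0 < Jf m' (u + dl m u) ∧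
      (4 * Real.exp ((2 * m + 1) / 100)) ^ Jf m' (u + dl m u) ≤
        Real.exp (9 / 100 * (u + dl m u)) := by
  have hc := L8a_hh_pos m
  have hc' := L8a_hh_le m
  have hmR : (1000 : ℝ) ≤ m := by exact_mod_cast hm
  have hm0 : (0 : ℝ) < m := by linarith
  refine ⟨1 + 2 * m + m / (2 * hh m) + 160000 * |A|, fun u hu => ?_⟩
  have hA := abs_nonneg A
  have hq : 0 ≤ m / (2 * hh m) := by positivity
  have hu1 : 1 ≤ u := by linarith
  have hu2 : 2 * (m : ℝ) ≤ u := by linarith
  have hu3 : m / (2 * hh m) ≤ u := by linarith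
  have hu4 : 160000 * |A| ≤ u := by linarith
  have hu0 : 0 ≤ u := by linarith
  have hJ1 := L8a_J_le m hu0
  have hJ2 := L8a_le_J m u
  have hum : 1 ≤ u / m := by
    rw [le_div_iff₀ hm0]
    linarith
  have hd1 : 1 ≤ dl m u := by
    unfold dl
    have h1 : 1 ≤ 2 * hh m * (u / m) := by
      rw [div_le_iff₀ (by positivity)] at hu3
      rw [mul_div_assoc', le_div_iff₀ hm0]
      linarith
    exact h1.trans (mul_le_mul_of_nonneg_left hJ2 (by positivity))
  have hd2 : dl m u ≤ u / m := by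
    unfold dl
    have hJ0 : (0 : ℝ) ≤ Jf m u := Nat.cast_nonneg _
    nlinarith
  refine ⟨hu1, hd1, hd2, ?_, ?_⟩
  · have h1 : (m : ℝ) * Jf m u ≤ 2 * u := by
      have h2 : (m : ℝ) * Jf m u ≤ m * (u / m + 1) := mul_le_mul_of_nonneg_left hJ1 hm0.le
      have h3 : (m : ℝ) * (u / m + 1) = u + m := by
        field_simp
      linarith
    have h2 : 4 * A * (m * Jf m u) ≤ 4 * |A| * (2 * u) := by
      have h3 : 0 ≤ (m : ℝ) * Jf m u := by positivity
      have h4 := le_abs_self A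
      calc 4 * A * (m * Jf m u) ≤ 4 * |A| * (m * Jf m u) := by
            apply mul_le_mul_of_nonneg_right _ h3
            linarith
        _ ≤ 4 * |A| * (2 * u) := by
            apply mul_le_mul_of_nonneg_left h1
            linarith
    have h3 := Real.quadratic_le_exp_of_nonneg (show 0 ≤ u / 100 by positivity)
    have h4 : 4 * |A| * (2 * u) ≤ (u / 100) ^ 2 / 2 := by
      nlinarith
    linarith [div_nonneg hu0 (by norm_num : (0 : ℝ) ≤ 100)]
  · intro m' hm'
    have hm'1 : (m : ℝ) ≤ m' := by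
      rcases hm' with rfl | rfl
      · exact le_rfl
      · push_cast
        linarith
    have hm'2 : (m' : ℝ) ≤ m + 1 := by
      rcases hm' with rfl | rfl
      · linarith
      · push_cast
        exact le_rfl
    have hm'0 : (0 : ℝ) < m' := by linarith
    have hu' : 0 ≤ u + dl m u := by linarith
    have hJ3 := L8a_J_le m' hu'
    have hJ4 := L8a_le_J m' (u + dl m u)
    have h1 : u / (m + 1) ≤ (u + dl m u) / m' := by
      apply div_le_div₀ hu' (by linarith) hm'0 hm'2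
    refine ⟨?_, ?_, ?_⟩
    · have h2 : u / m + 1 ≤ 2 * (u / (m + 1)) := by
        rw [← sub_nonneg]
        have e : 2 * (u / (m + 1)) - (u / m + 1) =
            (u * (m - 1) - m * (m + 1)) / (m * (m + 1)) := by
          field_simp
          ring
        rw [e]
        apply div_nonneg _ (by positivity)
        nlinarith
      linarith
    · rw [Jf, Nat.ceil_pos]
      apply div_pos _ hm'0
      linarith
    · have h2 : (4 : ℝ) * Real.exp ((2 * m + 1) / 100) ≤ Real.exp (2 + (2 * m + 1) / 100) := by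
        rw [Real.exp_add]
        apply mul_le_mul_of_nonneg_right _ (Real.exp_pos _).le
        have h3 : (2 : ℝ) ≤ Real.exp 1 := by
          have := Real.add_one_le_exp (1 : ℝ)
          linarith
        have h4 : Real.exp 2 = Real.exp 1 * Real.exp 1 := by
          rw [← Real.exp_add]
          norm_num
        rw [h4]
        nlinarith
      refine (pow_le_pow_left₀ (by positivity) h2 _).trans ?_
      rw [← Real.exp_nat_mul, Real.exp_le_exp]
      have h5 : (u + dl m u) / m' ≤ (u + dl m u) / m :=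
        div_le_div_of_nonneg_left hu' hm0 hm'1
      have h6 : (Jf m' (u + dl m u) : ℝ) ≤ (u + dl m u) / m + 1 := hJ3.trans (by linarith)
      have hc2 : 2 + (2 * (m : ℝ) + 1) / 100 ≤ 23 / 1000 * m := by
        linarith
      have hc3 : (0 : ℝ) ≤ 2 + (2 * (m : ℝ) + 1) / 100 := by positivity
      calc (Jf m' (u + dl m u) : ℝ) * (2 + (2 * (m : ℝ) + 1) / 100)
          ≤ ((u + dl m u) / m + 1) * (23 / 1000 * m) := by
            apply mul_le_mul h6 hc2 hc3
            positivity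
        _ = 23 / 1000 * (u + dl m u) + 23 / 1000 * m := by
            field_simp
        _ ≤ 9 / 100 * (u + dl m u) := by
            linarith

/-- `2 dl m u / dl m' u' = 2 h_m J / (h_{m'} J') ≤ 4 exp ((2 m + 1) / 100)` (`h_m / h_{m + 1} = exp ((2 m + 1) / 100)`),
and `exp (u / 100) * exp (9 u' / 100) ≤ exp (u' / 10)`. -/
theorem stage_ratio {m : ℕ} (hm : 1000 ≤ m) (A : ℝ) : ∃ U : ℝ, ∀ u : ℝ, U ≤ u →
    ∀ m' : ℕ, (m' = m ∨ m' = m + 1) →
      4 * A * (m * Jf m u) *
        (max 1 (2 * dl m u / dl m' (u + dl m u))) ^ Jf m' (u + dl m u) ≤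
      Real.exp ((u + dl m u) / 10) := by
  obtain ⟨U, hU⟩ := stage_num hm A
  refine ⟨U, fun u hu m' hm' => ?_⟩
  obtain ⟨h1, h2, h3, h4, h5⟩ := hU u hu
  obtain ⟨h6, h7, h8⟩ := h5 m' hm'
  have hc := L8a_hh_pos m
  have hc' := L8a_hh_pos m'
  have hJ' : (0 : ℝ) < Jf m' (u + dl m u) := by exact_mod_cast h7
  have hE1 : 1 ≤ Real.exp ((2 * (m : ℝ) + 1) / 100) := Real.one_le_exp (by positivity)
  have hhr : hh m ≤ hh m' * Real.exp ((2 * (m : ℝ) + 1) / 100) := by
    rcases hm' with rfl | rfl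
    · nlinarith
    · exact (L8a_hh_ratio m).le
  have hr : 2 * dl m u / dl m' (u + dl m u) ≤ 4 * Real.exp ((2 * (m : ℝ) + 1) / 100) := by
    have hd : 0 < dl m' (u + dl m u) := by
      unfold dl
      unfold dl at hJ'
      positivity
    rw [div_le_iff₀ hd]
    have e1 : dl m' (u + dl m u) = 2 * hh m' * Jf m' (u + dl m u) := rfl
    have e2 : 2 * dl m u = 4 * hh m * Jf m u := by
      unfold dl
      ring
    rw [e1, e2]
    calc 4 * hh m * Jf m u ≤ 4 * hh m * (2 * Jf m' (u + dl m u)) := by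
          apply mul_le_mul_of_nonneg_left h6
          positivity
      _ ≤ 4 * (hh m' * Real.exp ((2 * (m : ℝ) + 1) / 100)) * (2 * Jf m' (u + dl m u)) := by
          apply mul_le_mul_of_nonneg_right _ (by positivity)
          linarith
      _ = _ := by ring
  have hmax : max 1 (2 * dl m u / dl m' (u + dl m u)) ≤ 4 * Real.exp ((2 * (m : ℝ) + 1) / 100) :=
    max_le (by linarith) hr
  have hP : (max 1 (2 * dl m u / dl m' (u + dl m u))) ^ Jf m' (u + dl m u) ≤
      Real.exp (9 / 100 * (u + dl m u)) :=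
    (pow_le_pow_left₀ (by positivity) hmax _).trans h8
  calc 4 * A * (m * Jf m u) * (max 1 (2 * dl m u / dl m' (u + dl m u))) ^ Jf m' (u + dl m u)
      ≤ Real.exp (u / 100) *
        (max 1 (2 * dl m u / dl m' (u + dl m u))) ^ Jf m' (u + dl m u) :=
        mul_le_mul_of_nonneg_right h4 (by positivity)
    _ ≤ Real.exp (u / 100) * Real.exp (9 / 100 * (u + dl m u)) :=
        mul_le_mul_of_nonneg_left hP (by positivity)
    _ ≤ Real.exp ((u + dl m u) / 10) := by
        rw [← Real.exp_add, Real.exp_le_exp]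
        linarith

/-- Let `u' = u + dl m u`, `J' = Jf m' u'`, `u'' = u' + dl m' u' ≤ 2 u'`. `dl m u = 2 h_m J ≤ 4 h_{m' - 1} J'` and
`dl m' u' ≤ 2 h_{m' - 1} J'`, so `dl m u + dl m' u' ≤ 6 h_{m' - 1} J'`, `h_{m' - 1} = exp (-(m' - 1) ^ 2 / 100) / 100`.
`J' ! ≥ (J' / e) ^ J'`. So it is enough that `(6 e K h_{m' - 1}) ^ J' ≤ exp (-(K u''))`, and this follows from
`J' ((m' - 1) ^ 2 / 100 - log (6 e K / 100)) ≥ 2 K u'`, which holds for large `m'` as `J' ≥ u' / m'`. -/
theorem stage_fact (K : ℝ) (hK : 0 < K) : ∃ M : ℕ, ∀ (m m' : ℕ) (u : ℝ), M ≤ m → 1000 ≤ m → 1 ≤ u →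
    (m' = m ∨ m' = m + 1) → (Jf m u : ℝ) ≤ 2 * Jf m' (u + dl m u) →
    0 < Jf m' (u + dl m u) → dl m' (u + dl m u) ≤ u + dl m u →
    (K * (dl m u + dl m' (u + dl m u))) ^ Jf m' (u + dl m u) ≤
      (Jf m' (u + dl m u)).factorial * Real.exp (-(K * (u + dl m u + dl m' (u + dl m u)))) := by
  refine ⟨⌈1000 * (K + 1)⌉₊, fun m m' u hM hm hu hm' hJJ hJ0 hdl => ?_⟩
  have hmK : 1000 * (K + 1) ≤ m := (Nat.le_ceil _).trans (by exact_mod_cast hM)
  have hmR : (1000 : ℝ) ≤ m := by exact_mod_cast hm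
  have hm0 : (0 : ℝ) < m := by linarith
  have hc := L8a_hh_pos m
  have hc' := L8a_hh_pos m'
  have hdl0 : 0 ≤ dl m u := by
    unfold dl
    positivity
  set u' := u + dl m u with hu'
  set J' := Jf m' u' with hJ'
  have hJ'0 : (0 : ℝ) < J' := by exact_mod_cast hJ0
  have hu'0 : 0 < u' := by linarith
  have hhm : hh m' ≤ hh m := by
    rcases hm' with rfl | rfl
    · exact le_rfl
    · exact L8a_hh_anti m
  have hm'2 : (m' : ℝ) ≤ m + 1 := by
    rcases hm' with rfl | rfl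
    · linarith
    · push_cast
      exact le_rfl
  have hm'0 : (0 : ℝ) < m' := by
    rcases hm' with rfl | rfl
    · exact hm0
    · push_cast
      linarith
  have hd1 : dl m u ≤ 4 * hh m * J' := by
    have e : dl m u = 2 * hh m * Jf m u := rfl
    rw [e]
    calc 2 * hh m * Jf m u ≤ 2 * hh m * (2 * J') :=
          mul_le_mul_of_nonneg_left hJJ (by positivity)
      _ = _ := by ring
  have hd2 : dl m' u' ≤ 2 * hh m * J' := by
    have e : dl m' u' = 2 * hh m' * J' := rfl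
    rw [e]
    apply mul_le_mul_of_nonneg_right _ hJ'0.le
    linarith
  have hd20 : 0 ≤ dl m' u' := by
    have e : dl m' u' = 2 * hh m' * J' := rfl
    rw [e]
    positivity
  have hfac : (J' : ℝ) ^ J' ≤ J'.factorial * Real.exp J' := by
    have h1 := Real.pow_div_factorial_le_exp (J' : ℝ) hJ'0.le J'
    rwa [div_le_iff₀ (by positivity), mul_comm] at h1
  have h6 : 6 * K * hh m * Real.exp 1 ≤ Real.exp (K + 1 - m ^ 2 / 100) := by
    have e1 : Real.exp (K + 1 - (m : ℝ) ^ 2 / 100) =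
        Real.exp K * Real.exp 1 * Real.exp (-((m : ℝ) ^ 2 / 100)) := by
      rw [← Real.exp_add, ← Real.exp_add]
      congr 1
    rw [e1]
    unfold hh
    have h7 : 6 * K / 100 ≤ Real.exp K := by
      have := Real.add_one_le_exp K
      linarith
    calc 6 * K * (Real.exp (-((m : ℝ) ^ 2 / 100)) / 100) * Real.exp 1
        = (6 * K / 100) * (Real.exp 1 * Real.exp (-((m : ℝ) ^ 2 / 100))) := by ring
      _ ≤ Real.exp K * (Real.exp 1 * Real.exp (-((m : ℝ) ^ 2 / 100))) :=
          mul_le_mul_of_nonneg_right h7 (by positivity)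
      _ = _ := by ring
  have hJge : u' ≤ J' * (m + 1) := by
    have h7 : u' / m' ≤ J' := L8a_le_J m' u'
    rw [div_le_iff₀ hm'0] at h7
    exact h7.trans (mul_le_mul_of_nonneg_left hm'2 hJ'0.le)
  have hkey : (J' : ℝ) * (K + 1 - m ^ 2 / 100) ≤ -(2 * K * u') := by
    have h7 : 2 * K * (m + 1) ≤ (m : ℝ) ^ 2 / 100 - K - 1 := by
      nlinarith
    have h8 : 2 * K * u' ≤ 2 * K * (J' * (m + 1)) := mul_le_mul_of_nonneg_left hJge (by positivity)
    have h9 : (J' : ℝ) * (2 * K * (m + 1)) ≤ J' * ((m : ℝ) ^ 2 / 100 - K - 1) :=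
      mul_le_mul_of_nonneg_left h7 hJ'0.le
    nlinarith
  calc (K * (dl m u + dl m' u')) ^ J'
      ≤ (6 * K * hh m * J') ^ J' := by
        apply pow_le_pow_left₀ (by positivity)
        calc K * (dl m u + dl m' u') ≤ K * (4 * hh m * J' + 2 * hh m * J') :=
              mul_le_mul_of_nonneg_left (add_le_add hd1 hd2) hK.le
          _ = _ := by ring
    _ = (6 * K * hh m) ^ J' * (J' : ℝ) ^ J' := mul_pow _ _ _
    _ ≤ (6 * K * hh m) ^ J' * (J'.factorial * Real.exp J') :=
        mul_le_mul_of_nonneg_left hfac (by positivity)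
    _ = J'.factorial * (6 * K * hh m * Real.exp 1) ^ J' := by
        rw [mul_pow (6 * K * hh m) (Real.exp 1), ← Real.exp_nat_mul, mul_one]
        ring
    _ ≤ J'.factorial * (Real.exp (K + 1 - m ^ 2 / 100)) ^ J' :=
        mul_le_mul_of_nonneg_left (pow_le_pow_left₀ (by positivity) h6 _) (by positivity)
    _ ≤ J'.factorial * Real.exp (-(K * (u' + dl m' u'))) := by
        apply mul_le_mul_of_nonneg_left _ (by positivity)
        rw [← Real.exp_nat_mul, Real.exp_le_exp]
        nlinarith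

end Pool.Agent.EEAC
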