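import Pool.Agent.W_eea520_c.C0

set_option autoImplicit false

namespace Pool.Agent.EEAC

open Filter Topology

/-- The correction term. -/
noncomputable def Psi (u : ℝ) (J : ℕ) (E : ℕ → ℝ) (s : ℂ) : ℂ :=
  Complex.exp (-(s * u)) * ∑ j ∈ Finset.range J, (-s) ^ j / (j.factorial : ℂ) * (E j : ℂ)

/-- The recentred moments. -/
noncomputable def Rec (d : ℝ) (E : ℕ → ℝ) (j : ℕ) : ℝ :=
  ∑ i ∈ Finset.range (j + 1), (j.choose i : ℝ) * (-d) ^ (j - i) * E i

/-- `∑ binom(j,i) d ^ (j - i) M d ^ i = M (2 d) ^ j`. -/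
theorem Rec_le {d M : ℝ} (hd : 0 ≤ d) {E : ℕ → ℝ} (hE : ∀ j, |E j| ≤ M * d ^ j) (j : ℕ) :
    |Rec d E j| ≤ M * (2 * d) ^ j := by
  unfold Rec
  calc |∑ i ∈ Finset.range (j + 1), (j.choose i : ℝ) * (-d) ^ (j - i) * E i|
      ≤ ∑ i ∈ Finset.range (j + 1), |(j.choose i : ℝ) * (-d) ^ (j - i) * E i| :=
        Finset.abs_sum_le_sum_abs _ _
    _ ≤ ∑ i ∈ Finset.range (j + 1), (j.choose i : ℝ) * (M * d ^ j) := by
        refine Finset.sum_le_sum fun i hi => ?_
        have hi' : i ≤ j := Nat.lt_succ_iff.1 (Finset.mem_range.1 hi)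
        rw [abs_mul, abs_mul, abs_pow, abs_neg, abs_of_nonneg hd, Nat.abs_cast, mul_assoc]
        refine mul_le_mul_of_nonneg_left ?_ (Nat.cast_nonneg _)
        calc d ^ (j - i) * |E i| ≤ d ^ (j - i) * (M * d ^ i) :=
              mul_le_mul_of_nonneg_left (hE i) (pow_nonneg hd _)
          _ = M * (d ^ (j - i) * d ^ i) := by ring
          _ = M * d ^ j := by rw [← pow_add, Nat.sub_add_cancel hi']
    _ = M * (2 * d) ^ j := by
        rw [← Finset.sum_mul, ← Nat.cast_sum, Nat.sum_range_choose, mul_pow]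
        push_cast
        ring

/-- `exp (-s u₀) = exp (-s u₁) * exp ((-s) * (-d))`, `d = u₁ - u₀`, and the product of the series
`∑ (-s) ^ l (-d) ^ l / l !` and the finite sum `∑ (-s) ^ i E i / i !` is `∑ (-s) ^ j / j ! * Rec d E j`. -/
theorem Psi_rec {u₀ u₁ : ℝ} {J : ℕ} {E : ℕ → ℝ} (hE : ∀ j, J ≤ j → E j = 0) (s : ℂ) :
    HasSum (fun j : ℕ => Complex.exp (-(s * u₁)) *
      ((-s) ^ j / (j.factorial : ℂ) * (Rec (u₁ - u₀) E j : ℂ))) (Psi u₀ J E s) := by
  set f : ℕ → ℂ := fun i => (-s) ^ i / (i.factorial : ℂ) * (E i : ℂ) with hf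
  set g : ℕ → ℂ := fun i => ((-s) * (-((u₁ - u₀ : ℝ) : ℂ))) ^ i / (i.factorial : ℂ) with hg
  have hf0 : ∀ i ∉ Finset.range J, f i = 0 := by
    intro i hi
    have h1 : J ≤ i := by
      by_contra h
      exact hi (Finset.mem_range.2 (by omega))
    simp only [hf]
    rw [hE i h1]
    simp
  have hfs : HasSum f (∑ i ∈ Finset.range J, f i) := hasSum_sum_of_ne_finset_zero hf0
  have hgs : HasSum g (Complex.exp ((-s) * (-((u₁ - u₀ : ℝ) : ℂ)))) := by
    have h1 := NormedSpace.expSeries_div_hasSum_exp ((-s) * (-((u₁ - u₀ : ℝ) : ℂ)))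
    rwa [← Complex.exp_eq_exp_ℂ] at h1
  have hfn : Summable fun i => ‖f i‖ :=
    summable_of_ne_finset_zero (s := Finset.range J) (fun i hi => by rw [hf0 i hi, norm_zero])
  have hgn : Summable fun i => ‖g i‖ := NormedSpace.norm_expSeries_div_summable _
  have hprod := hasSum_sum_range_mul_of_summable_norm hfn hgn
  rw [hfs.tsum_eq, hgs.tsum_eq] at hprod
  have hprod2 := hprod.mul_left (Complex.exp (-(s * u₁)))
  have hval : Complex.exp (-(s * u₁)) * ((∑ i ∈ Finset.range J, f i) *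
      Complex.exp ((-s) * (-((u₁ - u₀ : ℝ) : ℂ)))) = Psi u₀ J E s := by
    unfold Psi
    have h1 : Complex.exp (-(s * u₀)) = Complex.exp (-(s * u₁)) *
        Complex.exp ((-s) * (-((u₁ - u₀ : ℝ) : ℂ))) := by
      rw [← Complex.exp_add]
      congr 1
      push_cast
      ring
    rw [h1]
    ring
  rw [hval] at hprod2
  have hterm : (fun j : ℕ => Complex.exp (-(s * u₁)) *
      ((-s) ^ j / (j.factorial : ℂ) * (Rec (u₁ - u₀) E j : ℂ))) =
      fun n => Complex.exp (-(s * u₁)) * ∑ k ∈ Finset.range (n + 1), f k * g (n - k) := by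
    funext j
    congr 1
    unfold Rec
    rw [Complex.ofReal_sum, Finset.mul_sum]
    refine Finset.sum_congr rfl fun i hi => ?_
    have hi' : i ≤ j := Nat.lt_succ_iff.1 (Finset.mem_range.1 hi)
    have h1 : ((j.choose i : ℕ) : ℂ) = (j.factorial : ℂ) / ((i.factorial : ℂ) * ((j - i).factorial : ℂ)) :=
      Nat.cast_choose ℂ hi'
    have h2 : (j.factorial : ℂ) ≠ 0 := by exact_mod_cast j.factorial_ne_zero
    have h3 : (i.factorial : ℂ) ≠ 0 := by exact_mod_cast i.factorial_ne_zero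
    have h4 : ((j - i).factorial : ℂ) ≠ 0 := by exact_mod_cast (j - i).factorial_ne_zero
    have h5 : (-s) ^ j = (-s) ^ i * (-s) ^ (j - i) := by
      rw [← pow_add, Nat.add_sub_cancel' hi']
    simp only [hf, hg]
    rw [Complex.ofReal_mul, Complex.ofReal_mul, Complex.ofReal_natCast, h1, h5, mul_pow]
    push_cast
    field_simp
  rw [hterm]
  exact hprod2

/-- `N ^ (-s) = exp (-s u₁) * exp (-s (log N - u₁))`. -/
theorem block_series (a : ℕ → ℝ) (u₁ u₂ : ℝ) (s : ℂ) :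
    HasSum (fun j : ℕ => Complex.exp (-(s * u₁)) * ((-s) ^ j / (j.factorial : ℂ) *
      ((∑ N ∈ bl u₁ u₂, a N * (Real.log N - u₁) ^ j : ℝ) : ℂ)))
      (∑ N ∈ bl u₁ u₂, (a N : ℂ) * (N : ℂ) ^ (-s)) := by
  have h1 : ∀ N ∈ bl u₁ u₂, HasSum (fun j : ℕ => Complex.exp (-(s * u₁)) * (a N : ℂ) *
      (((-s) * ((Real.log N - u₁ : ℝ) : ℂ)) ^ j / (j.factorial : ℂ)))
      ((a N : ℂ) * (N : ℂ) ^ (-s)) := by
    intro N hN
    have hN0 : 0 < N := (mem_bl.1 hN).1
    have hN1 : (N : ℂ) ≠ 0 := by exact_mod_cast hN0.ne'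
    have h2 := NormedSpace.expSeries_div_hasSum_exp ((-s) * ((Real.log N - u₁ : ℝ) : ℂ))
    rw [← Complex.exp_eq_exp_ℂ] at h2
    have h3 := h2.mul_left (Complex.exp (-(s * u₁)) * (a N : ℂ))
    have h4 : Complex.exp (-(s * u₁)) * (a N : ℂ) *
        Complex.exp ((-s) * ((Real.log N - u₁ : ℝ) : ℂ)) = (a N : ℂ) * (N : ℂ) ^ (-s) := by
      have h5 : (N : ℂ) ^ (-s) = Complex.exp (-(s * u₁)) *
          Complex.exp ((-s) * ((Real.log N - u₁ : ℝ) : ℂ)) := by
        rw [Complex.cpow_def_of_ne_zero hN1, ← Complex.exp_add, ← Complex.natCast_log]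
        congr 1
        push_cast
        ring
      rw [h5]
      ring
    rwa [h4] at h3
  have h2 := hasSum_sum h1
  have hterm : (fun j : ℕ => Complex.exp (-(s * u₁)) * ((-s) ^ j / (j.factorial : ℂ) *
      ((∑ N ∈ bl u₁ u₂, a N * (Real.log N - u₁) ^ j : ℝ) : ℂ))) =
      fun j : ℕ => ∑ N ∈ bl u₁ u₂, Complex.exp (-(s * u₁)) * (a N : ℂ) *
      (((-s) * ((Real.log N - u₁ : ℝ) : ℂ)) ^ j / (j.factorial : ℂ)) := by
    funext j
    rw [Complex.ofReal_sum, Finset.mul_sum, Finset.mul_sum]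
    refine Finset.sum_congr rfl fun N _ => ?_
    rw [mul_pow]
    push_cast
    ring
  rw [hterm]
  exact h2

/-- The general form of the tail estimate. -/
theorem L9a_tail {V : Type*} [NormedAddCommGroup V] {x : ℝ} (hx : 0 ≤ x) (J : ℕ) {C : ℝ} (hC : 0 ≤ C)
    {g : ℕ → V} (hg : ∀ j, J ≤ j → ‖g j‖ ≤ C * (x ^ j / j.factorial))
    (hg0 : ∀ j, j < J → g j = 0) {S : V} (hS : HasSum g S) :
    ‖S‖ ≤ C * (x ^ J / J.factorial * Real.exp x) := by
  have h1 : HasSum (fun i => g (i + J)) S := by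
    have h2 := (hasSum_nat_add_iff' J).2 hS
    rw [Finset.sum_eq_zero (fun i hi => hg0 i (Finset.mem_range.1 hi)), sub_zero] at h2
    exact h2
  have h2 : HasSum (fun i : ℕ => C * (x ^ J / J.factorial * (x ^ i / i.factorial)))
      (C * (x ^ J / J.factorial * Real.exp x)) := by
    have h3 := NormedSpace.expSeries_div_hasSum_exp x
    rw [← Real.exp_eq_exp_ℝ] at h3
    exact (h3.mul_left _).mul_left _
  refine h1.norm_le_of_bounded h2 fun i => ?_
  refine (hg (i + J) (Nat.le_add_left _ _)).trans ?_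
  refine mul_le_mul_of_nonneg_left ?_ hC
  rw [div_mul_div_comm, ← pow_add, add_comm J i]
  have h3 : (0 : ℝ) < (J.factorial : ℝ) * (i.factorial : ℝ) := by
    have := J.factorial_pos
    have := i.factorial_pos
    positivity
  refine div_le_div_of_nonneg_left (pow_nonneg hx _) h3 ?_
  have h4 : J.factorial * i.factorial ≤ (i + J).factorial := by
    rw [add_comm i J]
    exact Nat.le_of_dvd (Nat.factorial_pos _) (Nat.factorial_mul_factorial_dvd_factorial_add J i)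
  exact_mod_cast h4

/-- `∑_{j ≥ J} x ^ j / j ! ≤ x ^ J / J ! * exp x`, as `(J + i)! ≥ J ! i !`. -/
theorem tail_le {x : ℝ} (hx : 0 ≤ x) (J : ℕ) {g : ℕ → ℝ} (hg : ∀ j, J ≤ j → |g j| ≤ x ^ j / j.factorial)
    (hg0 : ∀ j, j < J → g j = 0) {S : ℝ} (hS : HasSum g S) :
    |S| ≤ x ^ J / J.factorial * Real.exp x := by
  have h := L9a_tail hx J zero_le_one (g := g)
    (fun j hj => by rw [one_mul, Real.norm_eq_abs]; exact hg j hj) hg0 hS
  rwa [one_mul, Real.norm_eq_abs] at h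

/-- THE ERROR OF ONE BLOCK. By `Psi_rec` and `block_series` the expression is `exp (-s u₁)` times the sum over
`j ≥ J₁` of `(-s) ^ j / j ! * (M j + Rec d E₀ j)`, `M j` the moment of the block, `|M j| ≤ A * (exp u₂ + 1) * (u₂ - u₁) ^ j`,
`|Rec d E₀ j| ≤ exp (u₀ / 2) (2 (u₁ - u₀)) ^ j`; the terms `j < J₁` cancel by `hM`. So it is at most
`exp (K u₂) * (A * (exp u₂ + 1) + exp u₂) * ∑_{j ≥ J₁} (2 K (u₂ - u₀)) ^ j / j !`, and by `tail_le` (for the norms)
and `hs` the last sum is at most `exp (-(K' u₂)) * exp (2 K u₂)`. -/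
theorem eps_bound {a : ℕ → ℝ} {A : ℝ} (hA : 0 ≤ A) (ha : ∀ N, |a N| ≤ A) {u₀ u₁ u₂ : ℝ}
    (h0 : 0 ≤ u₀) (h01 : u₀ < u₁) (h12 : u₁ < u₂) {J₀ J₁ : ℕ} {E₀ E₁ : ℕ → ℝ}
    (hE₀ : ∀ j, |E₀ j| ≤ Real.exp (u₀ / 2) * (u₁ - u₀) ^ j) (hz : ∀ j, J₀ ≤ j → E₀ j = 0)
    (hM : ∀ j < J₁, ∑ N ∈ bl u₁ u₂, a N * (Real.log N - u₁) ^ j = E₁ j - Rec (u₁ - u₀) E₀ j)
    {K K' : ℝ} (hK : 1 ≤ K) (hK' : 3 * K + 2 ≤ K')
    (hs : (K' * (u₂ - u₀)) ^ J₁ ≤ J₁.factorial * Real.exp (-(K' * u₂))) {s : ℂ} (hsK : ‖s‖ ≤ K) :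
    ‖(∑ N ∈ bl u₁ u₂, (a N : ℂ) * (N : ℂ) ^ (-s)) - Psi u₁ J₁ E₁ s + Psi u₀ J₀ E₀ s‖ ≤
      (2 * A + 1) * Real.exp (-u₂) := by
  have hu2 : 0 ≤ u₂ := (h0.trans h01.le).trans h12.le
  have hd : 0 ≤ u₁ - u₀ := sub_nonneg.2 h01.le
  have hK0 : 0 ≤ K := zero_le_one.trans hK
  -- the moments of the block
  set Mo : ℕ → ℝ := fun j => ∑ N ∈ bl u₁ u₂, a N * (Real.log N - u₁) ^ j with hMo
  have hMo_le : ∀ j, |Mo j| ≤ A * Real.exp u₂ * (2 * (u₂ - u₀)) ^ j := by
    intro j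
    have hcard : ((bl u₁ u₂).card : ℝ) ≤ Real.exp u₂ := by
      unfold bl
      rw [Nat.card_Ico]
      have h1 : ⌈Real.exp u₁⌉₊ ≤ ⌈Real.exp u₂⌉₊ := Nat.ceil_mono (Real.exp_le_exp.2 h12.le)
      rw [Nat.cast_sub h1]
      have h2 : (⌈Real.exp u₂⌉₊ : ℝ) < Real.exp u₂ + 1 := Nat.ceil_lt_add_one (Real.exp_pos _).le
      have h3 : Real.exp u₁ ≤ (⌈Real.exp u₁⌉₊ : ℝ) := Nat.le_ceil _
      have h4 : 1 ≤ Real.exp u₁ := Real.one_le_exp (h0.trans h01.le)
      linarith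
    calc |Mo j| ≤ ∑ N ∈ bl u₁ u₂, |a N * (Real.log N - u₁) ^ j| := Finset.abs_sum_le_sum_abs _ _
      _ ≤ ∑ N ∈ bl u₁ u₂, A * (2 * (u₂ - u₀)) ^ j := by
          refine Finset.sum_le_sum fun N hN => ?_
          obtain ⟨_, h1, h2⟩ := mem_bl.1 hN
          rw [abs_mul, abs_pow, abs_of_nonneg (sub_nonneg.2 h1)]
          refine mul_le_mul (ha N) ?_ (pow_nonneg (sub_nonneg.2 h1) _) hA
          exact pow_le_pow_left₀ (sub_nonneg.2 h1) (by linarith) _
      _ = (bl u₁ u₂).card * (A * (2 * (u₂ - u₀)) ^ j) := by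
          rw [Finset.sum_const, nsmul_eq_mul]
      _ ≤ Real.exp u₂ * (A * (2 * (u₂ - u₀)) ^ j) := by
          refine mul_le_mul_of_nonneg_right hcard (mul_nonneg hA (pow_nonneg ?_ _))
          linarith
      _ = A * Real.exp u₂ * (2 * (u₂ - u₀)) ^ j := by ring
  have hRec_le : ∀ j, |Rec (u₁ - u₀) E₀ j| ≤ Real.exp u₂ * (2 * (u₂ - u₀)) ^ j := by
    intro j
    refine (Rec_le hd hE₀ j).trans ?_
    refine mul_le_mul ?_ (pow_le_pow_left₀ (by linarith) (by linarith) _)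
      (pow_nonneg (by linarith) _) (Real.exp_pos _).le
    exact Real.exp_le_exp.2 (by linarith)
  -- the series
  have hS1 := block_series a u₁ u₂ s
  have hS2 := Psi_rec (u₀ := u₀) (u₁ := u₁) hz s
  have hS3 : HasSum (fun j : ℕ => if j < J₁ then Complex.exp (-(s * u₁)) *
      ((-s) ^ j / (j.factorial : ℂ) * (E₁ j : ℂ)) else 0) (Psi u₁ J₁ E₁ s) := by
    have h1 : Psi u₁ J₁ E₁ s = ∑ j ∈ Finset.range J₁, (if j < J₁ then Complex.exp (-(s * u₁)) *
        ((-s) ^ j / (j.factorial : ℂ) * (E₁ j : ℂ)) else 0) := by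
      unfold Psi
      rw [Finset.mul_sum]
      refine Finset.sum_congr rfl fun j hj => ?_
      rw [if_pos (Finset.mem_range.1 hj)]
    rw [h1]
    refine hasSum_sum_of_ne_finset_zero fun j hj => ?_
    rw [if_neg]
    intro h
    exact hj (Finset.mem_range.2 h)
  have hS := (hS1.sub hS3).add hS2
  set x : ℝ := 2 * K * (u₂ - u₀) with hx
  have hx0 : 0 ≤ x := by
    have : 0 ≤ u₂ - u₀ := by linarith
    positivity
  have hbound := L9a_tail (x := x) hx0 J₁ (C := Real.exp (K * u₂) * ((A + 1) * Real.exp u₂))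
    (by positivity) ?_ ?_ hS
  · refine hbound.trans ?_
    have hJ : (0 : ℝ) < (J₁.factorial : ℝ) := by exact_mod_cast J₁.factorial_pos
    have h1 : x ^ J₁ / (J₁.factorial : ℝ) ≤ Real.exp (-(K' * u₂)) := by
      rw [div_le_iff₀ hJ]
      calc x ^ J₁ ≤ (K' * (u₂ - u₀)) ^ J₁ := by
            refine pow_le_pow_left₀ hx0 ?_ _
            have : 0 ≤ u₂ - u₀ := by linarith
            rw [hx]
            refine mul_le_mul_of_nonneg_right ?_ this
            linarith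
        _ ≤ J₁.factorial * Real.exp (-(K' * u₂)) := hs
        _ = Real.exp (-(K' * u₂)) * J₁.factorial := mul_comm _ _
    have h2 : Real.exp x ≤ Real.exp (2 * K * u₂) := by
      refine Real.exp_le_exp.2 ?_
      rw [hx]
      refine mul_le_mul_of_nonneg_left (by linarith) (by linarith)
    calc Real.exp (K * u₂) * ((A + 1) * Real.exp u₂) * (x ^ J₁ / J₁.factorial * Real.exp x)
        ≤ Real.exp (K * u₂) * ((A + 1) * Real.exp u₂) *
          (Real.exp (-(K' * u₂)) * Real.exp (2 * K * u₂)) := by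
          refine mul_le_mul_of_nonneg_left ?_ (by positivity)
          exact mul_le_mul h1 h2 (Real.exp_pos _).le (Real.exp_pos _).le
      _ = (A + 1) * Real.exp (K * u₂ + u₂ + (-(K' * u₂) + 2 * K * u₂)) := by
          rw [Real.exp_add, Real.exp_add, Real.exp_add]
          ring
      _ ≤ (2 * A + 1) * Real.exp (-u₂) := by
          refine mul_le_mul (by linarith) (Real.exp_le_exp.2 ?_) (Real.exp_pos _).le (by linarith)
          nlinarith
  · intro j hj
    rw [if_neg (not_lt.2 hj), sub_zero]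
    have h1 : Complex.exp (-(s * u₁)) * ((-s) ^ j / (j.factorial : ℂ) * (Mo j : ℂ)) +
        Complex.exp (-(s * u₁)) * ((-s) ^ j / (j.factorial : ℂ) * (Rec (u₁ - u₀) E₀ j : ℂ)) =
        Complex.exp (-(s * u₁)) * ((-s) ^ j / (j.factorial : ℂ) *
          ((Mo j + Rec (u₁ - u₀) E₀ j : ℝ) : ℂ)) := by
      push_cast
      ring
    have h2 : ‖Complex.exp (-(s * u₁))‖ ≤ Real.exp (K * u₂) := by
      rw [Complex.norm_exp]
      refine Real.exp_le_exp.2 ?_
      have h3 : (-(s * u₁)).re ≤ ‖s‖ * u₁ := by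
        refine (Complex.re_le_norm _).trans ?_
        rw [norm_neg, norm_mul, Complex.norm_real, Real.norm_eq_abs,
          abs_of_nonneg (h0.trans h01.le)]
      refine h3.trans ?_
      exact mul_le_mul hsK h12.le (h0.trans h01.le) hK0
    have h4 : ‖(-s) ^ j / (j.factorial : ℂ)‖ ≤ K ^ j / j.factorial := by
      rw [norm_div, norm_pow, norm_neg, Complex.norm_natCast]
      exact div_le_div_of_nonneg_right (pow_le_pow_left₀ (norm_nonneg _) hsK _) (Nat.cast_nonneg _)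
    have h5 : ‖((Mo j + Rec (u₁ - u₀) E₀ j : ℝ) : ℂ)‖ ≤
        (A + 1) * Real.exp u₂ * (2 * (u₂ - u₀)) ^ j := by
      rw [Complex.norm_real, Real.norm_eq_abs]
      refine (abs_add_le _ _).trans ?_
      have := hMo_le j
      have := hRec_le j
      nlinarith
    have h6 : ‖Complex.exp (-(s * u₁)) * ((-s) ^ j / (j.factorial : ℂ) *
        ((Mo j + Rec (u₁ - u₀) E₀ j : ℝ) : ℂ))‖ ≤
        Real.exp (K * u₂) * ((A + 1) * Real.exp u₂) * (x ^ j / j.factorial) := by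
      rw [norm_mul, norm_mul]
      have h7 : Real.exp (K * u₂) * ((A + 1) * Real.exp u₂) * (x ^ j / j.factorial) =
          Real.exp (K * u₂) * (K ^ j / j.factorial *
            ((A + 1) * Real.exp u₂ * (2 * (u₂ - u₀)) ^ j)) := by
        rw [hx, show 2 * K * (u₂ - u₀) = K * (2 * (u₂ - u₀)) by ring, mul_pow]
        ring
      rw [h7]
      refine mul_le_mul h2 ?_ (by positivity) (Real.exp_pos _).le
      refine mul_le_mul h4 h5 (norm_nonneg _) ?_
      positivity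
    exact (congrArg norm h1).le.trans h6
  · intro j hj
    rw [if_pos hj, hM j hj]
    push_cast
    ring

end Pool.Agent.EEAC
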