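import Pool.Agent.W_eea520_n.R1
import Pool.Agent.W_eea520_n.R2

/-!
# Finitely supported probability measures with given moments (MP_eea520_nt)
-/

set_option autoImplicit false

namespace Pool.Agent.EEAN

open Filter Topology Pool.Agent.EEA520 Pool.Agent.EEAG1

variable {n : ℕ}

/-- From a finite family to a finitely supported function. -/
theorem Mes_finsupp {X ι : Type} [Fintype ι] (q : ι → X) (r : ι → ℝ) (hr : ∀ j, 0 ≤ r j)
    (h1 : ∑ j, r j = 1) : ∃ ν : X →₀ ℝ, (∀ x, 0 ≤ ν x) ∧ (ν.sum fun _ z => z) = 1 ∧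
      (∀ x ∈ ν.support, ∃ j, x = q j) ∧
      ∀ f : X → ℝ, (ν.sum fun x z => z * f x) = ∑ j, r j * f (q j) := by
  classical
  have hs : ∀ f : X → ℝ, ((∑ j, Finsupp.single (q j) (r j)).sum fun x z => z * f x) =
      ∑ j, r j * f (q j) := by
    intro f
    rw [← Finsupp.sum_finsetSum_index (by intro a; simp) (by intro a b c; ring)]
    refine Finset.sum_congr rfl fun j _ => ?_
    rw [Finsupp.sum_single_index (by simp)]
  refine ⟨∑ j, Finsupp.single (q j) (r j), fun x => ?_, ?_, fun x hx => ?_, hs⟩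
  · rw [Finsupp.finsetSum_apply]
    refine Finset.sum_nonneg fun j _ => ?_
    rw [Finsupp.single_apply]
    split_ifs
    · exact hr j
    · exact le_rfl
  · have := hs fun _ => 1
    simpa [h1] using this
  · rw [Finsupp.mem_support_iff, Finsupp.finsetSum_apply] at hx
    obtain ⟨j, -, hj⟩ := Finset.exists_ne_zero_of_sum_ne_zero hx
    rw [Finsupp.single_apply] at hj
    refine ⟨j, ?_⟩
    by_contra hne
    rw [if_neg fun h => hne h.symm] at hj
    exact hj rfl

theorem CT.isPt {q : Torus n} (h : CT q) : IsPt q := ⟨⟨h.1, h.2.1⟩, h.2.2⟩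

/-- The measures of the sign types. -/
theorem Mes_sign {e : (Fin n → ℤ) → ℤ} (he : SignType e)
    (h : ∀ x : Fin n → ℤ, x ≠ 0 → (∀ i, |x i| ≤ 2 * n - 1) → e x = 0) (s : Finset (Wt n)) :
    ∃ ν : Torus n →₀ ℝ, (∀ q, 0 ≤ ν q) ∧ (ν.sum fun _ z => z) = 1 ∧ (∀ q ∈ ν.support, IsPt q) ∧
      ∀ w ∈ s, (ν.sum fun q z => z * wre q w) = (R1C e w : ℝ) := by
  classical
  set D := dd (rtsN n) with hD
  obtain ⟨S, hSne, hSn, hS⟩ := exists_points he
    (((s ×ˢ (Finset.univ : Finset (WG n))) ×ˢ D.support).image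
      (fun q => (fun i => (act q.1.2 q.1.1).2 i - (act q.1.2 q.1.1).1 / 2) + q.2) ∪ D.support)
  have hd : ∀ t : Fin n → ℂ, ∃ r : ℝ, t ∈ S →
      0 ≤ r ∧ (D.sum fun x z => (z : ℂ) * evp t x) = r := by
    intro t
    by_cases ht : t ∈ S
    · obtain ⟨r, hr, hr'⟩ := density_nonneg (rtsN n) (hSn t ht)
      exact ⟨r, fun _ => ⟨hr, hr'⟩⟩
    · exact ⟨0, fun h => absurd h ht⟩
  choose r hr using hd
  have hpt : ∀ t : Fin n → ℂ, ∃ P Q : Torus n, t ∈ S → CT P ∧ CT Q ∧
      ∀ v : Wt n, (P.ev v : ℂ) + (Q.ev v : ℂ) =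
        2 * if Even v.1 then evp t (fun i => v.2 i - v.1 / 2) else 0 := by
    intro t
    by_cases ht : t ∈ S
    · obtain ⟨P, Q, hPQ⟩ := R1c_point (hSn t ht)
      exact ⟨P, Q, fun _ => hPQ⟩
    · exact ⟨⟨1, fun _ => 1⟩, ⟨1, fun _ => 1⟩, fun h => absurd h ht⟩
  choose P Q hPQ using hpt
  -- the total mass
  have hmass : ∑ t ∈ S, r t = S.card * Fintype.card (WG n) := by
    have h1 := R1c_cor (e := e) (x := 0) hSn hS (fun t ht => (hr t ht).2) (fun y hy => by
      rw [zero_add]
      exact Finset.mem_union_right _ hy)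
    have h2 : ∀ t, evp t (0 : Fin n → ℤ) = 1 := by
      intro t
      unfold evp
      simp
    simp only [h2, mul_one, zero_add] at h1
    rw [R1c_mass he h] at h1
    exact_mod_cast h1
  have hSc : (0 : ℝ) < S.card := by exact_mod_cast Finset.card_pos.2 hSne
  have hWc : (0 : ℝ) < Fintype.card (WG n) := by exact_mod_cast Fintype.card_pos
  -- one weight
  have hone : ∀ w ∈ s, ∀ g : WG n,
      ∑ t ∈ S, r t * (((P t).ev (act g w) : ℂ).re + ((Q t).ev (act g w) : ℂ).re) =
        2 * (S.card * (R1C e w : ℝ)) := by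
    intro w hw g
    have h1 : ∀ t ∈ S, ((r t * (((P t).ev (act g w) : ℂ).re + ((Q t).ev (act g w) : ℂ).re) : ℝ)) =
        ((r t : ℂ) * (2 * if Even (act g w).1 then
          evp t (fun i => (act g w).2 i - (act g w).1 / 2) else 0)).re := by
      intro t ht
      rw [← (hPQ t ht).2.2 (act g w), Complex.re_ofReal_mul, Complex.add_re]
    rw [Finset.sum_congr rfl h1, ← Complex.re_sum, ← R1C_act he g w, R1c_C]
    by_cases hv : Even (act g w).1
    · simp only [if_pos hv]
      have h2 := R1c_cor (e := e) (x := fun i => (act g w).2 i - (act g w).1 / 2) hSn hS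
        (fun t ht => (hr t ht).2) (fun y hy => Finset.mem_union_left _ (Finset.mem_image.2
          ⟨((w, g), y), Finset.mem_product.2 ⟨Finset.mem_product.2 ⟨hw, Finset.mem_univ _⟩, hy⟩,
            rfl⟩))
      have h3 : ∑ t ∈ S, (r t : ℂ) * (2 * evp t (fun i => (act g w).2 i - (act g w).1 / 2)) =
          2 * ∑ t ∈ S, (r t : ℂ) * evp t (fun i => (act g w).2 i - (act g w).1 / 2) := by
        rw [Finset.mul_sum]
        exact Finset.sum_congr rfl fun t _ => by ring
      rw [h3, h2]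
      have h4 : ∀ z : ℤ, (2 : ℂ) * ((S.card : ℂ) * (z : ℂ)) = ((2 * (S.card * (z : ℝ)) : ℝ) : ℂ) :=
        fun z => by push_cast; rfl
      rw [h4, Complex.ofReal_re]
    · simp only [if_neg hv]
      simp
  -- the measure
  set c₀ : ℝ := 2 * (S.card * Fintype.card (WG n)) with hc₀
  have hc₀pos : 0 < c₀ := by positivity
  obtain ⟨ν, h1, h2, h3, h4⟩ := Mes_finsupp
    (fun j : {t // t ∈ S} × Bool => if j.2 then P j.1 else Q j.1) (fun j => r j.1 / c₀)
    (fun j => div_nonneg (hr _ j.1.2).1 hc₀pos.le) (by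
      rw [Fintype.sum_prod_type]
      have e1 : ∀ t : {t // t ∈ S}, ∑ _b : Bool, r t / c₀ = 2 * (r t / c₀) := by
        intro t
        rw [Fintype.sum_bool]
        ring
      rw [Finset.sum_congr rfl fun t _ => e1 t, ← Finset.mul_sum, ← Finset.sum_div,
        Finset.sum_coe_sort S fun t => r t, hmass, hc₀]
      field_simp)
  refine ⟨ν, h1, h2, fun q hq => ?_, fun w hw => ?_⟩
  · obtain ⟨j, rfl⟩ := h3 q hq
    show IsPt (if j.2 then P j.1 else Q j.1)
    split_ifs
    · exact (hPQ _ j.1.2).1.isPt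
    · exact (hPQ _ j.1.2).2.1.isPt
  · rw [h4 fun q => wre q w, Fintype.sum_prod_type]
    have e1 : ∀ t : {t // t ∈ S}, ∑ b : Bool, r t / c₀ * wre (if b then P t else Q t) w =
        (∑ g : WG n, r t * (((P t).ev (act g w) : ℂ).re + ((Q t).ev (act g w) : ℂ).re)) / c₀ := by
      intro t
      rw [Fintype.sum_bool]
      unfold wre
      rw [← Finset.mul_sum, Finset.sum_add_distrib]
      simp only [if_true, Bool.false_eq_true, if_false]
      ring
    rw [Finset.sum_congr rfl fun t _ => e1 t, ← Finset.sum_div,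
      Finset.sum_coe_sort S fun t =>
        ∑ g : WG n, r t * (((P t).ev (act g w) : ℂ).re + ((Q t).ev (act g w) : ℂ).re),
      Finset.sum_comm, Finset.sum_congr rfl fun g _ => hone w hw g, Finset.sum_const,
      Finset.card_univ, nsmul_eq_mul, hc₀]
    field_simp

end Pool.Agent.EEAN
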