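import Pool.Agent.W_eea520_c.Cont
import Pool.Agent.W_eea520_c.Mes1

/-!
# Every sign type is the law of a system with the conclusion of Q1 (MP_eea520_nt)
-/

set_option autoImplicit false

namespace Pool.Agent.EEAC

open Filter Topology Pool.Agent.EEA520 Pool.Agent.EEAN Pool.Agent.EEAG1 LSeries

variable {n : ℕ}

theorem to_XT {C : Wt n → ℤ} {F : Finset (Wt n)} (h : ∃ ν : Torus n →₀ ℝ, (∀ q, 0 ≤ ν q) ∧
    (ν.sum fun _ z => z) = 1 ∧ (∀ q ∈ ν.support, IsPt q) ∧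
      ∀ w ∈ F, (ν.sum fun q z => z * wre q w) = (C w : ℝ)) :
    ∃ ν : XT n →₀ ℝ, IsProb ν ∧ ∀ w ∈ F, (ν.sum fun q z => z * wre q.1 w) = C w := by
  obtain ⟨ν, h0, h1, h2, h3⟩ := h
  have hb : Set.BijOn (Subtype.val : XT n → Torus n) (Subtype.val ⁻¹' (ν.support : Set (Torus n)))
      (ν.support : Set (Torus n)) := by
    refine ⟨fun q hq => hq, Subtype.val_injective.injOn, fun q hq => ?_⟩
    exact ⟨⟨q, h2 q hq⟩, hq, rfl⟩
  refine ⟨Finsupp.comapDomain Subtype.val ν hb.injOn, ⟨fun q => h0 _, ?_⟩, fun w hw => ?_⟩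
  · rw [← h1]
    exact Finsupp.sum_comapDomain Subtype.val ν (fun _ z => z) hb
  · rw [← h3 w hw]
    exact Finsupp.sum_comapDomain Subtype.val ν (fun q z => z * wre q w) hb

/-- REALIZATION ON ALL OF `ℂ`. -/
theorem realizeC {e : (Fin n → ℤ) → ℤ} (he : SignType e)
    (h : ∀ x : Fin n → ℤ, x ≠ 0 → (∀ i, |x i| ≤ 2 * n - 1) → e x = 0) :
    ∃ π : GSys n, Tempered π ∧ (∀ p, (π p).c ^ 2 * ∏ i, (π p).x i = 1) ∧
      (∀ m : Wt n →₀ ℤ, IsCharacter m → Continues π m) ∧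
      ∀ (μ : Fin n → ℤ) (m : Wt n →₀ ℤ), IsIrr 0 μ m →
        PoleOrder π m 1 (ordE (fun w => e w.2) 0 μ) := by
  obtain ⟨π, h1, h2, h3⟩ := realize_all (C := R1C e) (fun F => to_XT (Mes_sign he h F))
    (fun m hm => by
      obtain ⟨a, ha⟩ := R1_int he hm
      exact ⟨a, ha.symm⟩)
  refine ⟨π, h1, h2, fun m hm => ?_, fun μ m hm => ?_⟩
  · obtain ⟨a, b, H, -, hH, hp⟩ := h3 m hm
    exact continues_of_form hH hp
  · obtain ⟨a, b, H, ha, hH, hp⟩ := h3 m hm.isCharacter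
    have h4 := poleOrder_of_formC hH hp 0
    rw [if_pos rfl] at h4
    have h5 : pt 0 = 1 := by
      unfold pt
      simp
    rw [h5] at h4
    have h6 := R1_int_irr he hm
    rw [h6] at ha
    have h7 : ((Fintype.card (WG n) : ℕ) : ℤ) ≠ 0 := by
      have := card_ne_zero' (n := n)
      exact_mod_cast this
    have h8 := mul_left_cancel₀ h7 ha
    rw [h8, R1_ordE] at h4
    exact h4

end Pool.Agent.EEAC
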